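import Pool.Agent.Hhelper47.StrongCol.Greedy

/-!
Covering a `t`-intersecting family by classes with respect to two members whose intersection is
as small as possible.
-/

set_option autoImplicit false

namespace Pool.Agent.Hhelper47.StrongCol

open Finset

/-- transfer of a covering to a finite set -/
lemma exists_covering_on {V : Type} [DecidableEq V] (K : Finset V) {κ c : ℕ} (h1 : c ≤ κ)
    (h2 : κ ≤ K.card) :
    ∃ ℰ : Finset (Finset V), ℰ.card ≤ coveringNumber K.card κ c ∧
      (∀ E ∈ ℰ, E ⊆ K ∧ E.card = κ) ∧ ∀ S : Finset V, S ⊆ K → S.card = c → ∃ E ∈ ℰ, S ⊆ E := by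
  classical
  obtain ⟨𝒦, hc, hK, hcov⟩ := exists_covering (v := K.card) (κ := κ) (s := c) h1 h2
  let e : Fin K.card ≃ K := K.equivFin.symm
  let g : Fin K.card ↪ V := e.toEmbedding.trans (Function.Embedding.subtype _)
  have hgK : ∀ i, g i ∈ K := fun i => (e i).2
  refine ⟨𝒦.image (fun X => X.map g), Finset.card_image_le.trans hc.le, ?_, ?_⟩
  · intro E hE
    obtain ⟨X, hX, rfl⟩ := Finset.mem_image.1 hE
    refine ⟨?_, by rw [Finset.card_map, hK X hX]⟩
    intro v hv
    obtain ⟨i, -, rfl⟩ := Finset.mem_map.1 hv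
    exact hgK i
  · intro S hSK hSc
    let T : Finset (Fin K.card) := univ.filter (fun i => g i ∈ S)
    have hTmap : T.map g = S := by
      ext v
      rw [Finset.mem_map]
      constructor
      · rintro ⟨i, hi, rfl⟩
        exact (Finset.mem_filter.1 hi).2
      · intro hv
        refine ⟨e.symm ⟨v, hSK hv⟩, ?_, by simp [g]⟩
        rw [Finset.mem_filter]
        exact ⟨Finset.mem_univ _, by simpa [g] using hv⟩
    have hTc : T.card = c := by rw [← Finset.card_map g, hTmap, hSc]
    obtain ⟨X, hX, hTX⟩ := hcov T hTc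
    refine ⟨X.map g, Finset.mem_image_of_mem _ hX, ?_⟩
    rw [← hTmap]
    exact Finset.map_subset_map.2 hTX

/-- covering one class -/
lemma class_cover {V : Type} [DecidableEq V] {t s c r : ℕ} (K P Q : Finset V)
    (hKP : Disjoint K P) (hKQ : Disjoint K Q) (hPQ : Disjoint P Q) (hK : K.card = t + s)
    (hP : P.card ≤ r) (hQ : Q.card ≤ r) (hct : 2 * c ≤ t) :
    ∃ 𝒮 : Finset (Finset V), 𝒮.card ≤ r.choose c ^ 2 * coveringNumber (t + s) (s + 2 * c) c ∧
      (∀ S ∈ 𝒮, S.card = t) ∧
      ∀ C : Finset V, (K \ C).card = c → c ≤ (P ∩ C).card → c ≤ (Q ∩ C).card →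
        ∃ S ∈ 𝒮, S ⊆ C := by
  classical
  obtain ⟨ℰ, hℰc, hℰ, hcov⟩ := exists_covering_on K (κ := s + 2 * c) (c := c) (by omega)
    (by omega)
  rw [hK] at hℰc
  refine ⟨((P.powersetCard c) ×ˢ (Q.powersetCard c) ×ˢ ℰ).image
    (fun x => (K \ x.2.2) ∪ (x.1 ∪ x.2.1)), ?_, ?_, ?_⟩
  · refine Finset.card_image_le.trans ?_
    rw [Finset.card_product, Finset.card_product, Finset.card_powersetCard,
      Finset.card_powersetCard]
    calc P.card.choose c * (Q.card.choose c * ℰ.card)
        ≤ r.choose c * (r.choose c * coveringNumber (t + s) (s + 2 * c) c) :=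
          Nat.mul_le_mul (Nat.choose_le_choose c hP)
            (Nat.mul_le_mul (Nat.choose_le_choose c hQ) hℰc)
      _ = _ := by ring
  · intro S hS
    obtain ⟨⟨A, B, E⟩, hx, rfl⟩ := Finset.mem_image.1 hS
    rw [Finset.mem_product, Finset.mem_product, Finset.mem_powersetCard,
      Finset.mem_powersetCard] at hx
    obtain ⟨⟨hAP, hAc⟩, ⟨hBQ, hBc⟩, hE⟩ := hx
    dsimp only at hAP hAc hBQ hBc hE ⊢
    obtain ⟨hEK, hEc⟩ := hℰ E hE
    rw [Finset.card_union_of_disjoint, Finset.card_union_of_disjoint, hAc, hBc,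
      Finset.card_sdiff_of_subset hEK, hEc, hK]
    · omega
    · exact Finset.disjoint_of_subset_left hAP (Finset.disjoint_of_subset_right hBQ hPQ)
    · apply Finset.disjoint_of_subset_left Finset.sdiff_subset
      rw [Finset.disjoint_union_right]
      exact ⟨Finset.disjoint_of_subset_right hAP hKP, Finset.disjoint_of_subset_right hBQ hKQ⟩
  · intro C hC hPC hQC
    obtain ⟨A, hA, hAc⟩ := Finset.exists_subset_card_eq hPC
    obtain ⟨B, hB, hBc⟩ := Finset.exists_subset_card_eq hQC
    obtain ⟨E, hE, hCE⟩ := hcov (K \ C) Finset.sdiff_subset hC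
    refine ⟨(K \ E) ∪ (A ∪ B), Finset.mem_image.2 ⟨(A, B, E), ?_, rfl⟩, ?_⟩
    · rw [Finset.mem_product, Finset.mem_product, Finset.mem_powersetCard,
        Finset.mem_powersetCard]
      exact ⟨⟨hA.trans Finset.inter_subset_left, hAc⟩, ⟨hB.trans Finset.inter_subset_left, hBc⟩, hE⟩
    · intro v hv
      rw [Finset.mem_union, Finset.mem_sdiff, Finset.mem_union] at hv
      rcases hv with ⟨hvK, hvE⟩ | hv | hv
      · by_contra hvC
        exact hvE (hCE (Finset.mem_sdiff.2 ⟨hvK, hvC⟩))
      · exact (Finset.mem_inter.1 (hA hv)).2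
      · exact (Finset.mem_inter.1 (hB hv)).2

/-- covering the top class in the case of a small transversal -/
lemma top_cover {V : Type} [DecidableEq V] {t m : ℕ} (hm : 1 ≤ m) (hmt : 2 * m ≤ t)
    (K U X : Finset V) (hKU : K ⊆ U) (hK : K.card = t) (hU : U.card = t + 2 * m)
    (hXK : X ⊆ K) (hX : X.card ≤ m) :
    ∃ 𝒮 : Finset (Finset V), 𝒮.card ≤ m * coveringNumber (t - 1) (2 * m - 1) (m - 1) ∧
      (∀ S ∈ 𝒮, S.card = t) ∧
      ∀ C : Finset V, (K \ C).card = m → U \ C ⊆ K → (∃ x ∈ X, x ∉ C) → ∃ S ∈ 𝒮, S ⊆ C := by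
  classical
  have hex : ∀ x : V, ∃ ℰ : Finset (Finset V), x ∈ X →
      (ℰ.card ≤ coveringNumber (t - 1) (2 * m - 1) (m - 1) ∧
        (∀ E ∈ ℰ, E ⊆ K.erase x ∧ E.card = 2 * m - 1) ∧
        ∀ S : Finset V, S ⊆ K.erase x → S.card = m - 1 → ∃ E ∈ ℰ, S ⊆ E) := by
    intro x
    by_cases hx : x ∈ X
    · have hc : (K.erase x).card = t - 1 := by rw [Finset.card_erase_of_mem (hXK hx), hK]
      obtain ⟨ℰ, h1, h2, h3⟩ := exists_covering_on (K.erase x) (κ := 2 * m - 1) (c := m - 1)
        (by omega) (by omega)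
      rw [hc] at h1
      exact ⟨ℰ, fun _ => ⟨h1, h2, h3⟩⟩
    · exact ⟨∅, fun h => absurd h hx⟩
  choose ℰ hℰ using hex
  refine ⟨X.biUnion (fun x => (ℰ x).image (fun E => U \ insert x E)), ?_, ?_, ?_⟩
  · refine (Finset.card_biUnion_le_card_mul X _ (coveringNumber (t - 1) (2 * m - 1) (m - 1))
      ?_).trans (Nat.mul_le_mul_right _ hX)
    intro x hx
    exact Finset.card_image_le.trans (hℰ x hx).1
  · intro S hS
    obtain ⟨x, hx, hS⟩ := Finset.mem_biUnion.1 hS
    obtain ⟨E, hE, rfl⟩ := Finset.mem_image.1 hS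
    obtain ⟨hEK, hEc⟩ := (hℰ x hx).2.1 E hE
    have hxE : x ∉ E := fun h => (Finset.mem_erase.1 (hEK h)).1 rfl
    have hsub : insert x E ⊆ U := by
      rw [Finset.insert_subset_iff]
      exact ⟨hKU (hXK hx), (hEK.trans (Finset.erase_subset _ _)).trans hKU⟩
    rw [Finset.card_sdiff_of_subset hsub, Finset.card_insert_of_notMem hxE, hEc, hU]
    omega
  · intro C hC hUC hxC
    obtain ⟨x, hx, hxC⟩ := hxC
    have hxK : x ∈ K \ C := Finset.mem_sdiff.2 ⟨hXK hx, hxC⟩
    obtain ⟨E, hE, hCE⟩ := (hℰ x hx).2.2 ((K \ C).erase x) (by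
      apply Finset.erase_subset_erase
      exact Finset.sdiff_subset) (by rw [Finset.card_erase_of_mem hxK, hC])
    refine ⟨U \ insert x E, Finset.mem_biUnion.2 ⟨x, hx, Finset.mem_image.2 ⟨E, hE, rfl⟩⟩, ?_⟩
    intro v hv
    rw [Finset.mem_sdiff, Finset.mem_insert, not_or] at hv
    by_contra hvC
    have hvK : v ∈ K := hUC (Finset.mem_sdiff.2 ⟨hv.1, hvC⟩)
    exact hv.2.2 (hCE (Finset.mem_erase.2 ⟨hv.2.1, Finset.mem_sdiff.2 ⟨hvK, hvC⟩⟩))

/-- The combinatorial part: `CoverBound` from two numerical inequalities. -/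
lemma coverBound_of_sums {t m x : ℕ} (hm : 1 ≤ m) (hmt : 2 * m ≤ t)
    (hx1 : coveringNumber (t + 2 * m) (2 * m) m ≤ x) (hx0 : 1 ≤ x)
    (hs : ∀ s, 1 ≤ s → s < m → ∑ c ∈ range (m - s + 1),
      (m - s).choose c ^ 2 * coveringNumber (t + s) (s + 2 * c) c ≤ x)
    (h0 : ∑ c ∈ range m, m.choose c ^ 2 * coveringNumber t (2 * c) c +
      m * coveringNumber (t - 1) (2 * m - 1) (m - 1) ≤ x) : CoverBound t (t + m) x := by
  classical
  intro V _ _ F hF hFc
  rcases F.eq_empty_or_nonempty with rfl | hFne
  · exact ⟨∅, by simp, by simp, by simp⟩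
  obtain ⟨⟨F₀, F₁⟩, hFF, hmin⟩ := Finset.exists_min_image (F ×ˢ F)
    (fun p => (p.1 ∩ p.2).card) (hFne.product hFne)
  rw [Finset.mem_product] at hFF
  obtain ⟨hF₀, hF₁⟩ := hFF
  dsimp only at hF₀ hF₁ hmin
  have hmin' : ∀ A ∈ F, ∀ B ∈ F, (F₀ ∩ F₁).card ≤ (A ∩ B).card := fun A hA B hB =>
    hmin (A, B) (Finset.mem_product.2 ⟨hA, hB⟩)
  obtain ⟨s, hsdef⟩ : ∃ s, (F₀ ∩ F₁).card = t + s :=
    ⟨(F₀ ∩ F₁).card - t, by have := hF F₀ hF₀ F₁ hF₁; omega⟩
  rw [hsdef] at hmin'
  by_cases hsm : m ≤ s
  · -- all members equal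
    obtain ⟨T, hT, hTc⟩ := Finset.exists_subset_card_eq (hF F₀ hF₀ F₁ hF₁)
    refine ⟨{T}, by simpa using hx0, by simpa using hTc, ?_⟩
    intro A hA
    refine ⟨T, by simp, ?_⟩
    have h1 := hmin' F₀ hF₀ A hA
    have h2 := hFc F₀ hF₀
    have h3 : F₀ ∩ A = F₀ := Finset.eq_of_subset_of_card_le Finset.inter_subset_left (by omega)
    exact (hT.trans Finset.inter_subset_left).trans (Finset.inter_eq_left.1 h3)
  push Not at hsm
  set K := F₀ ∩ F₁ with hKdef
  set P := F₀ \ F₁ with hPdef
  set Q := F₁ \ F₀ with hQdef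
  have hKP : Disjoint K P := by
    rw [hKdef, hPdef, Finset.disjoint_left]
    intro v hv hv2
    exact (Finset.mem_sdiff.1 hv2).2 (Finset.mem_inter.1 hv).2
  have hKQ : Disjoint K Q := by
    rw [hKdef, hQdef, Finset.disjoint_left]
    intro v hv hv2
    exact (Finset.mem_sdiff.1 hv2).2 (Finset.mem_inter.1 hv).1
  have hPQ : Disjoint P Q := by
    rw [hPdef, hQdef, Finset.disjoint_left]
    intro v hv hv2
    exact (Finset.mem_sdiff.1 hv2).2 (Finset.mem_sdiff.1 hv).1
  have hPc : P.card ≤ m - s := by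
    have h1 := Finset.card_inter_add_card_sdiff F₀ F₁
    have h2 := hFc F₀ hF₀
    rw [← hKdef, ← hPdef] at h1
    omega
  have hQc : Q.card ≤ m - s := by
    have h1 := Finset.card_inter_add_card_sdiff F₁ F₀
    have h2 := hFc F₁ hF₁
    rw [Finset.inter_comm, ← hKdef, ← hQdef] at h1
    omega
  -- the two intersections
  have hI : ∀ C ∈ F, (K \ C).card ≤ (P ∩ C).card ∧ (K \ C).card ≤ (Q ∩ C).card := by
    intro C hC
    have h1 := hmin' F₀ hF₀ C hC
    have h2 := hmin' F₁ hF₁ C hC
    have h3 : (F₀ ∩ C).card = (K ∩ C).card + (P ∩ C).card := by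
      rw [← Finset.card_union_of_disjoint]
      · congr 1
        ext v
        simp only [hKdef, hPdef, Finset.mem_inter, Finset.mem_union, Finset.mem_sdiff]
        tauto
      · exact Finset.disjoint_of_subset_left Finset.inter_subset_left
          (Finset.disjoint_of_subset_right Finset.inter_subset_left hKP)
    have h4 : (F₁ ∩ C).card = (K ∩ C).card + (Q ∩ C).card := by
      rw [← Finset.card_union_of_disjoint]
      · congr 1
        ext v
        simp only [hKdef, hQdef, Finset.mem_inter, Finset.mem_union, Finset.mem_sdiff]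
        tauto
      · exact Finset.disjoint_of_subset_left Finset.inter_subset_left
          (Finset.disjoint_of_subset_right Finset.inter_subset_left hKQ)
    have h5 := Finset.card_inter_add_card_sdiff K C
    rw [hsdef] at h5
    omega
  have hex : ∀ c : ℕ, ∃ 𝒮 : Finset (Finset V), c ≤ m - s →
      (𝒮.card ≤ (m - s).choose c ^ 2 * coveringNumber (t + s) (s + 2 * c) c ∧
        (∀ S ∈ 𝒮, S.card = t) ∧
        ∀ C : Finset V, (K \ C).card = c → c ≤ (P ∩ C).card → c ≤ (Q ∩ C).card →
          ∃ S ∈ 𝒮, S ⊆ C) := by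
    intro c
    by_cases hc : c ≤ m - s
    · obtain ⟨𝒮, h1, h2, h3⟩ := class_cover (t := t) (s := s) (c := c) (r := m - s) K P Q hKP hKQ
        hPQ hsdef hPc hQc (by omega)
      exact ⟨𝒮, fun _ => ⟨h1, h2, h3⟩⟩
    · exact ⟨∅, fun h => absurd h hc⟩
  choose 𝒮 h𝒮 using hex
  have hcle : ∀ C ∈ F, (K \ C).card ≤ m - s := by
    intro C hC
    exact (hI C hC).1.trans ((Finset.card_le_card Finset.inter_subset_left).trans hPc)
  rcases Nat.eq_zero_or_pos s with hs0 | hs0
  · -- `s = 0`
    subst hs0
    rw [Nat.add_zero] at hsdef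
    -- the top class
    by_cases htop : ∃ X : Finset V, X ⊆ K ∧ X.card ≤ m ∧
        ∀ C ∈ F, (K \ C).card = m → ∃ y ∈ X, y ∉ C
    · obtain ⟨X, hXK, hXc, hX⟩ := htop
      by_cases hUc : (F₀ ∪ F₁).card = t + 2 * m
      · obtain ⟨𝒯, h𝒯c, h𝒯t, h𝒯⟩ := top_cover (t := t) hm hmt K (F₀ ∪ F₁) X
          (Finset.inter_subset_left.trans Finset.subset_union_left) hsdef hUc hXK hXc
        refine ⟨(range m).biUnion 𝒮 ∪ 𝒯, ?_, ?_, ?_⟩
        · refine (Finset.card_union_le _ _).trans (le_trans (Nat.add_le_add ?_ h𝒯c) h0)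
          refine Finset.card_biUnion_le.trans (Finset.sum_le_sum fun c hc => ?_)
          have h1 := (h𝒮 c (by rw [Finset.mem_range] at hc; omega)).1
          rw [Nat.sub_zero, Nat.add_zero, Nat.zero_add] at h1
          exact h1
        · intro S hS
          rcases Finset.mem_union.1 hS with h | h
          · obtain ⟨c, hc, h⟩ := Finset.mem_biUnion.1 h
            exact (h𝒮 c (by rw [Finset.mem_range] at hc; omega)).2.1 S h
          · exact h𝒯t S h
        · intro C hC
          rcases Nat.lt_or_ge (K \ C).card m with hlt | hge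
          · obtain ⟨S, hS, hSC⟩ := (h𝒮 (K \ C).card (by omega)).2.2 C rfl (hI C hC).1 (hI C hC).2
            exact ⟨S, Finset.mem_union_left _ (Finset.mem_biUnion.2
              ⟨_, Finset.mem_range.2 hlt, hS⟩), hSC⟩
          · have hCm : (K \ C).card = m := le_antisymm (by have := hcle C hC; omega) hge
            obtain ⟨S, hS, hSC⟩ := h𝒯 C hCm (by
              -- `U \ C ⊆ K`
              have h1 : P ⊆ C := by
                have h2 : P ∩ C = P := Finset.eq_of_subset_of_card_le Finset.inter_subset_left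
                  (by have := (hI C hC).1; omega)
                exact Finset.inter_eq_left.1 h2
              have h1' : Q ⊆ C := by
                have h2 : Q ∩ C = Q := Finset.eq_of_subset_of_card_le Finset.inter_subset_left
                  (by have := (hI C hC).2; omega)
                exact Finset.inter_eq_left.1 h2
              intro v hv
              rw [Finset.mem_sdiff, Finset.mem_union] at hv
              rw [hKdef, Finset.mem_inter]
              by_contra hvK
              rcases hv with ⟨hv | hv, hvC⟩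
              · exact hvC (h1 (Finset.mem_sdiff.2 ⟨hv, fun h => hvK ⟨hv, h⟩⟩))
              · exact hvC (h1' (Finset.mem_sdiff.2 ⟨hv, fun h => hvK ⟨h, hv⟩⟩))) (hX C hC hCm)
            exact ⟨S, Finset.mem_union_right _ hS, hSC⟩
      · -- then the top class is empty
        refine ⟨(range m).biUnion 𝒮, ?_, ?_, ?_⟩
        · refine le_trans ?_ h0
          refine le_trans ?_ (Nat.le_add_right _ _)
          refine Finset.card_biUnion_le.trans (Finset.sum_le_sum fun c hc => ?_)
          have h1 := (h𝒮 c (by rw [Finset.mem_range] at hc; omega)).1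
          rw [Nat.sub_zero, Nat.add_zero, Nat.zero_add] at h1
          exact h1
        · intro S hS
          obtain ⟨c, hc, h⟩ := Finset.mem_biUnion.1 hS
          exact (h𝒮 c (by rw [Finset.mem_range] at hc; omega)).2.1 S h
        · intro C hC
          have hlt : (K \ C).card < m := by
            by_contra hge
            push Not at hge
            apply hUc
            have h1 := Finset.card_union_add_card_inter F₀ F₁
            rw [← hKdef, hsdef] at h1
            have h2 := Finset.card_inter_add_card_sdiff F₀ F₁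
            rw [← hKdef, ← hPdef, hsdef] at h2
            have h3 := Finset.card_inter_add_card_sdiff F₁ F₀
            rw [Finset.inter_comm, ← hKdef, ← hQdef, hsdef] at h3
            have h4 := (hI C hC).1.trans (Finset.card_le_card Finset.inter_subset_left)
            have h5 := (hI C hC).2.trans (Finset.card_le_card Finset.inter_subset_left)
            omega
          obtain ⟨S, hS, hSC⟩ := (h𝒮 (K \ C).card (by omega)).2.2 C rfl (hI C hC).1 (hI C hC).2
          exact ⟨S, Finset.mem_biUnion.2 ⟨_, Finset.mem_range.2 hlt, hS⟩, hSC⟩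
    · -- no small transversal: the family lives on `F₀ ∪ F₁`
      push Not at htop
      have hmemtop : ∃ C ∈ F, (K \ C).card = m := by
        obtain ⟨C, hC, h, -⟩ := htop ∅ (Finset.empty_subset _) (by simp)
        exact ⟨C, hC, h⟩
      have hPm : P.card = m ∧ Q.card = m := by
        obtain ⟨C, hC, h⟩ := hmemtop
        have h4 := (hI C hC).1.trans (Finset.card_le_card Finset.inter_subset_left)
        have h5 := (hI C hC).2.trans (Finset.card_le_card Finset.inter_subset_left)
        omega
      have hUc : (F₀ ∪ F₁).card = t + 2 * m := by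
        have h1 := Finset.card_union_add_card_inter F₀ F₁
        rw [← hKdef, hsdef] at h1
        have h2 := Finset.card_inter_add_card_sdiff F₀ F₁
        rw [← hKdef, ← hPdef, hsdef] at h2
        have h3 := Finset.card_inter_add_card_sdiff F₁ F₀
        rw [Finset.inter_comm, ← hKdef, ← hQdef, hsdef] at h3
        omega
      obtain ⟨𝒯, h𝒯, h𝒯t⟩ := cover_of_small_ground F (F₀ ∪ F₁) hUc (by
        intro B hB
        have hKB : (K \ B).card ≤ m := by have := hcle B hB; omega
        obtain ⟨C, hC, hCm, hCB⟩ := htop (K \ B) Finset.sdiff_subset hKB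
        -- `K \ C ⊆ B`
        have hKCB : K \ C ⊆ B := by
          intro v hv
          rw [Finset.mem_sdiff] at hv
          by_contra hvB
          exact hv.2 (hCB v (Finset.mem_sdiff.2 ⟨hv.1, hvB⟩))
        -- `C ⊆ U`
        have hPC : P ⊆ C := by
          have h2 : P ∩ C = P := Finset.eq_of_subset_of_card_le Finset.inter_subset_left
            (by have := (hI C hC).1; omega)
          exact Finset.inter_eq_left.1 h2
        have hQC : Q ⊆ C := by
          have h2 : Q ∩ C = Q := Finset.eq_of_subset_of_card_le Finset.inter_subset_left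
            (by have := (hI C hC).2; omega)
          exact Finset.inter_eq_left.1 h2
        have hCU : C ⊆ F₀ ∪ F₁ := by
          have h6 : (K ∩ C) ∪ (P ∪ Q) ⊆ C := by
            intro v hv
            rw [Finset.mem_union, Finset.mem_union] at hv
            rcases hv with hv | hv | hv
            · exact (Finset.mem_inter.1 hv).2
            · exact hPC hv
            · exact hQC hv
          have h7 : ((K ∩ C) ∪ (P ∪ Q)).card = t + m := by
            have h8 := Finset.card_inter_add_card_sdiff K C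
            rw [Finset.card_union_of_disjoint, Finset.card_union_of_disjoint hPQ, hPm.1, hPm.2]
            · omega
            · apply Finset.disjoint_of_subset_left Finset.inter_subset_left
              rw [Finset.disjoint_union_right]
              exact ⟨hKP, hKQ⟩
          have h9 : (K ∩ C) ∪ (P ∪ Q) = C := Finset.eq_of_subset_of_card_le h6
            (by rw [h7]; exact hFc C hC)
          rw [← h9]
          intro v hv
          rw [Finset.mem_union, Finset.mem_union, hKdef, hPdef, hQdef] at hv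
          rw [Finset.mem_union]
          rcases hv with hv | hv | hv
          · exact Or.inl (Finset.mem_inter.1 (Finset.mem_inter.1 hv).1).1
          · exact Or.inl (Finset.mem_sdiff.1 hv).1
          · exact Or.inr (Finset.mem_sdiff.1 hv).1
        -- count `B ∩ U`
        have hdis : Disjoint (B ∩ C) (K \ C) := by
          rw [Finset.disjoint_left]
          intro v hv hv2
          exact (Finset.mem_sdiff.1 hv2).2 (Finset.mem_inter.1 hv).2
        have hsubU : (B ∩ C) ∪ (K \ C) ⊆ B ∩ (F₀ ∪ F₁) := by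
          intro v hv
          rw [Finset.mem_union] at hv
          rw [Finset.mem_inter]
          rcases hv with hv | hv
          · exact ⟨(Finset.mem_inter.1 hv).1, hCU (Finset.mem_inter.1 hv).2⟩
          · exact ⟨hKCB hv, Finset.mem_union_left _
              (Finset.mem_inter.1 (Finset.mem_sdiff.1 hv).1).1⟩
        have hcard := Finset.card_le_card hsubU
        rw [Finset.card_union_of_disjoint hdis, hCm] at hcard
        have h10 := hF B hB C hC
        have h11 := hFc B hB
        have h12 : (B ∩ (F₀ ∪ F₁)).card ≤ B.card := Finset.card_le_card Finset.inter_subset_left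
        refine ⟨?_, by omega⟩
        have h13 : B ∩ (F₀ ∪ F₁) = B := Finset.eq_of_subset_of_card_le Finset.inter_subset_left
          (by omega)
        exact Finset.inter_eq_left.1 h13)
      exact ⟨𝒯, h𝒯.trans hx1, h𝒯t⟩
  · -- `s ≥ 1`
    refine ⟨(range (m - s + 1)).biUnion 𝒮, ?_, ?_, ?_⟩
    · refine le_trans ?_ (hs s hs0 hsm)
      refine Finset.card_biUnion_le.trans (Finset.sum_le_sum fun c hc => ?_)
      exact (h𝒮 c (by rw [Finset.mem_range] at hc; omega)).1
    · intro S hS
      obtain ⟨c, hc, h⟩ := Finset.mem_biUnion.1 hS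
      exact (h𝒮 c (by rw [Finset.mem_range] at hc; omega)).2.1 S h
    · intro C hC
      have h1 := hcle C hC
      obtain ⟨S, hS, hSC⟩ := (h𝒮 (K \ C).card h1).2.2 C rfl (hI C hC).1 (hI C hC).2
      exact ⟨S, Finset.mem_biUnion.2 ⟨_, Finset.mem_range.2 (by omega), hS⟩, hSC⟩

end Pool.Agent.Hhelper47.StrongCol
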