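import Mathlib

/-!
Definitions for `MP_5b9121_co` (strong and link chromatic numbers of `t`-intersecting hypergraphs).
-/

set_option autoImplicit false

namespace Pool.Agent.Hhelper47.StrongCol

variable {V : Type} [DecidableEq V]

/-- `φ` is a `c`-strong colouring of the hypergraph with edge family `H`: every edge `e` receives
at least `min c |e|` distinct colours. -/
def IsStrong {κ : Type} [DecidableEq κ] (H : Finset (Finset V)) (c : ℕ) (φ : V → κ) : Prop :=
  ∀ e ∈ H, min c e.card ≤ (e.image φ).card

/-- The `c`-strong chromatic number: the least `k` such that some map `V → {1,…,k}` is a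
`c`-strong colouring. -/
noncomputable def chi (H : Finset (Finset V)) (c : ℕ) : ℕ :=
  sInf {k : ℕ | ∃ φ : V → Fin k, IsStrong H c φ}

/-- The link of `S`: the family of all `e \ S` with `e ∈ H`, `S ⊆ e`. -/
def link (H : Finset (Finset V)) (S : Finset V) : Finset (Finset V) :=
  (H.filter (fun e => S ⊆ e)).image (fun e => e \ S)

/-- `χ(H, t, ℓ)`: the maximum over all `t`-sets `S` of vertices of the `ℓ`-strong chromatic number
of the link of `S`. -/
noncomputable def chiLink [Fintype V] (H : Finset (Finset V)) (t ℓ : ℕ) : ℕ :=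
  ((Finset.univ : Finset V).powersetCard t).sup (fun S => chi (link H S) ℓ)

/-- `H` is `t`-intersecting. -/
def TInter (t : ℕ) (H : Finset (Finset V)) : Prop :=
  ∀ e ∈ H, ∀ f ∈ H, t ≤ (e ∩ f).card

/-- `x` is an admissible exponent for `(t, ℓ)`: there is a constant `C` such that
`χ(H, t+ℓ) ≤ C * χ(H, t, ℓ) ^ x` for every (finite, nonempty) `t`-intersecting hypergraph `H`.
The number `x_{t,ℓ}` of the problem is the least admissible exponent. -/
def Exponent (t ℓ x : ℕ) : Prop :=
  ∃ C : ℕ, ∀ (V : Type) [Fintype V] [DecidableEq V] (H : Finset (Finset V)),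
    H.Nonempty → TInter t H → chi H (t + ℓ) ≤ C * chiLink H t ℓ ^ x

/-- `𝒮` is a `t`-cover of the family `F`: a family of `t`-sets such that every member of `F`
contains one of them. -/
def IsTCover (t : ℕ) (F 𝒮 : Finset (Finset V)) : Prop :=
  (∀ S ∈ 𝒮, S.card = t) ∧ ∀ A ∈ F, ∃ S ∈ 𝒮, S ⊆ A

/-- Every `t`-intersecting family of sets of size at most `k` has a `t`-cover consisting of at
most `x` sets. -/
def CoverBound (t k x : ℕ) : Prop :=
  ∀ (V : Type) [Fintype V] [DecidableEq V] (F : Finset (Finset V)),
    TInter t F → (∀ A ∈ F, A.card ≤ k) → ∃ 𝒮 : Finset (Finset V), 𝒮.card ≤ x ∧ IsTCover t F 𝒮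

end Pool.Agent.Hhelper47.StrongCol
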