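import Pool.Agent.Hhelper47.StrongCol.LargeT2

/-!
Greedy upper bound for the covering number.
-/

set_option autoImplicit false

namespace Pool.Agent.Hhelper47.StrongCol

open Finset

/-- averaging step -/
lemma exists_good_block {v κ c : ℕ} (h1 : c ≤ κ) (h2 : κ ≤ v) (𝒰 : Finset (Finset (Fin v)))
    (h𝒰 : ∀ S ∈ 𝒰, S.card = c) :
    ∃ K : Finset (Fin v), K.card = κ ∧
      𝒰.card * κ.choose c ≤ (𝒰.filter (fun S => S ⊆ K)).card * v.choose c := by
  classical
  by_contra hcon
  push Not at hcon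
  have hsum : ∑ K ∈ (univ : Finset (Fin v)).powersetCard κ,
      (𝒰.filter (fun S => S ⊆ K)).card = 𝒰.card * (v - c).choose (κ - c) := by
    refine (Finset.sum_card_bipartiteAbove_eq_sum_card_bipartiteBelow
      (fun (K : Finset (Fin v)) (S : Finset (Fin v)) => S ⊆ K)
      (s := (univ : Finset (Fin v)).powersetCard κ) (t := 𝒰)).trans ?_
    rw [Finset.sum_const_nat (m := (v - c).choose (κ - c))]
    intro S hS
    have hSc := h𝒰 S hS
    have : (Finset.bipartiteBelow (fun (K : Finset (Fin v)) (S : Finset (Fin v)) => S ⊆ K)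
        ((univ : Finset (Fin v)).powersetCard κ) S) =
        (Sᶜ.powersetCard (κ - c)).image (fun X => S ∪ X) := by
      ext K
      simp only [Finset.bipartiteBelow, Finset.mem_filter, Finset.mem_powersetCard,
        Finset.mem_image]
      constructor
      · rintro ⟨⟨-, hK⟩, hSK⟩
        refine ⟨K \ S, ⟨?_, ?_⟩, Finset.union_sdiff_of_subset hSK⟩
        · intro a ha
          rw [Finset.mem_compl]
          exact (Finset.mem_sdiff.1 ha).2
        · rw [Finset.card_sdiff_of_subset hSK, hK, hSc]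
      · rintro ⟨X, ⟨hXS, hXc⟩, rfl⟩
        refine ⟨⟨Finset.subset_univ _, ?_⟩, Finset.subset_union_left⟩
        rw [Finset.card_union_of_disjoint, hXc, hSc]
        · omega
        · rw [Finset.disjoint_left]
          intro a ha haX
          exact (Finset.mem_compl.1 (hXS haX)) ha
    rw [this, Finset.card_image_of_injOn, Finset.card_powersetCard, Finset.card_compl,
      Fintype.card_fin, hSc]
    intro X hX Y hY hXY
    rw [Finset.mem_coe, Finset.mem_powersetCard] at hX hY
    ext a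
    by_cases haS : a ∈ S
    · constructor
      · intro ha
        exact absurd haS (Finset.mem_compl.1 (hX.1 ha))
      · intro ha
        exact absurd haS (Finset.mem_compl.1 (hY.1 ha))
    · have h3 := Finset.ext_iff.1 hXY a
      simp only [Finset.mem_union, haS, false_or] at h3
      exact h3
  have hne : ((univ : Finset (Fin v)).powersetCard κ).Nonempty := by
    rw [Finset.powersetCard_nonempty, Finset.card_univ, Fintype.card_fin]
    exact h2
  have hlt : ∑ K ∈ (univ : Finset (Fin v)).powersetCard κ,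
      (𝒰.filter (fun S => S ⊆ K)).card * v.choose c <
      ∑ K ∈ (univ : Finset (Fin v)).powersetCard κ, 𝒰.card * κ.choose c := by
    apply Finset.sum_lt_sum_of_nonempty hne
    intro K hK
    exact hcon K (Finset.mem_powersetCard.1 hK).2
  rw [← Finset.sum_mul, hsum, Finset.sum_const, Finset.card_powersetCard, Finset.card_univ,
    Fintype.card_fin, smul_eq_mul] at hlt
  have hid : v.choose κ * κ.choose c = v.choose c * (v - c).choose (κ - c) := Nat.choose_mul h1
  have : 𝒰.card * (v - c).choose (κ - c) * v.choose c = v.choose κ * (𝒰.card * κ.choose c) := by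
    calc 𝒰.card * (v - c).choose (κ - c) * v.choose c
        = 𝒰.card * (v.choose c * (v - c).choose (κ - c)) := by ring
      _ = 𝒰.card * (v.choose κ * κ.choose c) := by rw [hid]
      _ = v.choose κ * (𝒰.card * κ.choose c) := by ring
  omega

/-- greedy family -/
lemma exists_greedy {v κ c : ℕ} (h1 : c ≤ κ) (h2 : κ ≤ v) (n : ℕ) :
    ∃ 𝒦 : Finset (Finset (Fin v)), 𝒦.card ≤ n ∧ (∀ K ∈ 𝒦, K.card = κ) ∧
      ((((univ : Finset (Fin v)).powersetCard c).filter
        (fun S => ∀ K ∈ 𝒦, ¬ S ⊆ K)).card : ℝ) ≤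
        (v.choose c : ℝ) * (1 - (κ.choose c : ℝ) / (v.choose c : ℝ)) ^ n := by
  classical
  have hv : (0 : ℝ) < (v.choose c : ℝ) := by
    exact_mod_cast Nat.choose_pos (h1.trans h2)
  have hle : (κ.choose c : ℝ) ≤ (v.choose c : ℝ) := by
    exact_mod_cast Nat.choose_le_choose c h2
  have hp : 0 ≤ 1 - (κ.choose c : ℝ) / (v.choose c : ℝ) := by
    rw [sub_nonneg, div_le_one hv]
    exact hle
  induction n with
  | zero =>
    refine ⟨∅, by simp, by simp, ?_⟩
    simp [Finset.card_powersetCard]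
  | succ n ih =>
    obtain ⟨𝒦, hc, hK, hU⟩ := ih
    set 𝒰 := ((univ : Finset (Fin v)).powersetCard c).filter (fun S => ∀ K ∈ 𝒦, ¬ S ⊆ K)
      with h𝒰
    obtain ⟨K₀, hK₀, hgood⟩ := exists_good_block h1 h2 𝒰 (by
      intro S hS
      rw [h𝒰, Finset.mem_filter, Finset.mem_powersetCard] at hS
      exact hS.1.2)
    refine ⟨insert K₀ 𝒦, (Finset.card_insert_le _ _).trans (by omega), ?_, ?_⟩
    · intro K hK'
      rcases Finset.mem_insert.1 hK' with rfl | h
      · exact hK₀
      · exact hK K h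
    · have hsub : ((univ : Finset (Fin v)).powersetCard c).filter
          (fun S => ∀ K ∈ insert K₀ 𝒦, ¬ S ⊆ K) = 𝒰.filter (fun S => ¬ S ⊆ K₀) := by
        ext S
        simp only [h𝒰, Finset.mem_filter, Finset.mem_insert, forall_eq_or_imp]
        tauto
      have hcard : (𝒰.filter (fun S => S ⊆ K₀)).card + (𝒰.filter (fun S => ¬ S ⊆ K₀)).card
          = 𝒰.card := Finset.card_filter_add_card_filter_not _
      rw [hsub]
      have h3 : ((𝒰.filter (fun S => ¬ S ⊆ K₀)).card : ℝ) =
          (𝒰.card : ℝ) - ((𝒰.filter (fun S => S ⊆ K₀)).card : ℝ) := by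
        rw [← hcard]; push_cast; ring
      have h4 : (𝒰.card : ℝ) * ((κ.choose c : ℝ) / (v.choose c : ℝ)) ≤
          ((𝒰.filter (fun S => S ⊆ K₀)).card : ℝ) := by
        rw [mul_div_assoc', div_le_iff₀ hv]
        exact_mod_cast hgood
      rw [h3, pow_succ, ← mul_assoc]
      calc (𝒰.card : ℝ) - ((𝒰.filter (fun S => S ⊆ K₀)).card : ℝ)
          ≤ (𝒰.card : ℝ) - (𝒰.card : ℝ) * ((κ.choose c : ℝ) / (v.choose c : ℝ)) := by linarith
        _ = (𝒰.card : ℝ) * (1 - (κ.choose c : ℝ) / (v.choose c : ℝ)) := by ring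
        _ ≤ _ := mul_le_mul_of_nonneg_right hU hp

/-- The greedy bound `C(v, κ, c) ≤ (2 + log (κ choose c)) (v choose c) / (κ choose c)`. -/
lemma covering_greedy {v κ c : ℕ} (h1 : c ≤ κ) (h2 : κ ≤ v) :
    (coveringNumber v κ c : ℝ) * (κ.choose c : ℝ) ≤
      (2 + Real.log (κ.choose c : ℝ)) * (v.choose c : ℝ) := by
  classical
  have hv : (0 : ℝ) < (v.choose c : ℝ) := by
    exact_mod_cast Nat.choose_pos (h1.trans h2)
  have hk : (0 : ℝ) < (κ.choose c : ℝ) := by
    exact_mod_cast Nat.choose_pos h1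
  have hk1 : (1 : ℝ) ≤ (κ.choose c : ℝ) := by
    exact_mod_cast Nat.choose_pos h1
  have hle : (κ.choose c : ℝ) ≤ (v.choose c : ℝ) := by
    exact_mod_cast Nat.choose_le_choose c h2
  set p : ℝ := (κ.choose c : ℝ) / (v.choose c : ℝ) with hp
  have hp0 : 0 < p := div_pos hk hv
  have hp1 : p ≤ 1 := by rw [hp, div_le_one hv]; exact hle
  set n : ℕ := ⌈Real.log (κ.choose c : ℝ) / p⌉₊ with hn
  have hlog : 0 ≤ Real.log (κ.choose c : ℝ) := Real.log_nonneg hk1
  have hn1 : (n : ℝ) ≤ Real.log (κ.choose c : ℝ) / p + 1 :=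
    (Nat.ceil_lt_add_one (div_nonneg hlog hp0.le)).le
  have hn2 : Real.log (κ.choose c : ℝ) / p ≤ (n : ℝ) := Nat.le_ceil _
  obtain ⟨𝒦, hc, hK, hU⟩ := exists_greedy h1 h2 n
  rw [← hp] at hU
  set 𝒰 := ((univ : Finset (Fin v)).powersetCard c).filter (fun S => ∀ K ∈ 𝒦, ¬ S ⊆ K)
    with h𝒰
  have hpow : (1 - p) ^ n ≤ 1 / (κ.choose c : ℝ) := by
    calc (1 - p) ^ n ≤ (Real.exp (-p)) ^ n := by
          apply pow_le_pow_left₀ (by linarith)
          have := Real.add_one_le_exp (-p)
          linarith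
      _ = Real.exp (-(n * p)) := by rw [← Real.exp_nat_mul]; ring_nf
      _ ≤ Real.exp (- Real.log (κ.choose c : ℝ)) := by
          apply Real.exp_le_exp.2
          rw [div_le_iff₀ hp0] at hn2
          linarith
      _ = 1 / (κ.choose c : ℝ) := by rw [Real.exp_neg, Real.exp_log hk, one_div]
  have hUc : (𝒰.card : ℝ) ≤ 1 / p := by
    refine hU.trans ?_
    calc (v.choose c : ℝ) * (1 - p) ^ n ≤ (v.choose c : ℝ) * (1 / (κ.choose c : ℝ)) :=
          mul_le_mul_of_nonneg_left hpow hv.le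
      _ = 1 / p := by rw [hp]; field_simp
  -- complete the family
  have hext : ∀ S : Finset (Fin v), ∃ K : Finset (Fin v), S.card = c → (S ⊆ K ∧ K.card = κ) := by
    intro S
    by_cases hS : S.card = c
    · obtain ⟨K, hSK, -, hKc⟩ := Finset.exists_subsuperset_card_eq (Finset.subset_univ S)
        (show S.card ≤ κ by omega) (by rw [Finset.card_univ, Fintype.card_fin]; exact h2)
      exact ⟨K, fun _ => ⟨hSK, hKc⟩⟩
    · exact ⟨S, fun h => absurd h hS⟩
  choose g hg using hext
  have hcov : IsCovering v κ c (𝒦 ∪ 𝒰.image g) := by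
    refine ⟨?_, ?_⟩
    · intro K hK'
      rcases Finset.mem_union.1 hK' with h | h
      · exact hK K h
      · obtain ⟨S, hS, rfl⟩ := Finset.mem_image.1 h
        rw [h𝒰, Finset.mem_filter, Finset.mem_powersetCard] at hS
        exact (hg S hS.1.2).2
    · intro S hS
      by_cases h : ∃ K ∈ 𝒦, S ⊆ K
      · obtain ⟨K, hK1, hSK⟩ := h
        exact ⟨K, Finset.mem_union_left _ hK1, hSK⟩
      · push Not at h
        refine ⟨g S, Finset.mem_union_right _ (Finset.mem_image_of_mem g ?_), (hg S hS).1⟩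
        rw [h𝒰, Finset.mem_filter, Finset.mem_powersetCard]
        exact ⟨⟨Finset.subset_univ _, hS⟩, h⟩
  have h5 : coveringNumber v κ c ≤ n + 𝒰.card :=
    (coveringNumber_le hcov).trans ((Finset.card_union_le _ _).trans
      (Nat.add_le_add hc Finset.card_image_le))
  have h6 : (coveringNumber v κ c : ℝ) ≤ (2 + Real.log (κ.choose c : ℝ)) / p := by
    have h7 : (coveringNumber v κ c : ℝ) ≤ (n : ℝ) + (𝒰.card : ℝ) := by exact_mod_cast h5
    have h8 : (1 : ℝ) ≤ 1 / p := by rw [le_div_iff₀ hp0]; linarith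
    calc (coveringNumber v κ c : ℝ) ≤ (n : ℝ) + (𝒰.card : ℝ) := h7
      _ ≤ (Real.log (κ.choose c : ℝ) / p + 1) + 1 / p := add_le_add hn1 hUc
      _ ≤ (Real.log (κ.choose c : ℝ) / p + 1 / p) + 1 / p := by linarith
      _ = (2 + Real.log (κ.choose c : ℝ)) / p := by ring
  calc (coveringNumber v κ c : ℝ) * (κ.choose c : ℝ)
      ≤ (2 + Real.log (κ.choose c : ℝ)) / p * (κ.choose c : ℝ) :=
        mul_le_mul_of_nonneg_right h6 hk.le
    _ = (2 + Real.log (κ.choose c : ℝ)) * (v.choose c : ℝ) := by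
        rw [hp]; field_simp

end Pool.Agent.Hhelper47.StrongCol
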