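import Pool.Agent.Hhelper47.StrongCol.Values

/-!
Families of graphs of functions which are pairwise `t`-intersecting and in which every `t`-set has
small degree (greedy choice with a potential function).
-/

set_option autoImplicit false

namespace Pool.Agent.Hhelper47.StrongCol

open Finset

section

variable {t r q : ℕ}

/-- The graph of `f`. -/
def gr (f : Fin t × Fin r → Fin q) : Finset ((Fin t × Fin r) × Fin q) :=
  univ.image (fun x => (x, f x))

lemma mem_gr {f : Fin t × Fin r → Fin q} {x : Fin t × Fin r} {v : Fin q} :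
    (x, v) ∈ gr f ↔ f x = v := by
  simp only [gr, Finset.mem_image, Finset.mem_univ, true_and, Prod.mk.injEq]
  constructor
  · rintro ⟨y, rfl, h⟩
    exact h
  · intro h
    exact ⟨x, rfl, h⟩

/-- Two functions agree somewhere in each block. -/
def Compat (f g : Fin t × Fin r → Fin q) : Prop := ∀ i, ∃ j, f (i, j) = g (i, j)

lemma card_gr (f : Fin t × Fin r → Fin q) : (gr f).card = t * r := by
  rw [gr, Finset.card_image_of_injective _ (fun x y h => congrArg Prod.fst h), Finset.card_univ,
    Fintype.card_prod, Fintype.card_fin, Fintype.card_fin]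

lemma Compat.inter {f g : Fin t × Fin r → Fin q} (h : Compat f g) :
    t ≤ (gr f ∩ gr g).card := by
  choose j hj using h
  have h1 : (univ.image (fun i : Fin t => (((i, j i) : Fin t × Fin r), f (i, j i)))).card = t := by
    rw [Finset.card_image_of_injective, Finset.card_univ, Fintype.card_fin]
    intro a b hab
    simp only [Prod.mk.injEq] at hab
    exact hab.1.1
  refine h1.symm.le.trans (Finset.card_le_card ?_)
  intro z hz
  obtain ⟨i, -, rfl⟩ := Finset.mem_image.1 hz
  rw [Finset.mem_inter, mem_gr, mem_gr]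
  exact ⟨rfl, (hj i).symm⟩

/-- `2 (q-1)^q ≤ q^q`. -/
lemma two_mul_pred_pow (q : ℕ) (hq : 1 ≤ q) : (q - 1) ^ q * 2 ≤ q ^ q := by
  obtain ⟨a, rfl⟩ : ∃ a, q = a + 1 := ⟨q - 1, by omega⟩
  rw [Nat.add_sub_cancel]
  rcases Nat.eq_zero_or_pos a with rfl | ha
  · norm_num
  have key : ∀ n, (a + n) * a ^ n ≤ a * (a + 1) ^ n := by
    intro n
    induction n with
    | zero => simp
    | succ n ih =>
      calc (a + (n + 1)) * a ^ (n + 1) = (a * (a + (n + 1))) * a ^ n := by ring
        _ ≤ ((a + n) * (a + 1)) * a ^ n := by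
            apply Nat.mul_le_mul_right
            nlinarith
        _ = ((a + n) * a ^ n) * (a + 1) := by ring
        _ ≤ (a * (a + 1) ^ n) * (a + 1) := Nat.mul_le_mul_right _ ih
        _ = a * (a + 1) ^ (n + 1) := by ring
  have h1 := key (a + 1)
  have h2 : a * (a ^ (a + 1) * 2) ≤ a * (a + 1) ^ (a + 1) := by
    refine le_trans ?_ h1
    calc a * (a ^ (a + 1) * 2) = (2 * a) * a ^ (a + 1) := by ring
      _ ≤ (a + (a + 1)) * a ^ (a + 1) := Nat.mul_le_mul_right _ (by omega)
  exact Nat.le_of_mul_le_mul_left h2 ha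

/-- The number of functions which disagree with `g` on the whole of block `i`. -/
lemma card_disagree (g : Fin t × Fin r → Fin q) (i : Fin t) (m : ℕ) (hq : 1 ≤ q)
    (hr : r = q * m) :
    ((univ : Finset (Fin t × Fin r → Fin q)).filter
      (fun f => ∀ j, f (i, j) ≠ g (i, j))).card * 2 ^ m ≤ q ^ (t * r) := by
  classical
  have h1 : (univ : Finset (Fin t × Fin r → Fin q)).filter (fun f => ∀ j, f (i, j) ≠ g (i, j)) =
      Fintype.piFinset (fun x : Fin t × Fin r => if x.1 = i then univ.erase (g x) else univ) := by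
    ext f
    simp only [Finset.mem_filter, Finset.mem_univ, true_and, Fintype.mem_piFinset]
    constructor
    · rintro h ⟨i', j⟩
      by_cases hi : i' = i
      · subst hi
        simp [h j]
      · simp [hi]
    · intro h j
      have := h (i, j)
      simpa using this
  rw [h1, Fintype.card_piFinset, Fintype.prod_prod_type]
  have h2 : ∀ i' : Fin t, ∏ j : Fin r,
      (if (i', j).1 = i then univ.erase (g (i', j)) else (univ : Finset (Fin q))).card =
        if i' = i then (q - 1) ^ r else q ^ r := by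
    intro i'
    by_cases hi : i' = i
    · simp [hi]
    · simp [hi]
  rw [Finset.prod_congr rfl (fun i' _ => h2 i')]
  rw [← Finset.mul_prod_erase univ _ (Finset.mem_univ i), if_pos rfl]
  have h3 : ∏ x ∈ univ.erase i, (if x = i then (q - 1) ^ r else q ^ r) = (q ^ r) ^ (t - 1) := by
    rw [Finset.prod_congr rfl (g := fun _ => q ^ r) (fun x hx => if_neg (Finset.ne_of_mem_erase hx)),
      Finset.prod_const, Finset.card_erase_of_mem (Finset.mem_univ i), Finset.card_univ,
      Fintype.card_fin]
  rw [h3]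
  have h4 : (q - 1) ^ r * 2 ^ m ≤ q ^ r := by
    rw [hr, pow_mul, pow_mul, ← mul_pow]
    exact Nat.pow_le_pow_left (two_mul_pred_pow q hq) m
  have ht : t = (t - 1) + 1 := by
    have := i.2
    omega
  calc (q - 1) ^ r * (q ^ r) ^ (t - 1) * 2 ^ m = ((q - 1) ^ r * 2 ^ m) * (q ^ r) ^ (t - 1) := by ring
    _ ≤ q ^ r * (q ^ r) ^ (t - 1) := Nat.mul_le_mul_right _ h4
    _ = q ^ (t * r) := by
        rw [← pow_succ', ← ht, ← pow_mul, mul_comm]

/-- The number of functions whose graph contains a given set. -/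
lemma card_contain (T : Finset ((Fin t × Fin r) × Fin q)) :
    ((univ : Finset (Fin t × Fin r → Fin q)).filter (fun f => T ⊆ gr f)).card * q ^ T.card ≤
      q ^ (t * r) := by
  classical
  by_cases hex : ∃ f₀ : Fin t × Fin r → Fin q, T ⊆ gr f₀
  · obtain ⟨f₀, hf₀⟩ := hex
    have hpl : (T.image Prod.fst).card = T.card := by
      rw [Finset.card_image_iff]
      rintro ⟨x, v⟩ hx ⟨y, w⟩ hy hxy
      have h1 := mem_gr.1 (hf₀ hx)
      have h2 := mem_gr.1 (hf₀ hy)
      simp only at hxy
      subst hxy
      rw [← h1, ← h2]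
    have h1 : (univ : Finset (Fin t × Fin r → Fin q)).filter (fun f => T ⊆ gr f) ⊆
        Fintype.piFinset (fun x : Fin t × Fin r =>
          if x ∈ T.image Prod.fst then {f₀ x} else univ) := by
      intro f hf
      simp only [Finset.mem_filter, Finset.mem_univ, true_and] at hf
      rw [Fintype.mem_piFinset]
      intro x
      by_cases hx : x ∈ T.image Prod.fst
      · rw [if_pos hx, Finset.mem_singleton]
        obtain ⟨⟨y, v⟩, hy, rfl⟩ := Finset.mem_image.1 hx
        have h2 := mem_gr.1 (hf hy)
        have h3 := mem_gr.1 (hf₀ hy)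
        simp only
        rw [h2, h3]
      · rw [if_neg hx]
        exact Finset.mem_univ _
    have h2 : (Fintype.piFinset (fun x : Fin t × Fin r =>
        if x ∈ T.image Prod.fst then {f₀ x} else (univ : Finset (Fin q)))).card =
          q ^ (t * r - T.card) := by
      rw [Fintype.card_piFinset]
      have h3 : ∀ x : Fin t × Fin r,
          (if x ∈ T.image Prod.fst then {f₀ x} else (univ : Finset (Fin q))).card =
            if x ∈ T.image Prod.fst then 1 else q := by
        intro x
        split_ifs <;> simp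
      rw [Finset.prod_congr rfl (fun x _ => h3 x), Finset.prod_ite, Finset.prod_const_one, one_mul,
        Finset.prod_const]
      congr 1
      have h4 : (univ.filter (fun x => ¬ x ∈ T.image Prod.fst)) = (T.image Prod.fst)ᶜ := by
        ext x
        simp
      rw [h4, Finset.card_compl, hpl, Fintype.card_prod, Fintype.card_fin, Fintype.card_fin]
    have h5 : T.card ≤ t * r := by
      rw [← card_gr f₀]
      exact Finset.card_le_card hf₀
    calc ((univ : Finset (Fin t × Fin r → Fin q)).filter (fun f => T ⊆ gr f)).card * q ^ T.card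
        ≤ q ^ (t * r - T.card) * q ^ T.card := by
          apply Nat.mul_le_mul_right
          rw [← h2]
          exact Finset.card_le_card h1
      _ = q ^ (t * r) := by rw [← pow_add]; congr 1; omega
  · push Not at hex
    rw [Finset.filter_false_of_mem (fun f _ => hex f)]
    simp

/-- The potential. -/
noncomputable def pot (L : List (Fin t × Fin r → Fin q)) : ℝ := by
  classical
  exact ∑ T ∈ (univ : Finset ((Fin t × Fin r) × Fin q)).powersetCard t,
    (2 : ℝ) ^ (L.countP (fun f => decide (T ⊆ gr f)))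

lemma pot_nonneg (L : List (Fin t × Fin r → Fin q)) : 0 ≤ pot L := by
  unfold pot
  exact Finset.sum_nonneg fun _ _ => by positivity

lemma pot_cons_sub (L : List (Fin t × Fin r → Fin q)) (f : Fin t × Fin r → Fin q) :
    pot (f :: L) - pot L = ∑ T ∈ (univ : Finset ((Fin t × Fin r) × Fin q)).powersetCard t,
      if T ⊆ gr f then (2 : ℝ) ^ (L.countP (fun f => decide (T ⊆ gr f))) else 0 := by
  classical
  unfold pot
  rw [← Finset.sum_sub_distrib]
  refine Finset.sum_congr rfl fun T _ => ?_
  rw [List.countP_cons]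
  by_cases h : T ⊆ gr f
  · simp only [h, decide_true, if_true]
    rw [pow_succ]
    ring
  · simp [h]

/-- Averaging over all functions. -/
lemma sum_pot (L : List (Fin t × Fin r → Fin q)) :
    (∑ f : Fin t × Fin r → Fin q, (pot (f :: L) - pot L)) * (q : ℝ) ^ t ≤
      (q : ℝ) ^ (t * r) * pot L := by
  classical
  have h1 : ∑ f : Fin t × Fin r → Fin q, (pot (f :: L) - pot L) =
      ∑ T ∈ (univ : Finset ((Fin t × Fin r) × Fin q)).powersetCard t,
        (2 : ℝ) ^ (L.countP (fun f => decide (T ⊆ gr f))) *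
          ((univ : Finset (Fin t × Fin r → Fin q)).filter (fun f => T ⊆ gr f)).card := by
    rw [Finset.sum_congr rfl (fun f _ => pot_cons_sub L f), Finset.sum_comm]
    refine Finset.sum_congr rfl fun T _ => ?_
    rw [← Finset.sum_filter, Finset.sum_const, nsmul_eq_mul, mul_comm]
  rw [h1, Finset.sum_mul]
  unfold pot
  rw [Finset.mul_sum]
  refine Finset.sum_le_sum fun T hT => ?_
  have hTc : T.card = t := (Finset.mem_powersetCard.1 hT).2
  have h2 := card_contain T
  rw [hTc] at h2
  have h3 : (((univ : Finset (Fin t × Fin r → Fin q)).filter (fun f => T ⊆ gr f)).card : ℝ) *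
      (q : ℝ) ^ t ≤ (q : ℝ) ^ (t * r) := by exact_mod_cast h2
  have h4 : (0 : ℝ) ≤ (2 : ℝ) ^ (L.countP (fun f => decide (T ⊆ gr f))) := by positivity
  nlinarith

/-- One greedy step. -/
lemma greedy_step (m : ℕ) (hq : 1 ≤ q) (hr : r = q * m) (L : List (Fin t × Fin r → Fin q))
    (hL : 2 * (L.length * t) ≤ 2 ^ m) :
    ∃ f : Fin t × Fin r → Fin q, (∀ g ∈ L, Compat f g) ∧
      pot (f :: L) ≤ pot L * (1 + 2 / (q : ℝ) ^ t) := by
  classical
  by_contra hcon
  push Not at hcon
  set G : Finset (Fin t × Fin r → Fin q) := univ.filter (fun f => ∀ g ∈ L, Compat f g) with hG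
  -- the complement of `G` is small
  have htot : Fintype.card (Fin t × Fin r → Fin q) = q ^ (t * r) := by
    simp
  have hbad : Gᶜ.card * 2 ^ m ≤ (L.length * t) * q ^ (t * r) := by
    have hsub : Gᶜ ⊆ L.toFinset.biUnion (fun g => univ.biUnion (fun i : Fin t =>
        univ.filter (fun f : Fin t × Fin r → Fin q => ∀ j, f (i, j) ≠ g (i, j)))) := by
      intro f hf
      rw [hG, Finset.mem_compl, Finset.mem_filter] at hf
      simp only [Finset.mem_univ, true_and, not_forall, Compat, not_exists] at hf
      obtain ⟨g, hg, i, hi⟩ := hf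
      simp only [Finset.mem_biUnion, List.mem_toFinset, Finset.mem_univ, true_and,
        Finset.mem_filter]
      exact ⟨g, hg, i, hi⟩
    calc Gᶜ.card * 2 ^ m
        ≤ (∑ g ∈ L.toFinset, ∑ i : Fin t,
          (univ.filter (fun f : Fin t × Fin r → Fin q => ∀ j, f (i, j) ≠ g (i, j))).card) *
            2 ^ m := by
          apply Nat.mul_le_mul_right
          refine (Finset.card_le_card hsub).trans (Finset.card_biUnion_le.trans ?_)
          exact Finset.sum_le_sum fun g _ => Finset.card_biUnion_le
      _ = ∑ g ∈ L.toFinset, ∑ i : Fin t,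
          (univ.filter (fun f : Fin t × Fin r → Fin q => ∀ j, f (i, j) ≠ g (i, j))).card *
            2 ^ m := by
          rw [Finset.sum_mul]
          exact Finset.sum_congr rfl fun g _ => Finset.sum_mul _ _ _
      _ ≤ ∑ _g ∈ L.toFinset, ∑ _i : Fin t, q ^ (t * r) :=
          Finset.sum_le_sum fun g _ => Finset.sum_le_sum fun i _ => card_disagree g i m hq hr
      _ = (L.toFinset.card * t) * q ^ (t * r) := by
          simp [mul_assoc]
      _ ≤ (L.length * t) * q ^ (t * r) := by
          apply Nat.mul_le_mul_right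
          exact Nat.mul_le_mul_right _ (List.toFinset_card_le L)
  have hGc : q ^ (t * r) ≤ 2 * G.card := by
    have h1 : G.card + Gᶜ.card = q ^ (t * r) := by
      rw [Finset.card_add_card_compl, htot]
    have h2 : 2 * Gᶜ.card ≤ q ^ (t * r) := by
      have h3 : (2 * Gᶜ.card) * 2 ^ m ≤ q ^ (t * r) * 2 ^ m := by
        calc (2 * Gᶜ.card) * 2 ^ m = 2 * (Gᶜ.card * 2 ^ m) := by ring
          _ ≤ 2 * ((L.length * t) * q ^ (t * r)) := Nat.mul_le_mul_left _ hbad
          _ = (2 * (L.length * t)) * q ^ (t * r) := by ring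
          _ ≤ 2 ^ m * q ^ (t * r) := Nat.mul_le_mul_right _ hL
          _ = q ^ (t * r) * 2 ^ m := by ring
      exact Nat.le_of_mul_le_mul_right h3 (by positivity)
    omega
  have hqpos : (0 : ℝ) < (q : ℝ) ^ t := by
    have : (0 : ℝ) < (q : ℝ) := by exact_mod_cast hq
    positivity
  have hQpos : 0 < q ^ (t * r) := Nat.pow_pos hq
  have hGpos : 0 < G.card := by omega
  -- contradiction by averaging
  have h1 : ∑ f ∈ G, (pot L * (2 / (q : ℝ) ^ t)) < ∑ f ∈ G, (pot (f :: L) - pot L) := by
    refine Finset.sum_lt_sum_of_nonempty (Finset.card_pos.1 hGpos) fun f hf => ?_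
    have := hcon f (by rw [hG, Finset.mem_filter] at hf; exact hf.2)
    linarith
  have h2 : ∑ f ∈ G, (pot (f :: L) - pot L) ≤
      ∑ f : Fin t × Fin r → Fin q, (pot (f :: L) - pot L) := by
    refine Finset.sum_le_sum_of_subset_of_nonneg (Finset.subset_univ _) fun f _ _ => ?_
    rw [pot_cons_sub]
    refine Finset.sum_nonneg fun T _ => ?_
    split_ifs
    · positivity
    · exact le_rfl
  have h3 := sum_pot L
  rw [Finset.sum_const, nsmul_eq_mul] at h1
  have h4 : (G.card : ℝ) * (pot L * (2 / (q : ℝ) ^ t)) * (q : ℝ) ^ t <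
      (q : ℝ) ^ (t * r) * pot L := by
    refine lt_of_lt_of_le ?_ h3
    exact mul_lt_mul_of_pos_right (h1.trans_le h2) hqpos
  have h5 : (G.card : ℝ) * (pot L * (2 / (q : ℝ) ^ t)) * (q : ℝ) ^ t = 2 * G.card * pot L := by
    field_simp
  rw [h5] at h4
  have h6 : (q : ℝ) ^ (t * r) ≤ 2 * G.card := by exact_mod_cast hGc
  have h7 := pot_nonneg L
  nlinarith

/-- The greedy list. -/
lemma greedy_list (m : ℕ) (hq : 1 ≤ q) (hr : r = q * m) (N : ℕ) (hN : 2 * (N * t) ≤ 2 ^ m) :
    ∃ L : List (Fin t × Fin r → Fin q), L.length = N ∧ L.Pairwise Compat ∧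
      pot L ≤ pot ([] : List (Fin t × Fin r → Fin q)) * (1 + 2 / (q : ℝ) ^ t) ^ N := by
  induction N with
  | zero => exact ⟨[], rfl, List.Pairwise.nil, by simp⟩
  | succ N ih =>
    obtain ⟨L, hL1, hL2, hL3⟩ := ih (le_trans (by nlinarith) hN)
    obtain ⟨f, hf1, hf2⟩ := greedy_step m hq hr L (by
      rw [hL1]
      exact le_trans (by nlinarith) hN)
    refine ⟨f :: L, by simp [hL1], List.pairwise_cons.2 ⟨hf1, hL2⟩, hf2.trans ?_⟩
    rw [pow_succ, ← mul_assoc]
    refine mul_le_mul_of_nonneg_right hL3 ?_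
    positivity

end

end Pool.Agent.Hhelper47.StrongCol
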