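import Pool.Agent.Hhelper47.StrongCol.Growth1

/-!
The growth of the least admissible exponent for fixed `t`.
-/

set_option autoImplicit false

namespace Pool.Agent.Hhelper47.StrongCol

open Finset

lemma length_le_sum_countP {t r q : ℕ} (L : List (Fin t × Fin r → Fin q))
    (𝒮 : Finset (Finset ((Fin t × Fin r) × Fin q)))
    (h : ∀ f ∈ L, ∃ T ∈ 𝒮, T ⊆ gr f) :
    L.length ≤ ∑ T ∈ 𝒮, L.countP (fun f => decide (T ⊆ gr f)) := by
  classical
  induction L with
  | nil => simp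
  | cons f L ih =>
    have h1 := ih fun g hg => h g (List.mem_cons_of_mem _ hg)
    obtain ⟨T₀, hT₀, hT₀f⟩ := h f List.mem_cons_self
    have h2 : ∀ T, (f :: L).countP (fun f => decide (T ⊆ gr f)) =
        L.countP (fun f => decide (T ⊆ gr f)) + if T ⊆ gr f then 1 else 0 := by
      intro T
      rw [List.countP_cons]
      by_cases hT : T ⊆ gr f <;> simp [hT]
    rw [Finset.sum_congr rfl (fun T _ => h2 T), Finset.sum_add_distrib, List.length_cons]
    have h3 : 1 ≤ ∑ T ∈ 𝒮, if T ⊆ gr f then 1 else 0 := by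
      refine le_trans ?_ (Finset.single_le_sum (f := fun T => if T ⊆ gr f then 1 else 0)
        (fun _ _ => Nat.zero_le _) hT₀)
      simp [hT₀f]
    omega

lemma one_add_pow_le (M s : ℕ) (hM : 1 ≤ M) : (1 + 2 / (M : ℝ)) ^ (M * s) ≤ (8 : ℝ) ^ s := by
  have hMpos : (0 : ℝ) < M := by exact_mod_cast hM
  have h1 : 1 + 2 / (M : ℝ) ≤ Real.exp (2 / M) := by
    have := Real.add_one_le_exp (2 / (M : ℝ))
    linarith
  have h2 : (1 + 2 / (M : ℝ)) ^ (M * s) ≤ Real.exp (2 / M) ^ (M * s) :=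
    pow_le_pow_left₀ (by positivity) h1 _
  refine h2.trans ?_
  rw [pow_mul, ← Real.exp_nat_mul]
  refine pow_le_pow_left₀ (Real.exp_pos _).le ?_ _
  have h3 : (M : ℝ) * (2 / M) = 2 := by field_simp
  rw [h3]
  have h4 : Real.exp 2 = Real.exp 1 ^ 2 := by
    rw [← Real.exp_nat_mul]; norm_num
  rw [h4]
  have h5 := Real.exp_one_lt_d9
  have h6 := Real.exp_pos 1
  nlinarith

/-- The covering number of the greedy family is large. -/
theorem cover_lower {t s x : ℕ} (ht : 1 ≤ t) (hs : 1 ≤ s)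
    (h : CoverBound t (t * (2 ^ s * ((t + 1) * (s + 1)))) x) :
    2 ^ (t * s) ≤ (2 * t ^ 2 + 3 * t + 3) * x := by
  classical
  have ht2 : t + 1 ≤ 2 ^ t := Nat.lt_two_pow_self
  have hs2 : s + 1 ≤ 2 ^ s := Nat.lt_two_pow_self
  have hq : 1 ≤ 2 ^ s := Nat.one_le_two_pow
  obtain ⟨r, hr⟩ : ∃ r, r = 2 ^ s * ((t + 1) * (s + 1)) := ⟨_, rfl⟩
  rw [← hr] at h
  obtain ⟨L, hL1, hL2, hL3⟩ := greedy_list (t := t) (r := r) (q := 2 ^ s)
    ((t + 1) * (s + 1)) hq hr (2 ^ (t * s) * s) (by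
      calc 2 * (2 ^ (t * s) * s * t) ≤ 2 * (2 ^ (t * s) * 2 ^ s * 2 ^ t) := by
            gcongr <;> omega
        _ = 2 ^ ((t + 1) * (s + 1)) := by
            rw [show (t + 1) * (s + 1) = 1 + (t * s + s + t) by ring, pow_add, pow_add, pow_add]
            ring)
  have hrpos : 0 < r := by
    rw [hr]; positivity
  have hcompat : ∀ f ∈ L, ∀ g ∈ L, Compat f g := by
    have hsymm : Std.Symm (Compat (t := t) (r := r) (q := 2 ^ s)) := by
      refine ⟨fun a b hab i => ?_⟩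
      obtain ⟨j, hj⟩ := hab i
      exact ⟨j, hj.symm⟩
    intro f hf g hg
    refine hL2.forall_of_forall ?_ hf hg
    intro a _ i
    exact ⟨⟨0, hrpos⟩, rfl⟩
  obtain ⟨𝒮, h𝒮x, h𝒮t, h𝒮⟩ := h ((Fin t × Fin r) × Fin (2 ^ s)) (L.map gr).toFinset
    (by
      intro A hA B hB
      simp only [List.mem_toFinset, List.mem_map] at hA hB
      obtain ⟨f, hf, rfl⟩ := hA
      obtain ⟨g, hg, rfl⟩ := hB
      exact (hcompat f hf g hg).inter)
    (by
      intro A hA
      simp only [List.mem_toFinset, List.mem_map] at hA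
      obtain ⟨f, -, rfl⟩ := hA
      rw [card_gr])
  have hlen := length_le_sum_countP L 𝒮 (by
    intro f hf
    exact h𝒮 (gr f) (by simp only [List.mem_toFinset, List.mem_map]; exact ⟨f, hf, rfl⟩))
  rw [hL1] at hlen
  -- the degree bound
  have hdeg : ∀ T ∈ 𝒮, L.countP (fun f => decide (T ⊆ gr f)) ≤ (2 * t ^ 2 + 3 * t + 3) * s := by
    intro T hT
    have hTc := h𝒮t T hT
    have h1 : (2 : ℝ) ^ (L.countP (fun f => decide (T ⊆ gr f))) ≤ pot L := by
      unfold pot
      exact Finset.single_le_sum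
        (f := fun T : Finset ((Fin t × Fin r) × Fin (2 ^ s)) =>
          (2 : ℝ) ^ (L.countP (fun f => decide (T ⊆ gr f))))
        (fun _ _ => by positivity)
        (Finset.mem_powersetCard.2 ⟨Finset.subset_univ _, hTc⟩)
    have h2 : pot ([] : List (Fin t × Fin r → Fin (2 ^ s))) ≤ (2 : ℝ) ^ (t * (2 * t + 3 * s)) := by
      unfold pot
      simp only [List.countP_nil, pow_zero, Finset.sum_const, nsmul_eq_mul, mul_one,
        Finset.card_powersetCard, Finset.card_univ, Fintype.card_prod, Fintype.card_fin]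
      have h3 : (t * r * 2 ^ s).choose t ≤ 2 ^ (t * (2 * t + 3 * s)) := by
        calc (t * r * 2 ^ s).choose t ≤ (t * r * 2 ^ s) ^ t := Nat.choose_le_pow _ _
          _ ≤ (2 ^ (2 * t + 3 * s)) ^ t := by
              apply Nat.pow_le_pow_left
              calc t * r * 2 ^ s = t * (2 ^ s * ((t + 1) * (s + 1))) * 2 ^ s := by rw [hr]
                _ ≤ 2 ^ t * (2 ^ s * (2 ^ t * 2 ^ s)) * 2 ^ s := by
                    gcongr
                    omega
                _ = 2 ^ (2 * t + 3 * s) := by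
                    rw [show 2 * t + 3 * s = t + t + (s + s + s) by ring, pow_add, pow_add,
                      pow_add, pow_add]
                    ring
          _ = 2 ^ (t * (2 * t + 3 * s)) := by rw [← pow_mul, mul_comm]
      exact_mod_cast h3
    have h4 : (1 + 2 / (((2 ^ s : ℕ) : ℝ)) ^ t) ^ (2 ^ (t * s) * s) ≤ (8 : ℝ) ^ s := by
      have h5 := one_add_pow_le (2 ^ (t * s)) s Nat.one_le_two_pow
      have h6 : (((2 ^ s : ℕ) : ℝ)) ^ t = ((2 ^ (t * s) : ℕ) : ℝ) := by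
        push_cast
        rw [← pow_mul, mul_comm]
      rw [h6]
      exact h5
    have h7 : (2 : ℝ) ^ (L.countP (fun f => decide (T ⊆ gr f))) ≤
        (2 : ℝ) ^ ((2 * t ^ 2 + 3 * t + 3) * s) := by
      calc (2 : ℝ) ^ (L.countP (fun f => decide (T ⊆ gr f))) ≤ pot L := h1
        _ ≤ _ := hL3
        _ ≤ (2 : ℝ) ^ (t * (2 * t + 3 * s)) * (8 : ℝ) ^ s := by
            apply mul_le_mul h2 h4 (by positivity) (by positivity)
        _ = (2 : ℝ) ^ (t * (2 * t + 3 * s) + 3 * s) := by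
            rw [pow_add, pow_mul (2 : ℝ) 3 s]
            norm_num
        _ ≤ (2 : ℝ) ^ ((2 * t ^ 2 + 3 * t + 3) * s) := by
            apply pow_le_pow_right₀ (by norm_num)
            nlinarith [Nat.mul_le_mul_left (2 * t ^ 2) hs]
    exact (pow_le_pow_iff_right₀ (by norm_num : (1 : ℝ) < 2)).1 h7
  have h8 : 2 ^ (t * s) * s ≤ ((2 * t ^ 2 + 3 * t + 3) * x) * s := by
    calc 2 ^ (t * s) * s ≤ ∑ T ∈ 𝒮, L.countP (fun f => decide (T ⊆ gr f)) := hlen
      _ ≤ ∑ _T ∈ 𝒮, (2 * t ^ 2 + 3 * t + 3) * s := Finset.sum_le_sum hdeg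
      _ = 𝒮.card * ((2 * t ^ 2 + 3 * t + 3) * s) := by rw [Finset.sum_const, smul_eq_mul]
      _ ≤ x * ((2 * t ^ 2 + 3 * t + 3) * s) := Nat.mul_le_mul_right _ h𝒮x
      _ = ((2 * t ^ 2 + 3 * t + 3) * x) * s := by ring
  exact Nat.le_of_mul_le_mul_right h8 (by omega)

lemma CoverBound.mono {t k k' x : ℕ} (hk : k' ≤ k) (h : CoverBound t k x) : CoverBound t k' x :=
  fun V _ _ F hF hFc => h V F hF fun A hA => (hFc A hA).trans hk

lemma one_le_of_coverBound {t k x : ℕ} (hk : t ≤ k) (h : CoverBound t k x) : 1 ≤ x := by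
  classical
  obtain ⟨𝒮, h𝒮x, -, h𝒮⟩ := h (Fin t) {univ} (by
      intro A hA B hB
      rw [Finset.mem_singleton] at hA hB
      subst hA; subst hB
      simp)
    (by
      intro A hA
      rw [Finset.mem_singleton] at hA
      subst hA
      simpa using hk)
  obtain ⟨S, hS, -⟩ := h𝒮 univ (by simp)
  have := Finset.card_pos.2 ⟨S, hS⟩
  omega

/-- **Growth of the exponent for fixed `t`.** -/
theorem growth (t : ℕ) (ht : 1 ≤ t) : ∃ c : ℝ, 0 < c ∧ ∀ ℓ x : ℕ, 2 ≤ ℓ → Exponent t ℓ x →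
    c * ((ℓ : ℝ) / Real.log ℓ) ^ t ≤ x := by
  set D : ℝ := 6 * (t * (t + 1)) with hD
  set ct : ℝ := 2 * t ^ 2 + 3 * t + 3 with hct
  have ht' : (1 : ℝ) ≤ t := by exact_mod_cast ht
  have hDpos : 12 ≤ D := by rw [hD]; nlinarith
  have hctpos : 1 ≤ ct := by rw [hct]; nlinarith
  refine ⟨((2 * D) ^ t)⁻¹ * ct⁻¹, by positivity, fun ℓ x hℓ hx => ?_⟩
  have hcov := coverBound_of_exponent ht (by omega) hx
  have hx1 : 1 ≤ x := one_le_of_coverBound (by omega) hcov
  have hℓ' : (2 : ℝ) ≤ ℓ := by exact_mod_cast hℓ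
  have hlog2 : (0.69 : ℝ) < Real.log 2 := by
    have := Real.log_two_gt_d9
    linarith
  have hlogle : Real.log 2 ≤ Real.log ℓ := Real.log_le_log (by norm_num) hℓ'
  have hlogpos : 0 < Real.log ℓ := by linarith
  set y : ℝ := ℓ / (D * Real.log ℓ) with hy
  have hℓy : (ℓ : ℝ) / Real.log ℓ = D * y := by
    rw [hy]; field_simp
  have hy0 : 0 ≤ y := by positivity
  rw [hℓy]
  by_cases hy2 : y < 2
  · -- trivial range
    have h1 : (D * y) ^ t ≤ (2 * D) ^ t := pow_le_pow_left₀ (by positivity) (by nlinarith) _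
    have h2 : ((2 * D) ^ t)⁻¹ * ct⁻¹ * (D * y) ^ t ≤ 1 := by
      have h3 : 0 < (2 * D) ^ t := by positivity
      calc ((2 * D) ^ t)⁻¹ * ct⁻¹ * (D * y) ^ t ≤ ((2 * D) ^ t)⁻¹ * ct⁻¹ * (2 * D) ^ t := by
            apply mul_le_mul_of_nonneg_left h1; positivity
        _ = ct⁻¹ := by field_simp
        _ ≤ 1 := inv_le_one_of_one_le₀ hctpos
    refine h2.trans ?_
    exact_mod_cast hx1
  · push Not at hy2
    -- choose `s`
    set n : ℕ := ⌊y⌋₊ with hn
    have hn2 : 2 ≤ n := Nat.le_floor (by exact_mod_cast hy2)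
    set s : ℕ := Nat.log 2 n with hs
    have hs1 : 1 ≤ s := by
      rw [hs]
      exact Nat.log_pos (by norm_num) hn2
    have hsn : 2 ^ s ≤ n := Nat.pow_log_le_self 2 (by omega)
    have hns : n < 2 ^ (s + 1) := Nat.lt_pow_succ_log_self (by norm_num) n
    have hny : (n : ℝ) ≤ y := Nat.floor_le hy0
    have hyn : y < n + 1 := Nat.lt_floor_add_one y
    have hsy : (2 : ℝ) ^ s ≤ y := by
      have : ((2 ^ s : ℕ) : ℝ) ≤ n := by exact_mod_cast hsn
      push_cast at this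
      linarith
    have hys : y < 2 * (2 : ℝ) ^ s := by
      have h1 : ((n + 1 : ℕ) : ℝ) ≤ ((2 ^ (s + 1) : ℕ) : ℝ) := by exact_mod_cast hns
      push_cast at h1
      rw [pow_succ] at h1
      linarith
    -- `s + 1 ≤ 3 log ℓ`
    have hyℓ : y ≤ ℓ := by
      rw [hy, div_le_iff₀ (by positivity)]
      have : 1 ≤ D * Real.log ℓ := by nlinarith
      nlinarith
    have hslog : (s : ℝ) * Real.log 2 ≤ Real.log ℓ := by
      rw [← Real.log_pow]
      exact Real.log_le_log (by positivity) (hsy.trans hyℓ)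
    have hs3 : (s : ℝ) + 1 ≤ 3 * Real.log ℓ := by
      have h1 : ((s : ℝ) + 1) * Real.log 2 ≤ 2 * Real.log ℓ := by linarith
      have h2 : ((s : ℝ) + 1) * 0.69 ≤ 2 * Real.log ℓ := by
        have : (0 : ℝ) ≤ (s : ℝ) + 1 := by positivity
        nlinarith
      nlinarith
    -- the size of the sets
    have hsize : t * (2 ^ s * ((t + 1) * (s + 1))) ≤ t + ℓ - 2 := by
      have h1 : ((t * (2 ^ s * ((t + 1) * (s + 1))) : ℕ) : ℝ) ≤ (ℓ : ℝ) / 2 := by
        push_cast
        have h2 : (t : ℝ) * (2 ^ s * ((t + 1) * (s + 1))) ≤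
            (t : ℝ) * (y * ((t + 1) * (3 * Real.log ℓ))) := by
          gcongr
        refine h2.trans (le_of_eq ?_)
        rw [hy, hD]
        field_simp
        ring
      have h3 : ((t * (2 ^ s * ((t + 1) * (s + 1))) : ℕ) : ℝ) ≤ ((ℓ - 1 : ℕ) : ℝ) := by
        rw [Nat.cast_sub (by omega)]
        push_cast at h1 ⊢
        linarith
      have h4 : t * (2 ^ s * ((t + 1) * (s + 1))) ≤ ℓ - 1 := by exact_mod_cast h3
      omega
    have hmain := cover_lower ht hs1 (hcov.mono hsize)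
    have hmain' : (2 : ℝ) ^ (t * s) ≤ ct * x := by
      rw [hct]
      exact_mod_cast hmain
    have h1 : (D * y) ^ t ≤ (2 * D) ^ t * (2 : ℝ) ^ (t * s) := by
      calc (D * y) ^ t ≤ (D * (2 * (2 : ℝ) ^ s)) ^ t := by
            apply pow_le_pow_left₀ (by positivity)
            nlinarith
        _ = (2 * D) ^ t * (2 : ℝ) ^ (t * s) := by
            rw [show D * (2 * (2 : ℝ) ^ s) = (2 * D) * (2 : ℝ) ^ s by ring, mul_pow, ← pow_mul,
              mul_comm s t]
    calc ((2 * D) ^ t)⁻¹ * ct⁻¹ * (D * y) ^ t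
        ≤ ((2 * D) ^ t)⁻¹ * ct⁻¹ * ((2 * D) ^ t * (2 : ℝ) ^ (t * s)) := by
          apply mul_le_mul_of_nonneg_left h1; positivity
      _ = ct⁻¹ * (2 : ℝ) ^ (t * s) := by
          have : (2 * D) ^ t ≠ 0 := by positivity
          field_simp
      _ ≤ ct⁻¹ * (ct * x) := by
          apply mul_le_mul_of_nonneg_left hmain'; positivity
      _ = x := by
          have : ct ≠ 0 := by positivity
          field_simp

end Pool.Agent.Hhelper47.StrongCol
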