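import Pool.Agent.Hhelper47.StrongCol.Values

/-!
For `t` large with respect to `m = ℓ - 2` the covering function of `t`-intersecting families of
sets of size at most `t + m` is the covering number `C(t + 2m, 2m, m)`.
-/

set_option autoImplicit false

namespace Pool.Agent.Hhelper47.StrongCol

open Finset

/-- `𝒦` is a covering of the `s`-subsets of a `v`-set by `κ`-subsets. -/
def IsCovering (v κ s : ℕ) (𝒦 : Finset (Finset (Fin v))) : Prop :=
  (∀ K ∈ 𝒦, K.card = κ) ∧ ∀ S : Finset (Fin v), S.card = s → ∃ K ∈ 𝒦, S ⊆ K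

/-- The covering number `C(v, κ, s)`: the least number of `κ`-subsets of a `v`-set such that every
`s`-subset of the `v`-set is contained in one of them. -/
noncomputable def coveringNumber (v κ s : ℕ) : ℕ :=
  sInf {n : ℕ | ∃ 𝒦 : Finset (Finset (Fin v)), 𝒦.card = n ∧ IsCovering v κ s 𝒦}

lemma covering_nonempty {v κ s : ℕ} (h1 : s ≤ κ) (h2 : κ ≤ v) :
    {n : ℕ | ∃ 𝒦 : Finset (Finset (Fin v)), 𝒦.card = n ∧ IsCovering v κ s 𝒦}.Nonempty := by
  classical
  refine ⟨_, (univ : Finset (Fin v)).powersetCard κ, rfl, ?_, ?_⟩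
  · intro K hK
    exact (Finset.mem_powersetCard.1 hK).2
  · intro S hS
    obtain ⟨K, hSK, -, hK⟩ := Finset.exists_subsuperset_card_eq (Finset.subset_univ S)
      (show S.card ≤ κ by omega) (by rw [Finset.card_univ, Fintype.card_fin]; exact h2)
    exact ⟨K, Finset.mem_powersetCard.2 ⟨Finset.subset_univ _, hK⟩, hSK⟩

lemma exists_covering {v κ s : ℕ} (h1 : s ≤ κ) (h2 : κ ≤ v) :
    ∃ 𝒦 : Finset (Finset (Fin v)), 𝒦.card = coveringNumber v κ s ∧ IsCovering v κ s 𝒦 :=
  Nat.sInf_mem (covering_nonempty h1 h2)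

lemma coveringNumber_le {v κ s : ℕ} {𝒦 : Finset (Finset (Fin v))} (h : IsCovering v κ s 𝒦) :
    coveringNumber v κ s ≤ 𝒦.card :=
  Nat.sInf_le ⟨𝒦, rfl, h⟩

/-- double counting -/
lemma choose_le_covering {v κ s : ℕ} (h1 : s ≤ κ) (h2 : κ ≤ v) :
    v.choose s ≤ coveringNumber v κ s * κ.choose s := by
  classical
  obtain ⟨𝒦, hc, hK, hcov⟩ := exists_covering h1 h2
  have hsub : (univ : Finset (Fin v)).powersetCard s ⊆
      𝒦.biUnion (fun K => K.powersetCard s) := by
    intro S hS
    rw [Finset.mem_powersetCard] at hS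
    obtain ⟨K, hK1, hSK⟩ := hcov S hS.2
    exact Finset.mem_biUnion.2 ⟨K, hK1, Finset.mem_powersetCard.2 ⟨hSK, hS.2⟩⟩
  have h3 := (Finset.card_le_card hsub).trans
    (Finset.card_biUnion_le_card_mul 𝒦 _ (κ.choose s) (fun K hK1 => by
      rw [Finset.card_powersetCard, hK K hK1]))
  rw [Finset.card_powersetCard, Finset.card_univ, Fintype.card_fin, hc] at h3
  exact h3

/-- The complete family: lower bound. -/
lemma covering_le_of_coverBound {t m x : ℕ} (h : CoverBound t (t + m) x) :
    coveringNumber (t + 2 * m) (2 * m) m ≤ x := by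
  classical
  obtain ⟨𝒮, h𝒮x, h𝒮t, h𝒮⟩ := h (Fin (t + 2 * m))
    ((univ : Finset (Fin (t + 2 * m))).powersetCard (t + m))
    (by
      intro A hA B hB
      rw [Finset.mem_powersetCard] at hA hB
      have h1 := Finset.card_union_add_card_inter A B
      have h2 := Finset.card_le_univ (A ∪ B)
      rw [Fintype.card_fin] at h2
      omega)
    (by
      intro A hA
      rw [Finset.mem_powersetCard] at hA
      omega)
  refine (coveringNumber_le (𝒦 := 𝒮.image (fun S => Sᶜ)) ⟨?_, ?_⟩).trans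
    (Finset.card_image_le.trans h𝒮x)
  · intro K hK
    obtain ⟨S, hS, rfl⟩ := Finset.mem_image.1 hK
    rw [Finset.card_compl, Fintype.card_fin, h𝒮t S hS]
    omega
  · intro S hS
    obtain ⟨T, hT, hTS⟩ := h𝒮 Sᶜ (Finset.mem_powersetCard.2 ⟨Finset.subset_univ _, by
      rw [Finset.card_compl, Fintype.card_fin, hS]; omega⟩)
    refine ⟨Tᶜ, Finset.mem_image.2 ⟨T, hT, rfl⟩, ?_⟩
    intro a ha
    rw [Finset.mem_compl]
    intro haT
    exact (Finset.mem_compl.1 (hTS haT)) ha

/-- A family of `(t+m)`-subsets of a `(t+2m)`-set has a `t`-cover of size `C(t+2m,2m,m)`. -/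
lemma cover_of_small_ground {V : Type} [Fintype V] [DecidableEq V] {t m : ℕ}
    (F : Finset (Finset V)) (Y : Finset V) (hY : Y.card = t + 2 * m)
    (hF : ∀ A ∈ F, A ⊆ Y ∧ A.card = t + m) :
    ∃ 𝒮 : Finset (Finset V), 𝒮.card ≤ coveringNumber (t + 2 * m) (2 * m) m ∧ IsTCover t F 𝒮 := by
  classical
  obtain ⟨𝒦, hc, hK, hcov⟩ := exists_covering (v := t + 2 * m) (κ := 2 * m) (s := m)
    (by omega) (by omega)
  let e : Fin (t + 2 * m) ≃ Y := (Fintype.equivOfCardEq (by
    rw [Fintype.card_fin, Fintype.card_coe, hY]))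
  let g : Fin (t + 2 * m) ↪ V := e.toEmbedding.trans (Function.Embedding.subtype _)
  have hgY : ∀ i, g i ∈ Y := fun i => (e i).2
  have hgmap : (univ : Finset (Fin (t + 2 * m))).map g = Y := by
    ext v
    rw [Finset.mem_map]
    constructor
    · rintro ⟨i, -, rfl⟩; exact hgY i
    · intro hv
      exact ⟨e.symm ⟨v, hv⟩, Finset.mem_univ _, by simp [g]⟩
  refine ⟨𝒦.image (fun K => Kᶜ.map g), Finset.card_image_le.trans hc.le, ?_, ?_⟩
  · intro S hS
    obtain ⟨K, hK1, rfl⟩ := Finset.mem_image.1 hS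
    rw [Finset.card_map, Finset.card_compl, Fintype.card_fin, hK K hK1]
    omega
  · intro A hA
    obtain ⟨hAY, hAc⟩ := hF A hA
    let S : Finset (Fin (t + 2 * m)) := univ.filter (fun i => g i ∉ A)
    have hSmap : S.map g = Y \ A := by
      ext v
      rw [Finset.mem_map, Finset.mem_sdiff, ← hgmap, Finset.mem_map]
      constructor
      · rintro ⟨i, hi, rfl⟩
        exact ⟨⟨i, Finset.mem_univ _, rfl⟩, (Finset.mem_filter.1 hi).2⟩
      · rintro ⟨⟨i, -, rfl⟩, hi⟩
        exact ⟨i, Finset.mem_filter.2 ⟨Finset.mem_univ _, hi⟩, rfl⟩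
    have hSc : S.card = m := by
      rw [← Finset.card_map g, hSmap, Finset.card_sdiff_of_subset hAY, hY, hAc]
      omega
    obtain ⟨K, hK1, hSK⟩ := hcov S hSc
    refine ⟨Kᶜ.map g, Finset.mem_image.2 ⟨K, hK1, rfl⟩, ?_⟩
    intro v hv
    obtain ⟨i, hi, rfl⟩ := Finset.mem_map.1 hv
    by_contra hvA
    exact (Finset.mem_compl.1 hi) (hSK (Finset.mem_filter.2 ⟨Finset.mem_univ _, hvA⟩))

/-- the key inequality -/
lemma key_ineq {V : Type} [DecidableEq V] {t m : ℕ} {F₀ A B : Finset V}
    (h0 : F₀.card = t + m) (hAB : t ≤ (A ∩ B).card) :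
    ((F₀ \ A) ∪ (F₀ \ B)).card ≤ m + ((A \ F₀) ∩ (B \ F₀)).card := by
  classical
  have h1 : (A ∩ B).card = ((A ∩ B) ∩ F₀).card + ((A ∩ B) \ F₀).card :=
    (Finset.card_inter_add_card_sdiff (A ∩ B) F₀).symm
  have h2 : (A \ F₀) ∩ (B \ F₀) = (A ∩ B) \ F₀ := by
    ext v; simp only [Finset.mem_inter, Finset.mem_sdiff]; tauto
  have h3 : (F₀ \ A) ∪ (F₀ \ B) = F₀ \ (A ∩ B) := by
    ext v; simp only [Finset.mem_inter, Finset.mem_sdiff, Finset.mem_union]; tauto
  have h4 : F₀.card = (F₀ ∩ (A ∩ B)).card + (F₀ \ (A ∩ B)).card :=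
    (Finset.card_inter_add_card_sdiff F₀ (A ∩ B)).symm
  rw [Finset.inter_comm] at h4
  rw [h2, h3]
  omega

lemma coverBound_of_covering {t m x : ℕ} (hm : 1 ≤ m)
    (hx1 : coveringNumber (t + 2 * m) (2 * m) m ≤ x)
    (hx2 : 2 * m * (t + m - 1).choose (m - 1) ≤ x) : CoverBound t (t + m) x := by
  classical
  intro V _ _ F hF hFc
  have hchoose : (t + m - 1).choose t = (t + m - 1).choose (m - 1) := by
    rw [← Nat.choose_symm (show t ≤ t + m - 1 by omega)]
    congr 1
    omega
  rcases F.eq_empty_or_nonempty with rfl | ⟨F₀, hF₀⟩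
  · exact ⟨∅, by simp, by simp, by simp⟩
  by_cases hsmall : ∃ A₀ ∈ F, A₀.card < t + m
  · obtain ⟨A₀, hA₀, hA₀c⟩ := hsmall
    refine ⟨A₀.powersetCard t, ?_, ?_, ?_⟩
    · rw [Finset.card_powersetCard]
      calc A₀.card.choose t ≤ (t + m - 1).choose t := Nat.choose_le_choose t (by omega)
        _ = 1 * (t + m - 1).choose (m - 1) := by rw [hchoose, one_mul]
        _ ≤ 2 * m * (t + m - 1).choose (m - 1) := Nat.mul_le_mul_right _ (by omega)
        _ ≤ x := hx2
    · intro S hS
      exact (Finset.mem_powersetCard.1 hS).2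
    · intro A hA
      obtain ⟨T, hT, hTc⟩ := Finset.exists_subset_card_eq (hF A₀ hA₀ A hA)
      exact ⟨T, Finset.mem_powersetCard.2 ⟨hT.trans Finset.inter_subset_left, hTc⟩,
        hT.trans Finset.inter_subset_right⟩
  push Not at hsmall
  have hcard : ∀ A ∈ F, A.card = t + m := fun A hA => le_antisymm (hFc A hA) (hsmall A hA)
  have h0 := hcard F₀ hF₀
  have hD : ∀ A ∈ F, (F₀ \ A).card ≤ m := by
    intro A hA
    have h1 := hF F₀ hF₀ A hA
    have h2 := Finset.card_inter_add_card_sdiff F₀ A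
    omega
  have hDE : ∀ A ∈ F, (F₀ \ A).card = (A \ F₀).card := by
    intro A hA
    have h1 := Finset.card_inter_add_card_sdiff F₀ A
    have h2 := Finset.card_inter_add_card_sdiff A F₀
    rw [Finset.inter_comm A F₀] at h2
    have h3 := hcard A hA
    omega
  by_cases hcase : ∃ G ∈ F, (F₀ \ G).card = m ∧
      ∀ X : Finset V, X.card ≤ m → ∃ A ∈ F, A \ F₀ = G \ F₀ ∧ Disjoint (F₀ \ A) X
  · -- the family lives on `t + 2m` points
    obtain ⟨G, hG, hGm, hGX⟩ := hcase
    have hGE : (G \ F₀).card = m := by rw [← hDE G hG]; exact hGm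
    have hYc : (F₀ ∪ (G \ F₀)).card = t + 2 * m := by
      rw [Finset.card_union_of_disjoint Finset.disjoint_sdiff, h0, hGE]
      omega
    obtain ⟨𝒮, h𝒮, h𝒮t⟩ := cover_of_small_ground F (F₀ ∪ (G \ F₀)) hYc (by
      intro B hB
      refine ⟨?_, hcard B hB⟩
      obtain ⟨A, hA, hAG, hdis⟩ := hGX (F₀ \ B) (hD B hB)
      have h1 := key_ineq (m := m) h0 (hF A hA B hB)
      rw [Finset.card_union_of_disjoint hdis, hDE A hA, hAG, hGE] at h1
      have h2 : (G \ F₀) ∩ (B \ F₀) = B \ F₀ := by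
        apply Finset.eq_of_subset_of_card_le Finset.inter_subset_right
        rw [← hDE B hB]
        omega
      intro v hv
      rw [Finset.mem_union]
      by_cases hv0 : v ∈ F₀
      · exact Or.inl hv0
      · right
        have h3 : v ∈ B \ F₀ := Finset.mem_sdiff.2 ⟨hv, hv0⟩
        rw [← h2] at h3
        exact (Finset.mem_inter.1 h3).1)
    exact ⟨𝒮, h𝒮.trans hx1, h𝒮t⟩
  · push Not at hcase
    -- a small set `Y ⊆ F₀` meeting all large differences
    obtain ⟨Y, hYF, hYne, hYc, hYA⟩ : ∃ Y : Finset V, Y ⊆ F₀ ∧ Y.Nonempty ∧ Y.card ≤ 2 * m ∧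
        ∀ A ∈ F, (F₀ \ A).card < m ∨ ∃ y ∈ Y, y ∉ A := by
      by_cases hex : ∃ G ∈ F, (F₀ \ G).card = m
      · obtain ⟨G, hG, hGm⟩ := hex
        obtain ⟨X, hXc, hX⟩ := hcase G hG hGm
        have hGE : (G \ F₀).card = m := by rw [← hDE G hG]; exact hGm
        refine ⟨((F₀ \ G) ∪ X) ∩ F₀, Finset.inter_subset_right, ?_, ?_, ?_⟩
        · obtain ⟨y, hy⟩ := Finset.card_pos.1 (show 0 < (F₀ \ G).card by omega)
          exact ⟨y, Finset.mem_inter.2 ⟨Finset.mem_union_left _ hy, (Finset.mem_sdiff.1 hy).1⟩⟩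
        · refine (Finset.card_le_card Finset.inter_subset_left).trans
            ((Finset.card_union_le _ _).trans ?_)
          omega
        · intro A hA
          by_cases hAm : (F₀ \ A).card < m
          · exact Or.inl hAm
          right
          have hAm' : (F₀ \ A).card = m := le_antisymm (hD A hA) (not_lt.1 hAm)
          by_cases hAG : A \ F₀ = G \ F₀
          · have h1 := hX A hA hAG
            rw [Finset.not_disjoint_iff] at h1
            obtain ⟨y, hy, hyX⟩ := h1
            rw [Finset.mem_sdiff] at hy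
            exact ⟨y, Finset.mem_inter.2 ⟨Finset.mem_union_right _ hyX, hy.1⟩, hy.2⟩
          · have h1 := key_ineq (m := m) h0 (hF A hA G hG)
            have h2 : ((A \ F₀) ∩ (G \ F₀)).card < m := by
              by_contra hge
              push Not at hge
              apply hAG
              have h3 : (A \ F₀) ∩ (G \ F₀) = A \ F₀ :=
                Finset.eq_of_subset_of_card_le Finset.inter_subset_left
                  (by rw [← hDE A hA, hAm']; exact hge)
              have h4 : (A \ F₀) ∩ (G \ F₀) = G \ F₀ :=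
                Finset.eq_of_subset_of_card_le Finset.inter_subset_right
                  (by rw [hGE]; exact hge)
              exact h3.symm.trans h4
            have h5 : ¬ Disjoint (F₀ \ A) (F₀ \ G) := by
              intro hdis
              rw [Finset.card_union_of_disjoint hdis, hAm', hGm] at h1
              omega
            rw [Finset.not_disjoint_iff] at h5
            obtain ⟨y, hy, hyG⟩ := h5
            rw [Finset.mem_sdiff] at hy
            exact ⟨y, Finset.mem_inter.2 ⟨Finset.mem_union_left _ hyG, hy.1⟩, hy.2⟩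
      · push Not at hex
        obtain ⟨y, hy⟩ := Finset.card_pos.1 (show 0 < F₀.card by omega)
        refine ⟨{y}, Finset.singleton_subset_iff.2 hy, Finset.singleton_nonempty y, ?_, ?_⟩
        · rw [Finset.card_singleton]; omega
        · intro A hA
          exact Or.inl (lt_of_le_of_ne (hD A hA) (hex A hA))
    refine ⟨Y.biUnion (fun y => (F₀.erase y).powersetCard t), ?_, ?_, ?_⟩
    · refine (Finset.card_biUnion_le_card_mul Y _ ((t + m - 1).choose (m - 1)) ?_).trans
        ((Nat.mul_le_mul_right _ hYc).trans hx2)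
      intro y hy
      rw [Finset.card_powersetCard, Finset.card_erase_of_mem (hYF hy), h0, hchoose]
    · intro S hS
      obtain ⟨y, -, hy⟩ := Finset.mem_biUnion.1 hS
      exact (Finset.mem_powersetCard.1 hy).2
    · intro A hA
      have hAF : (A ∩ F₀).card + (F₀ \ A).card = t + m := by
        rw [Finset.inter_comm, Finset.card_inter_add_card_sdiff, h0]
      rcases hYA A hA with hlt | ⟨y, hy, hyA⟩
      · obtain ⟨y, hy⟩ := hYne
        have h1 : t ≤ ((A ∩ F₀).erase y).card := by
          have := Finset.pred_card_le_card_erase (s := A ∩ F₀) (a := y)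
          omega
        obtain ⟨T, hT, hTc⟩ := Finset.exists_subset_card_eq h1
        refine ⟨T, Finset.mem_biUnion.2 ⟨y, hy, Finset.mem_powersetCard.2 ⟨?_, hTc⟩⟩, ?_⟩
        · exact hT.trans (Finset.erase_subset_erase y Finset.inter_subset_right)
        · exact hT.trans ((Finset.erase_subset _ _).trans Finset.inter_subset_left)
      · obtain ⟨T, hT, hTc⟩ := Finset.exists_subset_card_eq (hF A hA F₀ hF₀)
        refine ⟨T, Finset.mem_biUnion.2 ⟨y, hy, Finset.mem_powersetCard.2 ⟨?_, hTc⟩⟩,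
          hT.trans Finset.inter_subset_left⟩
        intro v hv
        have hv2 := Finset.mem_inter.1 (hT hv)
        exact Finset.mem_erase.2 ⟨fun h => hyA (h ▸ hv2.1), hv2.2⟩

/-- numerical comparison -/
lemma covering_large {t m : ℕ} (hm : 1 ≤ m) (h : 2 * m ^ 2 * (2 * m).choose m ≤ t + 2 * m) :
    2 * m * (t + m - 1).choose (m - 1) ≤ coveringNumber (t + 2 * m) (2 * m) m := by
  have h1 : (t + 2 * m).choose m ≤ coveringNumber (t + 2 * m) (2 * m) m * (2 * m).choose m :=
    choose_le_covering (by omega) (by omega)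
  have h2 : (t + 2 * m) * (t + 2 * m - 1).choose (m - 1) = (t + 2 * m).choose m * m := by
    obtain ⟨n, rfl⟩ : ∃ n, m = n + 1 := ⟨m - 1, by omega⟩
    have h5 := Nat.add_one_mul_choose_eq (t + 2 * (n + 1) - 1) n
    have e1 : t + 2 * (n + 1) - 1 + 1 = t + 2 * (n + 1) := by omega
    rw [e1] at h5
    exact h5
  have h3 : (t + m - 1).choose (m - 1) ≤ (t + 2 * m - 1).choose (m - 1) :=
    Nat.choose_le_choose _ (by omega)
  have hpos : 0 < (2 * m).choose m := Nat.choose_pos (by omega)
  -- multiply everything by `m * (2m choose m)`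
  have h4 : 2 * m * (t + m - 1).choose (m - 1) * ((2 * m).choose m * m) ≤
      coveringNumber (t + 2 * m) (2 * m) m * ((2 * m).choose m * m) := by
    calc 2 * m * (t + m - 1).choose (m - 1) * ((2 * m).choose m * m)
        = (2 * m ^ 2 * (2 * m).choose m) * (t + m - 1).choose (m - 1) := by ring
      _ ≤ (t + 2 * m) * (t + 2 * m - 1).choose (m - 1) := Nat.mul_le_mul h h3
      _ = (t + 2 * m).choose m * m := h2
      _ ≤ coveringNumber (t + 2 * m) (2 * m) m * (2 * m).choose m * m :=
          Nat.mul_le_mul_right _ h1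
      _ = coveringNumber (t + 2 * m) (2 * m) m * ((2 * m).choose m * m) := by ring
  exact Nat.le_of_mul_le_mul_right h4 (Nat.mul_pos hpos (by omega))

end Pool.Agent.Hhelper47.StrongCol
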