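import Pool.Agent.Hhelper47.StrongCol.LargeT

/-!
The exponent `x_{t,ℓ}` is the covering number `C(t + 2ℓ - 4, 2ℓ - 4, ℓ - 2)` for `t` large.
-/

set_option autoImplicit false

namespace Pool.Agent.Hhelper47.StrongCol

open Finset

lemma coverBound_iff_large {t m x : ℕ} (hm : 1 ≤ m)
    (h : 2 * m ^ 2 * (2 * m).choose m ≤ t + 2 * m) :
    CoverBound t (t + m) x ↔ coveringNumber (t + 2 * m) (2 * m) m ≤ x :=
  ⟨covering_le_of_coverBound, fun hx =>
    coverBound_of_covering hm hx ((covering_large hm h).trans hx)⟩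

/-- sets of size at most `t` -/
lemma coverBound_iff_zero {t x : ℕ} :
    CoverBound t (t + 0) x ↔ coveringNumber (t + 2 * 0) (2 * 0) 0 ≤ x := by
  classical
  refine ⟨covering_le_of_coverBound, fun hx => ?_⟩
  have h1 : 1 ≤ x := by
    have h2 := choose_le_covering (v := t + 2 * 0) (κ := 2 * 0) (s := 0) (by omega) (by omega)
    rw [Nat.choose_zero_right, Nat.choose_zero_right, mul_one] at h2
    exact h2.trans hx
  intro V _ _ F hF hFc
  rcases F.eq_empty_or_nonempty with rfl | ⟨A, hA⟩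
  · exact ⟨∅, by simp, by simp, by simp⟩
  · refine ⟨{A}, by rw [Finset.card_singleton]; exact h1, ?_, ?_⟩
    · intro S hS
      rw [Finset.mem_singleton] at hS
      subst hS
      have h2 := hF S hA S hA
      rw [Finset.inter_self] at h2
      have h3 := hFc S hA
      omega
    · intro B hB
      refine ⟨A, Finset.mem_singleton_self A, ?_⟩
      have h2 := hF A hA B hB
      have h3 := hFc A hA
      have h4 : A ∩ B = A := Finset.eq_of_subset_of_card_le Finset.inter_subset_left (by omega)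
      exact Finset.inter_eq_left.1 h4

/-- sets of size at most `t + 1` -/
lemma coverBound_iff_one {t x : ℕ} (ht : 1 ≤ t) :
    CoverBound t (t + 1) x ↔ coveringNumber (t + 2 * 1) (2 * 1) 1 ≤ x := by
  refine ⟨covering_le_of_coverBound, fun hx => ?_⟩
  apply coverBound_succ_of_le ht
  have h2 := choose_le_covering (v := t + 2 * 1) (κ := 2 * 1) (s := 1) (by omega) (by omega)
  rw [Nat.choose_one_right, Nat.choose_one_right] at h2
  omega

theorem isLeast_exponent {t ℓ : ℕ} (ht : 1 ≤ t) (hℓ : 2 ≤ ℓ)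
    (h : ℓ ≤ 3 ∨ 2 * (ℓ - 2) ^ 2 * (2 * ℓ - 4).choose (ℓ - 2) ≤ t + 2 * ℓ - 4) :
    IsLeast {x : ℕ | Exponent t ℓ x} (coveringNumber (t + 2 * ℓ - 4) (2 * ℓ - 4) (ℓ - 2)) := by
  obtain ⟨m, rfl⟩ : ∃ m, ℓ = m + 2 := ⟨ℓ - 2, by omega⟩
  have e1 : t + 2 * (m + 2) - 4 = t + 2 * m := by omega
  have e2 : 2 * (m + 2) - 4 = 2 * m := by omega
  have e3 : m + 2 - 2 = m := by omega
  rw [e1, e2, e3] at h ⊢
  have key : ∀ x, Exponent t (m + 2) x ↔ coveringNumber (t + 2 * m) (2 * m) m ≤ x := by
    intro x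
    rw [exponent_iff_coverBound ht (by omega : 1 ≤ m + 2)]
    have e4 : t + (m + 2) - 2 = t + m := by omega
    rw [e4]
    rcases Nat.lt_or_ge m 2 with hm | hm
    · interval_cases m
      · exact coverBound_iff_zero
      · exact coverBound_iff_one ht
    · refine coverBound_iff_large (by omega) ?_
      rcases h with h | h
      · omega
      · exact h
  exact ⟨(key _).2 le_rfl, fun x hx => (key x).1 hx⟩

end Pool.Agent.Hhelper47.StrongCol
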