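import Pool.Agent.Hhelper47.StrongCol.Upper3

/-!
The lower bound: a family without a small `t`-cover yields hypergraphs with large strong chromatic
number, by means of Reed-Solomon codes.
-/

set_option autoImplicit false

namespace Pool.Agent.Hhelper47.StrongCol

open Finset

/-- Evaluation of the polynomial with coefficients `y` at `a`. -/
def ev {p n : ℕ} (y : Fin n → ZMod p) (a : ZMod p) : ZMod p := ∑ i, y i * a ^ (i : ℕ)

lemma ev_agree {p n : ℕ} [Fact p.Prime] {y y' : Fin (n + 1) → ZMod p} (h : y ≠ y')
    (s : Finset (ZMod p)) (hs : ∀ a ∈ s, ev y a = ev y' a) : s.card ≤ n := by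
  classical
  let P : Polynomial (ZMod p) := ∑ i : Fin (n + 1), Polynomial.monomial (i : ℕ) (y i - y' i)
  have hcoeff : ∀ i : Fin (n + 1), P.coeff i = y i - y' i := by
    intro i
    simp only [P, Polynomial.finsetSum_coeff, Polynomial.coeff_monomial]
    rw [Finset.sum_eq_single i]
    · simp
    · intro j _ hj
      rw [if_neg]
      intro h
      exact hj (Fin.ext h)
    · simp
  have hP0 : P ≠ 0 := by
    intro h0
    apply h
    funext i
    have := hcoeff i
    rw [h0, Polynomial.coeff_zero] at this
    exact (sub_eq_zero.1 this.symm)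
  have hdeg : P.natDegree ≤ n := by
    refine Polynomial.natDegree_sum_le_of_forall_le _ _ fun i _ => ?_
    refine (Polynomial.natDegree_monomial_le _).trans ?_
    have := i.2
    omega
  have heval : ∀ a, P.eval a = ev y a - ev y' a := by
    intro a
    simp only [P, Polynomial.eval_finsetSum, Polynomial.eval_monomial, ev, ← Finset.sum_sub_distrib]
    refine Finset.sum_congr rfl fun i _ => ?_
    ring
  have hroots : s.val ≤ P.roots := by
    rw [Multiset.le_iff_subset s.nodup]
    intro a ha
    rw [Polynomial.mem_roots hP0, Polynomial.IsRoot, heval, hs a ha, sub_self]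
  have h1 : s.card ≤ P.roots.card := Multiset.card_le_card hroots
  exact h1.trans ((Polynomial.card_roots' P).trans hdeg)

section

variable {W : Type} [DecidableEq W] {p x : ℕ}

/-- The edge attached to `A` and two codewords. -/
def mkEdge (A : Finset W) (y y' : Fin (x + 1) → ZMod p) :
    Finset (W ⊕ (Fin (x + 1) → ZMod p)) :=
  A.map Function.Embedding.inl ∪ {Sum.inr y, Sum.inr y'}

lemma inl_mem_mkEdge {A : Finset W} {y y' : Fin (x + 1) → ZMod p} {w : W} :
    Sum.inl w ∈ mkEdge A y y' ↔ w ∈ A := by
  simp [mkEdge]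

lemma inr_mem_mkEdge {A : Finset W} {y y' z : Fin (x + 1) → ZMod p} :
    Sum.inr z ∈ mkEdge A y y' ↔ z = y ∨ z = y' := by
  simp [mkEdge]

lemma card_mkEdge_le {A : Finset W} {y y' : Fin (x + 1) → ZMod p} :
    (mkEdge A y y').card ≤ A.card + 2 := by
  refine (Finset.card_union_le _ _).trans ?_
  rw [Finset.card_map]
  have := Finset.card_le_two (a := (Sum.inr y : W ⊕ (Fin (x + 1) → ZMod p))) (b := Sum.inr y')
  omega

/-- The hypergraph of the lower bound construction. -/
noncomputable def lowH [Fintype W] [NeZero p] (F : Finset (Finset W)) (t : ℕ) (α : Finset W → ZMod p) :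
    Finset (Finset (W ⊕ (Fin (x + 1) → ZMod p))) := by
  classical
  exact Finset.univ.filter (fun e => ∃ A ∈ F, ∃ y y' : Fin (x + 1) → ZMod p, y ≠ y' ∧
    (∀ T ⊆ A, T.card = t → ev y (α T) ≠ ev y' (α T)) ∧ e = mkEdge A y y')

lemma mem_lowH [Fintype W] [NeZero p] {F : Finset (Finset W)} {t : ℕ} {α : Finset W → ZMod p}
    {e : Finset (W ⊕ (Fin (x + 1) → ZMod p))} :
    e ∈ lowH F t α ↔ ∃ A ∈ F, ∃ y y' : Fin (x + 1) → ZMod p, y ≠ y' ∧
      (∀ T ⊆ A, T.card = t → ev y (α T) ≠ ev y' (α T)) ∧ e = mkEdge A y y' := by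
  classical
  simp [lowH]

end

/-- **Lower bound.** -/
theorem coverBound_of_exponent {t ℓ x : ℕ} (ht : 1 ≤ t) (hℓ : 1 ≤ ℓ)
    (h : Exponent t ℓ x) : CoverBound t (t + ℓ - 2) x := by
  classical
  intro W _ _ F hF hFc
  by_contra hcon
  push Not at hcon
  obtain ⟨C, hC⟩ := h
  -- the prime
  obtain ⟨p, hp, hprime⟩ := Nat.exists_infinite_primes
    (C * 2 ^ x + 1 + Fintype.card (Finset W) + Fintype.card W + 2)
  have : Fact p.Prime := ⟨hprime⟩
  have : NeZero p := ⟨hprime.ne_zero⟩
  -- an injective labelling of the finite sets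
  obtain ⟨α, hα⟩ : ∃ α : Finset W → ZMod p, Function.Injective α := by
    have hle : Fintype.card (Finset W) ≤ Fintype.card (ZMod p) := by
      rw [ZMod.card]; omega
    obtain ⟨f⟩ := Function.Embedding.nonempty_of_card_le hle
    exact ⟨f, f.injective⟩
  -- any two distinct codewords lie in an edge
  have hedge : ∀ y y' : Fin (x + 1) → ZMod p, y ≠ y' →
      ∃ A ∈ F, mkEdge A y y' ∈ lowH F t α := by
    intro y y' hyy
    set Z := (Finset.univ.powersetCard t).filter (fun T : Finset W => ev y (α T) = ev y' (α T))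
      with hZ
    have hZc : Z.card ≤ x := by
      have h1 : (Z.image α).card ≤ x := by
        refine ev_agree hyy (Z.image α) fun a ha => ?_
        obtain ⟨T, hT, rfl⟩ := Finset.mem_image.1 ha
        exact (Finset.mem_filter.1 hT).2
      rwa [Finset.card_image_of_injective _ hα] at h1
    have hnc := hcon Z hZc
    have hZt : ∀ S ∈ Z, S.card = t := fun S hS =>
      (Finset.mem_powersetCard.1 (Finset.mem_filter.1 hS).1).2
    simp only [IsTCover, not_and, not_forall] at hnc
    obtain ⟨A, hA, hAZ⟩ := hnc hZt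
    push Not at hAZ
    refine ⟨A, hA, mem_lowH.2 ⟨A, hA, y, y', hyy, fun T hT hTc heq => ?_, rfl⟩⟩
    refine hAZ T ?_ hT
    rw [hZ, Finset.mem_filter, Finset.mem_powersetCard]
    exact ⟨⟨Finset.subset_univ _, hTc⟩, heq⟩
  have hne : ∃ y y' : Fin (x + 1) → ZMod p, y ≠ y' := by
    refine ⟨fun _ => 0, fun _ => 1, fun h01 => ?_⟩
    have := congrFun h01 0
    exact zero_ne_one this
  have hHne : (lowH (x := x) F t α).Nonempty := by
    obtain ⟨y, y', hyy⟩ := hne
    obtain ⟨A, -, hA⟩ := hedge y y' hyy
    exact ⟨_, hA⟩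
  have hHt : TInter t (lowH (x := x) F t α) := by
    intro e he e' he'
    obtain ⟨A, hA, y, y', -, -, rfl⟩ := mem_lowH.1 he
    obtain ⟨B, hB, z, z', -, -, rfl⟩ := mem_lowH.1 he'
    refine (hF A hA B hB).trans ?_
    rw [← Finset.card_map Function.Embedding.inl (β := W ⊕ (Fin (x + 1) → ZMod p))]
    refine Finset.card_le_card ?_
    intro v hv
    rw [Finset.mem_map] at hv
    obtain ⟨w, hw, rfl⟩ := hv
    rw [Finset.mem_inter] at hw ⊢
    exact ⟨inl_mem_mkEdge.2 hw.1, inl_mem_mkEdge.2 hw.2⟩
  have hmain := hC _ (lowH (x := x) F t α) hHne hHt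
  -- the strong chromatic number is large
  have hlow : p ^ (x + 1) ≤ chi (lowH (x := x) F t α) (t + ℓ) := by
    obtain ⟨φ, hφ⟩ := chi_spec (lowH (x := x) F t α) (t + ℓ)
    have hinj : Function.Injective (fun y : Fin (x + 1) → ZMod p => φ (Sum.inr y)) := by
      intro y y' hyy
      by_contra hne
      obtain ⟨A, hA, hE⟩ := hedge y y' hne
      have h1 := hφ _ hE
      have h2 := hFc A hA
      have h3 := card_mkEdge_le (A := A) (y := y) (y' := y')
      rw [min_eq_right (by omega)] at h1
      have h4 : Set.InjOn φ (mkEdge A y y' : Set _) := by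
        rw [← Finset.card_image_iff]
        exact le_antisymm Finset.card_image_le h1
      have h5 := h4 (Finset.mem_coe.2 (inr_mem_mkEdge.2 (Or.inl rfl)))
        (Finset.mem_coe.2 (inr_mem_mkEdge.2 (Or.inr rfl))) hyy
      exact hne (Sum.inr_injective h5)
    have h1 := Fintype.card_le_of_injective _ hinj
    simpa [ZMod.card] using h1
  -- the link chromatic number is small
  have hup : chiLink (lowH (x := x) F t α) t ℓ ≤ p + Fintype.card W := by
    rw [chiLink]
    refine Finset.sup_le fun S hS => ?_
    have hSc : S.card = t := (Finset.mem_powersetCard.1 hS).2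
    have key : ∀ χ : W ⊕ (Fin (x + 1) → ZMod p) → ZMod p ⊕ W,
        (∀ e ∈ lowH F t α, S ⊆ e → Set.InjOn χ ((e \ S : Finset _) : Set _)) →
        chi (link (lowH F t α) S) ℓ ≤ p + Fintype.card W := by
      intro χ hχ
      have h1 : Fintype.card (ZMod p ⊕ W) = p + Fintype.card W := by
        rw [Fintype.card_sum, ZMod.card]
      rw [← h1]
      refine chi_le_of_coloring χ fun e he => ?_
      rw [link, Finset.mem_image] at he
      obtain ⟨e₀, he₀, rfl⟩ := he
      rw [Finset.mem_filter] at he₀
      rw [(hχ e₀ he₀.1 he₀.2).ncard_image, Set.ncard_coe_finset]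
      exact min_le_right _ _
    by_cases hS' : ∃ y₀ : Fin (x + 1) → ZMod p, Sum.inr y₀ ∈ S
    · obtain ⟨y₀, hy₀⟩ := hS'
      refine key (Sum.elim (fun w => Sum.inr w) (fun _ => Sum.inl 0)) ?_
      intro e he hSe
      obtain ⟨A, hA, y, y', -, -, rfl⟩ := mem_lowH.1 he
      have hy₀e := hSe hy₀
      rw [inr_mem_mkEdge] at hy₀e
      intro v hv v' hv' hvv
      rw [Finset.mem_coe, Finset.mem_sdiff] at hv hv'
      rcases v with w | z <;> rcases v' with w' | z'
      · simp only [Sum.elim_inl, Sum.inr.injEq] at hvv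
        rw [hvv]
      · simp at hvv
      · simp at hvv
      · have h1 := inr_mem_mkEdge.1 hv.1
        have h2 := inr_mem_mkEdge.1 hv'.1
        have h3 : z ≠ y₀ := fun h => hv.2 (h ▸ hy₀)
        have h4 : z' ≠ y₀ := fun h => hv'.2 (h ▸ hy₀)
        have : z = z' := by
          rcases hy₀e with h5 | h5
          · have h6 : z = y' := by
              rcases h1 with h1 | h1
              · exact absurd (h1.trans h5.symm) h3
              · exact h1
            have h7 : z' = y' := by
              rcases h2 with h2 | h2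
              · exact absurd (h2.trans h5.symm) h4
              · exact h2
            rw [h6, h7]
          · have h6 : z = y := by
              rcases h1 with h1 | h1
              · exact h1
              · exact absurd (h1.trans h5.symm) h3
            have h7 : z' = y := by
              rcases h2 with h2 | h2
              · exact h2
              · exact absurd (h2.trans h5.symm) h4
            rw [h6, h7]
        rw [this]
    · push Not at hS'
      -- `S` lies in the ground set of `F`
      set T : Finset W := Finset.univ.filter (fun w => Sum.inl w ∈ S) with hT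
      have hST : S = T.map Function.Embedding.inl := by
        ext v
        rcases v with w | z
        · simp [hT]
        · simp [hS' z]
      have hTc : T.card = t := by
        rw [← hSc, hST, Finset.card_map]
      refine key (Sum.elim (fun w => Sum.inr w) (fun y => Sum.inl (ev y (α T)))) ?_
      intro e he hSe
      obtain ⟨A, hA, y, y', -, hyy, rfl⟩ := mem_lowH.1 he
      have hTA : T ⊆ A := by
        intro w hw
        have : (Sum.inl w : W ⊕ (Fin (x + 1) → ZMod p)) ∈ S := by
          rw [hT, Finset.mem_filter] at hw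
          exact hw.2
        exact inl_mem_mkEdge.1 (hSe this)
      have hneT := hyy T hTA hTc
      intro v hv v' hv' hvv
      rw [Finset.mem_coe, Finset.mem_sdiff] at hv hv'
      rcases v with w | z <;> rcases v' with w' | z'
      · simp only [Sum.elim_inl, Sum.inr.injEq] at hvv
        rw [hvv]
      · simp at hvv
      · simp at hvv
      · simp only [Sum.elim_inr, Sum.inl.injEq] at hvv
        have h1 := inr_mem_mkEdge.1 hv.1
        have h2 := inr_mem_mkEdge.1 hv'.1
        rcases h1 with h1 | h1 <;> rcases h2 with h2 | h2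
        · rw [h1, h2]
        · rw [h1, h2] at hvv
          exact absurd hvv hneT
        · rw [h1, h2] at hvv
          exact absurd hvv.symm hneT
        · rw [h1, h2]
  -- conclusion
  have hppos : 0 < p := hprime.pos
  have h1 : p ^ (x + 1) ≤ C * (p + Fintype.card W) ^ x :=
    hlow.trans (hmain.trans (Nat.mul_le_mul_left _ (Nat.pow_le_pow_left hup _)))
  have h2 : (p + Fintype.card W) ^ x ≤ (2 * p) ^ x := Nat.pow_le_pow_left (by omega) _
  have h3 : p ^ x * p ≤ p ^ x * (C * 2 ^ x) := by
    calc p ^ x * p = p ^ (x + 1) := by ring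
      _ ≤ C * (p + Fintype.card W) ^ x := h1
      _ ≤ C * (2 * p) ^ x := Nat.mul_le_mul_left _ h2
      _ = p ^ x * (C * 2 ^ x) := by rw [mul_pow]; ring
  have h4 : p ≤ C * 2 ^ x := Nat.le_of_mul_le_mul_left h3 (pow_pos hppos x)
  omega

/-- **Exact reduction.** -/
theorem exponent_iff_coverBound {t ℓ x : ℕ} (ht : 1 ≤ t) (hℓ : 1 ≤ ℓ) :
    Exponent t ℓ x ↔ CoverBound t (t + ℓ - 2) x :=
  ⟨coverBound_of_exponent ht hℓ, exponent_of_coverBound ht hℓ⟩

end Pool.Agent.Hhelper47.StrongCol
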