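import Pool.Agent.Hhelper47.StrongCol.Growth2

/-!
For `t ≤ 3` the exponent `x_{t,ℓ}` has order of magnitude `ℓ ^ t`.

The `t`-intersecting family: the graphs of the affine functions `x ↦ M x + diag M` on `F_2 ^ b`,
`M` symmetric.  Two of them always agree somewhere, since `diag M` is in the range of `M`, and for at
most three distinct points the values are almost independent.
-/

set_option autoImplicit false

namespace Pool.Agent.Hhelper47.StrongCol

open Finset Matrix

section Sym

variable {b : ℕ}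

/-- The symmetric matrices over the field with two elements. -/
def SymM (b : ℕ) : AddSubgroup (Matrix (Fin b) (Fin b) (ZMod 2)) where
  carrier := {M | M.IsSymm}
  zero_mem' := Matrix.isSymm_zero
  add_mem' := fun ha hb => ha.add hb
  neg_mem' := fun ha => ha.neg

/-- The function `x ↦ M x + diag M`. -/
def aff (M : Matrix (Fin b) (Fin b) (ZMod 2)) (x : Fin b → ZMod 2) : Fin b → ZMod 2 :=
  M *ᵥ x + M.diag

lemma aff_add (M M' : Matrix (Fin b) (Fin b) (ZMod 2)) (x : Fin b → ZMod 2) :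
    aff (M + M') x = aff M x + aff M' x := by
  simp only [aff, Matrix.add_mulVec, Matrix.diag_add]
  abel

lemma add_self_vec (v : Fin b → ZMod 2) : v + v = 0 := by
  funext i
  exact CharTwo.add_self_eq_zero (v i)

/-- `yᵀ M y` is linear for symmetric `M`. -/
lemma dot_sym (M : Matrix (Fin b) (Fin b) (ZMod 2)) (hM : M.IsSymm) (y : Fin b → ZMod 2) :
    y ⬝ᵥ (M *ᵥ y) = y ⬝ᵥ M.diag := by
  have h1 : y ⬝ᵥ (M *ᵥ y) = ∑ p : Fin b × Fin b, y p.1 * M p.1 p.2 * y p.2 := by
    rw [Fintype.sum_prod_type]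
    simp only [dotProduct, mulVec, Finset.mul_sum, mul_assoc]
  have h2 : y ⬝ᵥ M.diag = ∑ p : Fin b × Fin b, if p.1 = p.2 then y p.1 * M p.1 p.2 * y p.2 else 0 := by
    rw [Fintype.sum_prod_type]
    simp only [dotProduct, diag_apply]
    refine Finset.sum_congr rfl fun i _ => ?_
    rw [Finset.sum_ite_eq Finset.univ i, if_pos (Finset.mem_univ _)]
    have h3 : y i * y i = y i := by
      generalize y i = z
      revert z
      decide
    rw [mul_comm (y i) (M i i), mul_assoc, h3]
  rw [h1, h2, ← sub_eq_zero, ← Finset.sum_sub_distrib]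
  refine Finset.sum_involution (fun p _ => (p.2, p.1)) ?_ ?_ ?_ ?_
  · rintro ⟨i, j⟩ -
    dsimp only
    by_cases hij : i = j
    · subst hij
      simp
    · rw [if_neg hij, if_neg (Ne.symm hij), sub_zero, sub_zero, hM.apply i j]
      have : y j * M i j * y i = y i * M i j * y j := by ring
      rw [this]
      exact CharTwo.add_self_eq_zero _
  · rintro ⟨i, j⟩ - h heq
    rw [Prod.mk.injEq] at heq
    apply h
    dsimp only
    rw [if_pos heq.2, sub_self]
  · intro p _
    exact Finset.mem_univ _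
  · intro p _
    rfl

/-- The diagonal of a symmetric matrix is in its range. -/
lemma exists_aff_zero (M : Matrix (Fin b) (Fin b) (ZMod 2)) (hM : M.IsSymm) :
    ∃ x, aff M x = 0 := by
  have h0 : M.diag ∈ LinearMap.range M.mulVecLin := by
    by_contra hcon
    obtain ⟨f, hf, hf0⟩ := Submodule.exists_dual_map_eq_bot_of_notMem hcon inferInstance
    let y : Fin b → ZMod 2 := fun i => f (Pi.single i 1)
    have hfy : ∀ v, f v = y ⬝ᵥ v := by
      intro v
      rw [LinearMap.pi_apply_eq_sum_univ f v]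
      simp only [dotProduct, smul_eq_mul]
      refine Finset.sum_congr rfl fun i _ => ?_
      rw [mul_comm]
      congr 1
      show f _ = f _
      congr 1
      funext j
      rw [Pi.single_apply]
      simp [eq_comm]
    have h1 : ∀ v, y ⬝ᵥ (M *ᵥ v) = 0 := by
      intro v
      rw [← hfy]
      have h2 : f (M.mulVecLin v) ∈ (LinearMap.range M.mulVecLin).map f :=
        Submodule.mem_map_of_mem (LinearMap.mem_range_self _ v)
      rw [hf0] at h2
      exact (Submodule.mem_bot _).1 h2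
    apply hf
    rw [hfy, ← dot_sym M hM, h1]
  obtain ⟨x, hx⟩ := h0
  refine ⟨x, ?_⟩
  have hx' : M *ᵥ x = M.diag := hx
  rw [aff, hx', add_self_vec]

/-- Two graphs meet. -/
lemma exists_aff_eq (M M' : Matrix (Fin b) (Fin b) (ZMod 2)) (hM : M.IsSymm) (hM' : M'.IsSymm) :
    ∃ x, aff M x = aff M' x := by
  obtain ⟨x, hx⟩ := exists_aff_zero (M + M') (hM.add hM')
  refine ⟨x, ?_⟩
  rw [aff_add] at hx
  have h1 : aff M x = aff M x + (aff M' x + aff M' x) := by rw [add_self_vec, add_zero]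
  rw [h1, ← add_assoc, hx, zero_add]

end Sym

section Count

variable {b : ℕ}

lemma sep (u d : Fin b → ZMod 2) (hu : u ≠ 0) (hud : u ≠ d) :
    ∃ c : Fin b → ZMod 2, c ⬝ᵥ u = 1 ∧ c ⬝ᵥ d = 0 := by
  classical
  have h01 : ∀ z : ZMod 2, z = 0 ∨ z = 1 := by decide
  have hnz : ∀ z : ZMod 2, z ≠ 0 → z = 1 := by decide
  obtain ⟨i, hi⟩ : ∃ i, u i ≠ 0 := by
    by_contra h
    push Not at h
    exact hu (funext h)
  obtain ⟨j, hj⟩ : ∃ j, u j ≠ d j := by
    by_contra h
    push Not at h
    exact hud (funext h)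
  have hi1 : u i = 1 := hnz _ hi
  rcases h01 (d i) with hdi | hdi
  · exact ⟨Pi.single i 1, by simp [hi1], by simp [hdi]⟩
  · rcases h01 (d j) with hdj | hdj
    · have huj : u j = 1 := hnz _ (by rw [← hdj]; exact hj)
      exact ⟨Pi.single j 1, by simp [huj], by simp [hdj]⟩
    · have huj : u j = 0 := by
        rcases h01 (u j) with h | h
        · exact h
        · exact absurd (h.trans hdj.symm) hj
      refine ⟨Pi.single i 1 + Pi.single j 1, ?_, ?_⟩
      · rw [add_dotProduct]
        simp [hi1, huj]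
      · rw [add_dotProduct]
        simp only [single_dotProduct, one_mul, hdi, hdj]
        decide

lemma dual_fun (P : Finset (Fin b → ZMod 2)) (hP : P.card ≤ 3) (x : Fin b → ZMod 2) (hx : x ∈ P) :
    ∃ (c : Fin b → ZMod 2) (β : ZMod 2), c ⬝ᵥ x + β = 1 ∧ ∀ z ∈ P, z ≠ x → c ⬝ᵥ z + β = 0 := by
  classical
  -- two points containing all others
  have key : (∀ z ∈ P, z = x) ∨ ∃ p q, p ≠ x ∧ q ≠ x ∧ ∀ z ∈ P, z ≠ x → z = p ∨ z = q := by
    by_cases h1 : ∀ z ∈ P, z = x
    · exact Or.inl h1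
    right
    push Not at h1
    obtain ⟨p, hp, hpx⟩ := h1
    by_cases h2 : ∀ z ∈ P, z ≠ x → z = p
    · exact ⟨p, p, hpx, hpx, fun z hz hzx => Or.inl (h2 z hz hzx)⟩
    push Not at h2
    obtain ⟨q, hq, hqx, hqp⟩ := h2
    refine ⟨p, q, hpx, hqx, fun z hz hzx => ?_⟩
    by_contra hcon
    push Not at hcon
    have h3 : ({x, p, q, z} : Finset (Fin b → ZMod 2)) ⊆ P := by
      intro w hw
      simp only [Finset.mem_insert, Finset.mem_singleton] at hw
      rcases hw with rfl | rfl | rfl | rfl <;> assumption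
    have h4 : ({x, p, q, z} : Finset (Fin b → ZMod 2)).card = 4 := by
      rw [Finset.card_insert_of_notMem, Finset.card_insert_of_notMem, Finset.card_insert_of_notMem,
        Finset.card_singleton]
      · simp only [Finset.mem_singleton]
        exact fun h => hcon.2 h.symm
      · simp only [Finset.mem_insert, Finset.mem_singleton, not_or]
        exact ⟨fun h => hqp h.symm, fun h => hcon.1 h.symm⟩
      · simp only [Finset.mem_insert, Finset.mem_singleton, not_or]
        exact ⟨fun h => hpx h.symm, fun h => hqx h.symm, fun h => hzx h.symm⟩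
    have h5 := Finset.card_le_card h3
    omega
  rcases key with h | ⟨p, q, hp, hq, hall⟩
  · exact ⟨0, 1, by simp, fun z hz hzx => absurd (h z hz) hzx⟩
  · obtain ⟨c, hc1, hc2⟩ := sep (x + p) (p + q)
      (by
        intro h
        apply hp
        have : p = x + (x + p) := by rw [← add_assoc, add_self_vec, zero_add]
        rw [this, h, add_zero])
      (by
        intro h
        apply hq
        have h1 : x = (x + p) + p := by rw [add_assoc, add_self_vec, add_zero]
        have h2 : q = (p + q) + p := by rw [add_comm p q, add_assoc, add_self_vec, add_zero]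
        rw [h1, h2, h])
    refine ⟨c, c ⬝ᵥ p, ?_, ?_⟩
    · rw [← dotProduct_add]
      exact hc1
    · intro z hz hzx
      rcases hall z hz hzx with rfl | rfl
      · exact CharTwo.add_self_eq_zero _
      · rw [← dotProduct_add, add_comm]
        exact hc2

/-- The evaluation at the points of `P`. -/
def evP (P : Finset (Fin b → ZMod 2)) : SymM b →+ (P → (Fin b → ZMod 2)) where
  toFun M := fun x => aff M.1 x.1
  map_zero' := by
    funext x
    simp [aff]
  map_add' M M' := by
    funext x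
    exact aff_add _ _ _

lemma fiber_mul_le {G H : Type} [AddGroup G] [Fintype G] [AddGroup H] [DecidableEq H] (Φ : G →+ H) (y : H) :
    (Finset.univ.filter fun g => Φ g = y).card * (Finset.univ.image Φ).card ≤ Fintype.card G := by
  classical
  by_cases hy : ∃ g, Φ g = y
  · obtain ⟨g₀, hg₀⟩ := hy
    have h1 : Fintype.card G = ∑ h ∈ Finset.univ.image Φ, (Finset.univ.filter fun g => Φ g = h).card := by
      rw [← Finset.card_univ]
      exact Finset.card_eq_sum_card_fiberwise fun g hg => by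
        simp
    rw [h1]
    have h2 : ∀ h ∈ Finset.univ.image Φ, (Finset.univ.filter fun g => Φ g = h).card =
        (Finset.univ.filter fun g => Φ g = y).card := by
      intro h hh
      obtain ⟨g₁, -, hg₁⟩ := Finset.mem_image.1 hh
      refine Finset.card_bij (fun g _ => g - g₁ + g₀) ?_ ?_ ?_
      · intro g hg
        rw [Finset.mem_filter] at hg ⊢
        refine ⟨Finset.mem_univ _, ?_⟩
        rw [map_add, map_sub, hg.2, hg₁, hg₀, sub_self, zero_add]
      · intro g _ g' _ h
        simpa using h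
      · intro g hg
        rw [Finset.mem_filter] at hg
        refine ⟨g - g₀ + g₁, ?_, by simp⟩
        rw [Finset.mem_filter]
        refine ⟨Finset.mem_univ _, ?_⟩
        rw [map_add, map_sub, hg.2, hg₁, hg₀, sub_self, zero_add]
    rw [Finset.sum_congr rfl h2, Finset.sum_const, smul_eq_mul, mul_comm]
  · have h1 : (Finset.univ.filter fun g => Φ g = y) = ∅ := by
      rw [Finset.filter_eq_empty_iff]
      intro g _ hg
      exact hy ⟨g, hg⟩
    rw [h1, Finset.card_empty, zero_mul]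
    exact Nat.zero_le _

end Count

section Count2

variable {b : ℕ}

noncomputable instance : Fintype (SymM b) := Fintype.ofFinite _

/-- The symmetric matrix `a cᵀ + c aᵀ`. -/
def sm (a c : Fin b → ZMod 2) : SymM b :=
  ⟨vecMulVec a c + vecMulVec c a, by
    show (vecMulVec a c + vecMulVec c a).IsSymm
    refine Matrix.IsSymm.ext fun i j => ?_
    simp only [Matrix.add_apply, vecMulVec_apply]
    ring⟩

/-- The symmetric matrix `w wᵀ`. -/
def sw (w : Fin b → ZMod 2) : SymM b :=
  ⟨vecMulVec w w, by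
    show (vecMulVec w w).IsSymm
    refine Matrix.IsSymm.ext fun i j => ?_
    simp only [vecMulVec_apply]
    ring⟩

lemma aff_sm (a c x : Fin b → ZMod 2) : aff (sm a c).1 x = (c ⬝ᵥ x) • a + (a ⬝ᵥ x) • c := by
  have h1 : ∀ z : ZMod 2, z + z = 0 := CharTwo.add_self_eq_zero
  funext i
  show ((vecMulVec a c + vecMulVec c a) *ᵥ x) i + (vecMulVec a c + vecMulVec c a) i i = _
  rw [Matrix.add_mulVec, Matrix.add_apply, Pi.add_apply, vecMulVec_apply, vecMulVec_apply,
    mul_comm (c i) (a i), h1, add_zero]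
  simp only [mulVec, dotProduct, vecMulVec_apply, Pi.add_apply, Pi.smul_apply, smul_eq_mul,
    Finset.sum_mul, mul_assoc]
  congr 1 <;> refine Finset.sum_congr rfl fun j _ => by ring

lemma aff_sw (w x : Fin b → ZMod 2) : aff (sw w).1 x = (w ⬝ᵥ x) • w + w := by
  have h1 : ∀ z : ZMod 2, z * z = z := by decide
  funext i
  show ((vecMulVec w w) *ᵥ x) i + (vecMulVec w w) i i = _
  rw [vecMulVec_apply, h1]
  simp only [mulVec, dotProduct, vecMulVec_apply, Pi.add_apply, Pi.smul_apply, smul_eq_mul,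
    Finset.sum_mul]
  congr 1
  refine Finset.sum_congr rfl fun j _ => by ring

lemma exists_ev (P : Finset (Fin b → ZMod 2)) (hP : P.card ≤ 3) :
    ∃ T : ((P → P → ZMod 2) × (P → ZMod 2)) → (P → (Fin b → ZMod 2)),
      ∀ y : P → (Fin b → ZMod 2), ∃ (M : SymM b) (q : (P → P → ZMod 2) × (P → ZMod 2)),
        y = evP P M + T q := by
  classical
  choose c β h1 h2 using fun x : P => dual_fun P hP x.1 x.2
  have hE : ∃ E : (P → ZMod 2) → (Fin b → ZMod 2), ∀ w : Fin b → ZMod 2, ∀ x : P,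
      E (fun x => w ⬝ᵥ x.1) ⬝ᵥ x.1 = w ⬝ᵥ x.1 := by
    refine ⟨fun e => if h : ∃ w : Fin b → ZMod 2, ∀ x : P, w ⬝ᵥ x.1 = e x then h.choose else 0, ?_⟩
    intro w x
    have h : ∃ w' : Fin b → ZMod 2, ∀ x : P, w' ⬝ᵥ x.1 = (fun x : P => w ⬝ᵥ x.1) x :=
      ⟨w, fun x => rfl⟩
    dsimp only
    rw [dif_pos h]
    exact h.choose_spec x
  obtain ⟨E, hE⟩ := hE
  refine ⟨fun q => fun r => (∑ s, q.1 s r • c s) + E q.2, fun y => ?_⟩
  let w' : Fin b → ZMod 2 := ∑ s, β s • y s
  let w : Fin b → ZMod 2 := w' + E (fun x => w' ⬝ᵥ x.1)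
  have hw : ∀ x : P, w ⬝ᵥ x.1 = 0 := by
    intro x
    show (w' + E (fun x => w' ⬝ᵥ x.1)) ⬝ᵥ x.1 = 0
    rw [add_dotProduct, hE]
    exact CharTwo.add_self_eq_zero _
  refine ⟨(∑ s, sm (y s) (c s)) + sw w, ⟨fun s r => y s ⬝ᵥ r.1, fun x => w' ⬝ᵥ x.1⟩, ?_⟩
  funext r
  rw [Pi.add_apply, map_add, map_sum, Pi.add_apply, Finset.sum_apply]
  have h3 : ∀ s : P, evP P (sm (y s) (c s)) r = (c s ⬝ᵥ r.1) • y s + (y s ⬝ᵥ r.1) • c s :=
    fun s => aff_sm _ _ _
  have h4 : evP P (sw w) r = w := by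
    show aff (sw w).1 r.1 = w
    rw [aff_sw, hw, zero_smul, zero_add]
  rw [h4, Finset.sum_congr rfl fun s _ => h3 s, Finset.sum_add_distrib]
  -- the terms cancel
  have h5 : y r = ∑ s, (c s ⬝ᵥ r.1) • y s + w' := by
    show y r = ∑ s, (c s ⬝ᵥ r.1) • y s + ∑ s, β s • y s
    rw [← Finset.sum_add_distrib]
    have h6 : ∀ s : P, (c s ⬝ᵥ r.1) • y s + β s • y s = if s = r then y s else 0 := by
      intro s
      rw [← add_smul]
      by_cases hs : s = r
      · subst hs
        rw [h1, one_smul, if_pos rfl]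
      · rw [if_neg hs, h2 s r.1 r.2 (fun h => hs (Subtype.ext h.symm)), zero_smul]
    rw [Finset.sum_congr rfl fun s _ => h6 s, Finset.sum_ite_eq' Finset.univ r,
      if_pos (Finset.mem_univ _)]
  have h7 : w = w' + E (fun x => w' ⬝ᵥ x.1) := rfl
  dsimp only
  rw [h7, h5]
  have h8 := add_self_vec (∑ s, (y s ⬝ᵥ r.1) • c s)
  have h9 := add_self_vec (E (fun x => w' ⬝ᵥ x.1))
  generalize (∑ s, (y s ⬝ᵥ r.1) • c s) = A at h8 ⊢
  generalize E (fun x => w' ⬝ᵥ x.1) = B at h9 ⊢
  generalize (∑ s, (c s ⬝ᵥ r.1) • y s) = D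
  calc D + w' = D + w' + (A + A) + (B + B) := by rw [h8, h9, add_zero, add_zero]
    _ = _ := by abel

lemma count_le (P : Finset (Fin b → ZMod 2)) (hP : P.card ≤ 3) (y : P → (Fin b → ZMod 2)) :
    (Finset.univ.filter fun M : SymM b => evP P M = y).card * 2 ^ (b * P.card) ≤
      2 ^ 12 * Fintype.card (SymM b) := by
  classical
  obtain ⟨T, hT⟩ := exists_ev P hP
  have h1 : (2 ^ b) ^ P.card ≤ (Finset.univ.image (evP P)).card * 2 ^ 12 := by
    have h2 : (Finset.univ : Finset (P → (Fin b → ZMod 2))) ⊆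
        ((Finset.univ.image (evP P)) ×ˢ
          (Finset.univ : Finset ((P → P → ZMod 2) × (P → ZMod 2)))).image (fun q => q.1 + T q.2) := by
      intro y _
      obtain ⟨M, q, h⟩ := hT y
      rw [Finset.mem_image]
      exact ⟨(evP P M, q), Finset.mem_product.2 ⟨Finset.mem_image_of_mem _ (Finset.mem_univ _),
        Finset.mem_univ _⟩, h.symm⟩
    have h3 := (Finset.card_le_card h2).trans Finset.card_image_le
    rw [Finset.card_product, Finset.card_univ, Finset.card_univ] at h3
    have h4 : Fintype.card (P → (Fin b → ZMod 2)) = (2 ^ b) ^ P.card := by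
      rw [Fintype.card_fun, Fintype.card_fun, Fintype.card_fin, ZMod.card, Fintype.card_coe]
    have h5 : Fintype.card ((P → P → ZMod 2) × (P → ZMod 2)) ≤ 2 ^ 12 := by
      rw [Fintype.card_prod, Fintype.card_fun, Fintype.card_fun, ZMod.card, Fintype.card_coe,
        ← pow_mul, ← pow_add]
      apply Nat.pow_le_pow_right (by norm_num)
      nlinarith
    rw [h4] at h3
    exact h3.trans (Nat.mul_le_mul_left _ h5)
  have h6 := fiber_mul_le (evP P) y
  calc (Finset.univ.filter fun M : SymM b => evP P M = y).card * 2 ^ (b * P.card)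
      = (Finset.univ.filter fun M : SymM b => evP P M = y).card * (2 ^ b) ^ P.card := by
        rw [pow_mul]
    _ ≤ (Finset.univ.filter fun M : SymM b => evP P M = y).card *
        ((Finset.univ.image (evP P)).card * 2 ^ 12) := Nat.mul_le_mul_left _ h1
    _ = ((Finset.univ.filter fun M : SymM b => evP P M = y).card *
        (Finset.univ.image (evP P)).card) * 2 ^ 12 := by ring
    _ ≤ Fintype.card (SymM b) * 2 ^ 12 := Nat.mul_le_mul_right _ h6
    _ = _ := by ring

/-- The count for a set of points of the plane `V × V`. -/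
lemma count_graph (S : Finset ((Fin b → ZMod 2) × (Fin b → ZMod 2))) (hS : S.card ≤ 3) :
    (Finset.univ.filter fun M : SymM b => ∀ p ∈ S, aff M.1 p.1 = p.2).card * 2 ^ (b * S.card) ≤
      2 ^ 12 * Fintype.card (SymM b) := by
  classical
  by_cases hinj : Set.InjOn Prod.fst (S : Set ((Fin b → ZMod 2) × (Fin b → ZMod 2)))
  · let P := S.image Prod.fst
    have hPc : P.card = S.card := Finset.card_image_of_injOn hinj
    have hex : ∀ x : P, ∃ y, (x.1, y) ∈ S := by
      intro x
      obtain ⟨p, hp, hpx⟩ := Finset.mem_image.1 x.2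
      exact ⟨p.2, by rw [← hpx]; exact hp⟩
    choose y hy using hex
    have h1 : (Finset.univ.filter fun M : SymM b => ∀ p ∈ S, aff M.1 p.1 = p.2) ⊆
        Finset.univ.filter fun M : SymM b => evP P M = y := by
      intro M hM
      rw [Finset.mem_filter] at hM ⊢
      refine ⟨Finset.mem_univ _, funext fun x => ?_⟩
      exact hM.2 _ (hy x)
    have h2 := count_le P (by rw [hPc]; exact hS) y
    rw [hPc] at h2
    exact (Nat.mul_le_mul_right _ (Finset.card_le_card h1)).trans h2
  · have h1 : (Finset.univ.filter fun M : SymM b => ∀ p ∈ S, aff M.1 p.1 = p.2) = ∅ := by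
      rw [Finset.filter_eq_empty_iff]
      intro M _ hM
      apply hinj
      intro p hp q hq hpq
      refine Prod.ext hpq ?_
      rw [← hM p hp, ← hM q hq, hpq]
    rw [h1, Finset.card_empty, zero_mul]
    exact Nat.zero_le _

end Count2

section Cover

variable {b t : ℕ}

/-- The union of the graphs in `t` disjoint copies of the plane. -/
def blk (ω : Fin t → SymM b) : Finset (Fin t × ((Fin b → ZMod 2) × (Fin b → ZMod 2))) :=
  (Finset.univ : Finset (Fin t × (Fin b → ZMod 2))).image fun q => (q.1, (q.2, aff (ω q.1).1 q.2))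

lemma mem_blk {ω : Fin t → SymM b} {i : Fin t} {p : (Fin b → ZMod 2) × (Fin b → ZMod 2)} :
    (i, p) ∈ blk ω ↔ aff (ω i).1 p.1 = p.2 := by
  classical
  rw [blk, Finset.mem_image]
  constructor
  · rintro ⟨⟨j, x⟩, -, h⟩
    rw [Prod.mk.injEq] at h
    obtain ⟨rfl, rfl⟩ := h
    rfl
  · intro h
    exact ⟨(i, p.1), Finset.mem_univ _, by
      dsimp only
      rw [h]⟩

lemma card_blk_le (ω : Fin t → SymM b) : (blk ω).card ≤ t * 2 ^ b := by
  refine Finset.card_image_le.trans (le_of_eq ?_)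
  rw [Finset.card_univ, Fintype.card_prod, Fintype.card_fin, Fintype.card_fun, ZMod.card,
    Fintype.card_fin]

lemma inter_blk (ω ω' : Fin t → SymM b) : t ≤ (blk ω ∩ blk ω').card := by
  classical
  choose x hx using fun i : Fin t => exists_aff_eq (ω i).1 (ω' i).1 (ω i).2 (ω' i).2
  have h1 : (Finset.univ : Finset (Fin t)).image (fun i => (i, (x i, aff (ω i).1 (x i)))) ⊆
      blk ω ∩ blk ω' := by
    intro p hp
    obtain ⟨i, -, rfl⟩ := Finset.mem_image.1 hp
    rw [Finset.mem_inter, mem_blk, mem_blk]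
    exact ⟨rfl, (hx i).symm⟩
  have h2 := Finset.card_le_card h1
  rwa [Finset.card_image_of_injective _ (fun i j h => (Prod.mk.inj h).1), Finset.card_univ,
    Fintype.card_fin] at h2

lemma count_blk (ht : t ≤ 3) (S : Finset (Fin t × ((Fin b → ZMod 2) × (Fin b → ZMod 2))))
    (hS : S.card = t) :
    (Finset.univ.filter fun ω : Fin t → SymM b => S ⊆ blk ω).card * 2 ^ (b * t) ≤
      (2 ^ 12) ^ t * Fintype.card (SymM b) ^ t := by
  classical
  let Si : Fin t → Finset ((Fin b → ZMod 2) × (Fin b → ZMod 2)) := fun i =>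
    (S.filter fun p => p.1 = i).image Prod.snd
  have hSi : ∀ i p, p ∈ Si i ↔ (i, p) ∈ S := by
    intro i p
    rw [Finset.mem_image]
    constructor
    · rintro ⟨⟨j, p'⟩, h1, rfl⟩
      obtain ⟨h2, h3⟩ := Finset.mem_filter.1 h1
      dsimp only at h3
      rw [← h3]
      exact h2
    · intro h
      exact ⟨(i, p), Finset.mem_filter.2 ⟨h, rfl⟩, rfl⟩
  have hcard : ∀ i, (Si i).card = (S.filter fun p => p.1 = i).card := by
    intro i
    refine Finset.card_image_of_injOn ?_
    rintro ⟨j, p⟩ h1 ⟨j', p'⟩ h2 h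
    have h3 : j = i := (Finset.mem_filter.1 h1).2
    have h4 : j' = i := (Finset.mem_filter.1 h2).2
    have h5 : p = p' := h
    rw [h3, h4, h5]
  have hsum : ∑ i, (Si i).card = t := by
    rw [Finset.sum_congr rfl fun i _ => hcard i]
    refine Eq.trans ?_ hS
    exact (Finset.card_eq_sum_card_fiberwise fun p _ => Finset.mem_coe.2 (Finset.mem_univ p.1)).symm
  have hle : ∀ i, (Si i).card ≤ 3 := by
    intro i
    have := Finset.single_le_sum (f := fun i => (Si i).card) (fun _ _ => Nat.zero_le _)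
      (Finset.mem_univ i)
    omega
  have h1 : (Finset.univ.filter fun ω : Fin t → SymM b => S ⊆ blk ω) =
      Fintype.piFinset fun i => Finset.univ.filter fun M : SymM b => ∀ p ∈ Si i, aff M.1 p.1 = p.2 := by
    ext ω
    rw [Finset.mem_filter, Fintype.mem_piFinset]
    constructor
    · rintro ⟨-, h⟩ i
      rw [Finset.mem_filter]
      refine ⟨Finset.mem_univ _, fun p hp => ?_⟩
      exact mem_blk.1 (h ((hSi i p).1 hp))
    · intro h
      refine ⟨Finset.mem_univ _, ?_⟩
      rintro ⟨i, p⟩ hp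
      exact mem_blk.2 ((Finset.mem_filter.1 (h i)).2 p ((hSi i p).2 hp))
  rw [h1, Fintype.card_piFinset]
  have h2 : (2 : ℕ) ^ (b * t) = ∏ i : Fin t, 2 ^ (b * (Si i).card) := by
    rw [Finset.prod_pow_eq_pow_sum, ← Finset.mul_sum, hsum]
  rw [h2, ← Finset.prod_mul_distrib]
  calc ∏ i : Fin t, ((Finset.univ.filter fun M : SymM b => ∀ p ∈ Si i, aff M.1 p.1 = p.2).card *
        2 ^ (b * (Si i).card)) ≤ ∏ _i : Fin t, (2 ^ 12 * Fintype.card (SymM b)) :=
        Finset.prod_le_prod' fun i _ => count_graph (Si i) (hle i)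
    _ = _ := by rw [Finset.prod_const, Finset.card_univ, Fintype.card_fin, mul_pow]

/-- For `t ≤ 3` the covering number is at least a constant times `k ^ t`. -/
theorem cover_lower_small {x : ℕ} (ht : t ≤ 3) (h : CoverBound t (t * 2 ^ b) x) :
    2 ^ (b * t) ≤ (2 ^ 12) ^ t * x := by
  classical
  obtain ⟨𝒮, h𝒮x, h𝒮t, h𝒮⟩ := h (Fin t × ((Fin b → ZMod 2) × (Fin b → ZMod 2)))
    (Finset.univ.image (blk (b := b) (t := t)))
    (by
      intro A hA B hB
      obtain ⟨ω, -, rfl⟩ := Finset.mem_image.1 hA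
      obtain ⟨ω', -, rfl⟩ := Finset.mem_image.1 hB
      exact inter_blk ω ω')
    (by
      intro A hA
      obtain ⟨ω, -, rfl⟩ := Finset.mem_image.1 hA
      exact card_blk_le ω)
  have h1 : (Finset.univ : Finset (Fin t → SymM b)) ⊆
      𝒮.biUnion fun S => Finset.univ.filter fun ω : Fin t → SymM b => S ⊆ blk ω := by
    intro ω _
    obtain ⟨S, hS, hSω⟩ := h𝒮 (blk ω) (Finset.mem_image_of_mem _ (Finset.mem_univ _))
    rw [Finset.mem_biUnion]
    exact ⟨S, hS, Finset.mem_filter.2 ⟨Finset.mem_univ _, hSω⟩⟩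
  have h2 := (Finset.card_le_card h1).trans Finset.card_biUnion_le
  rw [Finset.card_univ, Fintype.card_fun, Fintype.card_fin] at h2
  have h3 : Fintype.card (SymM b) ^ t * 2 ^ (b * t) ≤
      𝒮.card * ((2 ^ 12) ^ t * Fintype.card (SymM b) ^ t) := by
    calc Fintype.card (SymM b) ^ t * 2 ^ (b * t)
        ≤ (∑ S ∈ 𝒮, (Finset.univ.filter fun ω : Fin t → SymM b => S ⊆ blk ω).card) * 2 ^ (b * t) :=
          Nat.mul_le_mul_right _ h2
      _ = ∑ S ∈ 𝒮, ((Finset.univ.filter fun ω : Fin t → SymM b => S ⊆ blk ω).card * 2 ^ (b * t)) :=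
          Finset.sum_mul _ _ _
      _ ≤ ∑ _S ∈ 𝒮, ((2 ^ 12) ^ t * Fintype.card (SymM b) ^ t) :=
          Finset.sum_le_sum fun S hS => count_blk ht S (h𝒮t S hS)
      _ = _ := by rw [Finset.sum_const, smul_eq_mul]
  have hpos : 0 < Fintype.card (SymM b) ^ t := by
    have : 0 < Fintype.card (SymM b) := Fintype.card_pos_iff.2 ⟨0⟩
    positivity
  refine Nat.le_of_mul_le_mul_left ?_ hpos
  calc Fintype.card (SymM b) ^ t * 2 ^ (b * t)
      ≤ 𝒮.card * ((2 ^ 12) ^ t * Fintype.card (SymM b) ^ t) := h3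
    _ ≤ x * ((2 ^ 12) ^ t * Fintype.card (SymM b) ^ t) := Nat.mul_le_mul_right _ h𝒮x
    _ = Fintype.card (SymM b) ^ t * ((2 ^ 12) ^ t * x) := by ring

end Cover

/-- For `t ≤ 3` the exponent has order of magnitude at least `ℓ ^ t`. -/
theorem growth_small (t : ℕ) (ht1 : 1 ≤ t) (ht : t ≤ 3) : ∃ c : ℝ, 0 < c ∧ ∀ ℓ x : ℕ, 2 ≤ ℓ →
    Exponent t ℓ x → c * (ℓ : ℝ) ^ t ≤ x := by
  refine ⟨(((2 * t : ℕ) : ℝ) ^ t * (2 ^ 12) ^ t)⁻¹, by positivity, fun ℓ x hℓ hx => ?_⟩
  have hcov : CoverBound t (t + ℓ - 2) x := coverBound_of_exponent ht1 (by omega) hx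
  have hx1 : 1 ≤ x := by
    refine one_le_of_coverBound (t := t) (k := t + ℓ - 2) (by omega) hcov
  have key : ℓ ^ t ≤ (2 * t) ^ t * ((2 ^ 12) ^ t * x) := by
    by_cases hn : (ℓ - 1) / t = 0
    · have h1 : ℓ ≤ 2 * t := by
        rcases (Nat.div_eq_zero_iff).1 hn with h | h <;> omega
      calc ℓ ^ t ≤ (2 * t) ^ t := Nat.pow_le_pow_left h1 t
        _ = (2 * t) ^ t * 1 := (mul_one _).symm
        _ ≤ (2 * t) ^ t * ((2 ^ 12) ^ t * x) := by
            refine Nat.mul_le_mul_left _ ?_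
            have h2 : 1 ≤ (2 ^ 12) ^ t := Nat.one_le_pow _ _ (by norm_num)
            exact Nat.one_le_iff_ne_zero.2 (Nat.mul_ne_zero (by omega) (by omega))
    · set n := (ℓ - 1) / t with hnd
      set b := Nat.log 2 n with hb
      have h1 : 2 ^ b ≤ n := Nat.pow_log_le_self 2 hn
      have h2 : n < 2 ^ (b + 1) := Nat.lt_pow_succ_log_self (by norm_num) n
      have h3 : t * n ≤ ℓ - 1 := Nat.mul_div_le _ _
      have h4 : ℓ - 1 < t * (n + 1) := by
        have := Nat.lt_mul_div_succ (ℓ - 1) (show 0 < t by omega)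
        rwa [← hnd] at this
      have hsize : t * 2 ^ b ≤ t + ℓ - 2 := by
        have := Nat.mul_le_mul_left t h1
        omega
      have h5 := cover_lower_small (b := b) ht (hcov.mono hsize)
      have h6 : ℓ ≤ 2 * t * 2 ^ b := by
        have h7 : t * (n + 1) ≤ t * 2 ^ (b + 1) := Nat.mul_le_mul_left t h2
        rw [pow_succ] at h7
        have h8 : t * (2 ^ b * 2) = 2 * t * 2 ^ b := by ring
        omega
      calc ℓ ^ t ≤ (2 * t * 2 ^ b) ^ t := Nat.pow_le_pow_left h6 t
        _ = (2 * t) ^ t * 2 ^ (b * t) := by rw [mul_pow, ← pow_mul]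
        _ ≤ _ := Nat.mul_le_mul_left _ h5
  have key' : (ℓ : ℝ) ^ t ≤ ((2 * t : ℕ) : ℝ) ^ t * ((2 ^ 12) ^ t * x) := by exact_mod_cast key
  rw [inv_mul_le_iff₀ (by positivity)]
  calc (ℓ : ℝ) ^ t ≤ ((2 * t : ℕ) : ℝ) ^ t * ((2 ^ 12) ^ t * x) := key'
    _ = _ := by ring

end Pool.Agent.Hhelper47.StrongCol
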