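import Pool.Agent.Hhelper47.StrongCol.Classes

/-!
The polynomial threshold: the exponent is the covering number for `t ≥ 9 (ℓ-2)^4`.
-/

set_option autoImplicit false

namespace Pool.Agent.Hhelper47.StrongCol

open Finset

lemma choose_mul_le {n m c t : ℕ} (hc : c ≤ m) (ht : t + m ≤ n) :
    n.choose c * t ^ (m - c) ≤ n.choose m * m ^ (m - c) := by
  -- downward induction on `c`
  obtain ⟨j, rfl⟩ : ∃ j, m = c + j := ⟨m - c, by omega⟩
  rw [Nat.add_sub_cancel_left]
  clear hc
  generalize hM : c + j = M at ht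
  -- for each `i ≤ j`
  have step : ∀ i, i < j → n.choose (c + i) * t ≤ n.choose (c + i + 1) * M := by
    intro i hi
    have h1 : n.choose (c + i + 1) * (c + i + 1) = n.choose (c + i) * (n - (c + i)) :=
      Nat.choose_succ_right_eq n (c + i)
    calc n.choose (c + i) * t ≤ n.choose (c + i) * (n - (c + i)) :=
          Nat.mul_le_mul_left _ (by omega)
      _ = n.choose (c + i + 1) * (c + i + 1) := h1.symm
      _ ≤ n.choose (c + i + 1) * M := Nat.mul_le_mul_left _ (by omega)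
  have key : ∀ i, i ≤ j → n.choose c * t ^ i ≤ n.choose (c + i) * M ^ i := by
    intro i
    induction i with
    | zero => intro _; simp
    | succ i ih =>
      intro hi
      have h1 := ih (by omega)
      have h2 := step i (by omega)
      calc n.choose c * t ^ (i + 1) = (n.choose c * t ^ i) * t := by ring
        _ ≤ (n.choose (c + i) * M ^ i) * t := Nat.mul_le_mul_right _ h1
        _ = (n.choose (c + i) * t) * M ^ i := by ring
        _ ≤ (n.choose (c + i + 1) * M) * M ^ i := Nat.mul_le_mul_right _ h2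
        _ = n.choose (c + (i + 1)) * M ^ (i + 1) := by rw [← Nat.add_assoc]; ring
  have := key j le_rfl
  rwa [hM] at this

lemma centralBinom_le_pow (m j : ℕ) (h : j ≤ m) :
    (2 * m).choose m ≤ 4 ^ j * (2 * (m - j)).choose (m - j) := by
  induction j with
  | zero => simp
  | succ j ih =>
    have h1 := ih (by omega)
    have h2 : (2 * (m - j)).choose (m - j) ≤ 4 * (2 * (m - (j + 1))).choose (m - (j + 1)) := by
      obtain ⟨n, hn⟩ : ∃ n, m - j = n + 1 := ⟨m - j - 1, by omega⟩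
      have hn' : m - (j + 1) = n := by omega
      rw [hn, hn']
      have h3 := Nat.succ_mul_centralBinom_succ n
      unfold Nat.centralBinom at h3
      have h4 : (n + 1) * (2 * (n + 1)).choose (n + 1) ≤ (n + 1) * (4 * (2 * n).choose n) := by
        rw [h3]
        calc 2 * (2 * n + 1) * (2 * n).choose n ≤ (4 * (n + 1)) * (2 * n).choose n :=
              Nat.mul_le_mul_right _ (by omega)
          _ = (n + 1) * (4 * (2 * n).choose n) := by ring
      exact Nat.le_of_mul_le_mul_left h4 (by omega)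
    calc (2 * m).choose m ≤ 4 ^ j * (2 * (m - j)).choose (m - j) := h1
      _ ≤ 4 ^ j * (4 * (2 * (m - (j + 1))).choose (m - (j + 1))) := Nat.mul_le_mul_left _ h2
      _ = _ := by ring

lemma choose_le_pow_mul (n k N s : ℕ) (hs : s ≤ k) (hk : k ≤ n) (hN : n ≤ N) :
    n.choose k ≤ N ^ s * (n - s).choose (k - s) := by
  induction s with
  | zero => simp
  | succ s ih =>
    have h1 := ih (by omega)
    have h2 : (n - s).choose (k - s) ≤ N * (n - (s + 1)).choose (k - (s + 1)) := by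
      obtain ⟨a, ha⟩ : ∃ a, n - s = a + 1 := ⟨n - s - 1, by omega⟩
      obtain ⟨b, hb⟩ : ∃ b, k - s = b + 1 := ⟨k - s - 1, by omega⟩
      have ha' : n - (s + 1) = a := by omega
      have hb' : k - (s + 1) = b := by omega
      rw [ha, hb, ha', hb']
      have h3 : (a + 1) * a.choose b = (a + 1).choose (b + 1) * (b + 1) :=
        Nat.add_one_mul_choose_eq a b
      calc (a + 1).choose (b + 1) ≤ (a + 1).choose (b + 1) * (b + 1) :=
            Nat.le_mul_of_pos_right _ (by omega)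
        _ = (a + 1) * a.choose b := h3.symm
        _ ≤ N * a.choose b := Nat.mul_le_mul_right _ (by omega)
    calc n.choose k ≤ N ^ s * (n - s).choose (k - s) := h1
      _ ≤ N ^ s * (N * (n - (s + 1)).choose (k - (s + 1))) := Nat.mul_le_mul_left _ h2
      _ = _ := by ring

/-- ratio of binomial coefficients of block sizes -/
lemma block_ratio {m s j c : ℕ} (h : s + j + c = m) :
    (2 * m).choose m ≤ 4 ^ j * (2 * m) ^ s * (s + 2 * c).choose c := by
  have h1 := centralBinom_le_pow m j (by omega)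
  have h2 := choose_le_pow_mul (2 * (m - j)) (m - j) (2 * m) s (by omega) (by omega) (by omega)
  have e1 : 2 * (m - j) - s = s + 2 * c := by omega
  have e2 : m - j - s = c := by omega
  rw [e1, e2] at h2
  calc (2 * m).choose m ≤ 4 ^ j * (2 * (m - j)).choose (m - j) := h1
    _ ≤ 4 ^ j * ((2 * m) ^ s * (s + 2 * c).choose c) := Nat.mul_le_mul_left _ h2
    _ = _ := by ring

/-- logarithm of the block binomials -/
lemma log_block {κ c m : ℕ} (h1 : c ≤ κ) (h2 : κ ≤ 2 * m) :
    2 + Real.log (κ.choose c : ℝ) ≤ 2 + (m : ℝ) * (1.3864 : ℝ) := by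
  have h3 : (κ.choose c : ℝ) ≤ (2 : ℝ) ^ (2 * m) := by
    have h4 : κ.choose c ≤ 2 ^ (2 * m) :=
      (Nat.choose_le_two_pow κ c).trans (Nat.pow_le_pow_right (by norm_num) h2)
    exact_mod_cast h4
  have hpos : (0 : ℝ) < (κ.choose c : ℝ) := by exact_mod_cast Nat.choose_pos h1
  have h5 := Real.log_le_log hpos h3
  rw [Real.log_pow] at h5
  have h6 := Real.log_two_lt_d9
  have h7 : ((2 * m : ℕ) : ℝ) * Real.log 2 ≤ (m : ℝ) * 1.3864 := by
    push_cast
    have hm : (0 : ℝ) ≤ (m : ℝ) := Nat.cast_nonneg m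
    nlinarith
  linarith

/-- the term of a class -/
lemma class_term {t m s j c : ℕ} (ht : 0 < t) (hmt : 2 * m ≤ t) (h : s + j + c = m) :
    ((m - s).choose c ^ 2 * coveringNumber (t + s) (s + 2 * c) c : ℕ) *
      ((2 * m).choose m : ℝ) ≤
      (2 + (m : ℝ) * (1.3864 : ℝ)) * ((t + 2 * m).choose m : ℝ) *
        ((2 * (m : ℝ) ^ 2 / t) ^ s * (4 * (m : ℝ) ^ 3 / t) ^ j) := by
  have htr : (0 : ℝ) < (t : ℝ) := by exact_mod_cast ht
  have hmr : (0 : ℝ) ≤ (m : ℝ) := Nat.cast_nonneg m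
  set W : ℝ := (coveringNumber (t + s) (s + 2 * c) c : ℝ) with hW
  have hW0 : 0 ≤ W := Nat.cast_nonneg _
  set L : ℝ := 2 + (m : ℝ) * (1.3864 : ℝ) with hL
  have hL0 : 0 ≤ L := by rw [hL]; nlinarith
  have h1 := covering_greedy (v := t + s) (κ := s + 2 * c) (c := c) (by omega) (by omega)
  have h2 := log_block (κ := s + 2 * c) (c := c) (m := m) (by omega) (by omega)
  have h3 : W * ((s + 2 * c).choose c : ℝ) ≤ L * ((t + s).choose c : ℝ) :=
    h1.trans (mul_le_mul_of_nonneg_right h2 (Nat.cast_nonneg _))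
  have h4 : ((t + s).choose c : ℝ) * (t : ℝ) ^ (s + j) ≤
      ((t + 2 * m).choose m : ℝ) * (m : ℝ) ^ (s + j) := by
    have h5 : (t + s).choose c * t ^ (s + j) ≤ (t + 2 * m).choose m * m ^ (s + j) := by
      have h6 := choose_mul_le (n := t + 2 * m) (m := m) (c := c) (t := t) (by omega) (by omega)
      have e : m - c = s + j := by omega
      rw [e] at h6
      exact (Nat.mul_le_mul_right _ (Nat.choose_le_choose c (by omega))).trans h6
    exact_mod_cast h5
  have h7 : ((2 * m).choose m : ℝ) ≤ 4 ^ j * (2 * (m : ℝ)) ^ s * ((s + 2 * c).choose c : ℝ) := by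
    exact_mod_cast block_ratio h
  have h8 : ((m - s).choose c : ℝ) ≤ (m : ℝ) ^ j := by
    have h9 : (m - s).choose c ≤ m ^ j := by
      have e : (m - s).choose c = (m - s).choose j := by
        apply Nat.choose_symm_of_eq_add
        omega
      rw [e]
      exact (Nat.choose_le_pow (m - s) j).trans (Nat.pow_le_pow_left (by omega) j)
    exact_mod_cast h9
  have h80 : (0 : ℝ) ≤ ((m - s).choose c : ℝ) := Nat.cast_nonneg _
  have h10 : ((t + s).choose c : ℝ) ≤ ((t + 2 * m).choose m : ℝ) * ((m : ℝ) / t) ^ (s + j) := by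
    rw [div_pow, mul_div_assoc', le_div_iff₀ (pow_pos htr _)]
    exact h4
  push_cast
  calc ((m - s).choose c : ℝ) ^ 2 * W * ((2 * m).choose m : ℝ)
      ≤ ((m - s).choose c : ℝ) ^ 2 * W *
        (4 ^ j * (2 * (m : ℝ)) ^ s * ((s + 2 * c).choose c : ℝ)) :=
        mul_le_mul_of_nonneg_left h7 (mul_nonneg (sq_nonneg _) hW0)
    _ = ((m - s).choose c : ℝ) ^ 2 * (4 ^ j * (2 * (m : ℝ)) ^ s) *
        (W * ((s + 2 * c).choose c : ℝ)) := by ring
    _ ≤ ((m - s).choose c : ℝ) ^ 2 * (4 ^ j * (2 * (m : ℝ)) ^ s) *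
        (L * ((t + s).choose c : ℝ)) :=
        mul_le_mul_of_nonneg_left h3 (by positivity)
    _ ≤ ((m - s).choose c : ℝ) ^ 2 * (4 ^ j * (2 * (m : ℝ)) ^ s) *
        (L * (((t + 2 * m).choose m : ℝ) * ((m : ℝ) / t) ^ (s + j))) :=
        mul_le_mul_of_nonneg_left (mul_le_mul_of_nonneg_left h10 hL0) (by positivity)
    _ ≤ ((m : ℝ) ^ j) ^ 2 * (4 ^ j * (2 * (m : ℝ)) ^ s) *
        (L * (((t + 2 * m).choose m : ℝ) * ((m : ℝ) / t) ^ (s + j))) := by
        apply mul_le_mul_of_nonneg_right _ (by positivity)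
        apply mul_le_mul_of_nonneg_right _ (by positivity)
        exact pow_le_pow_left₀ h80 h8 2
    _ = L * ((t + 2 * m).choose m : ℝ) *
        ((2 * (m : ℝ) ^ 2 / t) ^ s * (4 * (m : ℝ) ^ 3 / t) ^ j) := by
        rw [div_pow, div_pow, div_pow, pow_add, pow_add, mul_pow, mul_pow, mul_pow]
        field_simp
        ring

/-- the term of the top class -/
lemma top_term {t m : ℕ} (hm : 1 ≤ m) (hmt : 2 * m ≤ t) :
    ((m * coveringNumber (t - 1) (2 * m - 1) (m - 1) : ℕ) : ℝ) * ((2 * m).choose m : ℝ) ≤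
      (2 + (m : ℝ) * (1.3864 : ℝ)) * ((t + 2 * m).choose m : ℝ) * (2 * (m : ℝ) ^ 2 / t) := by
  have htr : (0 : ℝ) < (t : ℝ) := by exact_mod_cast (by omega : 0 < t)
  have hmr : (0 : ℝ) ≤ (m : ℝ) := Nat.cast_nonneg m
  set W : ℝ := (coveringNumber (t - 1) (2 * m - 1) (m - 1) : ℝ) with hW
  have hW0 : 0 ≤ W := Nat.cast_nonneg _
  set L : ℝ := 2 + (m : ℝ) * (1.3864 : ℝ) with hL
  have hL0 : 0 ≤ L := by rw [hL]; nlinarith
  have h1 := covering_greedy (v := t - 1) (κ := 2 * m - 1) (c := m - 1) (by omega) (by omega)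
  have h2 := log_block (κ := 2 * m - 1) (c := m - 1) (m := m) (by omega) (by omega)
  have h3 : W * ((2 * m - 1).choose (m - 1) : ℝ) ≤ L * ((t - 1).choose (m - 1) : ℝ) :=
    h1.trans (mul_le_mul_of_nonneg_right h2 (Nat.cast_nonneg _))
  have h4 : ((t - 1).choose (m - 1) : ℝ) * (t : ℝ) ≤ ((t + 2 * m).choose m : ℝ) * (m : ℝ) := by
    have h5 : (t - 1).choose (m - 1) * t ≤ (t + 2 * m).choose m * m := by
      have h6 := choose_mul_le (n := t + 2 * m) (m := m) (c := m - 1) (t := t) (by omega)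
        (by omega)
      have e : m - (m - 1) = 1 := by omega
      rw [e, pow_one, pow_one] at h6
      exact (Nat.mul_le_mul_right _ (Nat.choose_le_choose _ (by omega))).trans h6
    exact_mod_cast h5
  have h7 : ((2 * m).choose m : ℝ) = 2 * ((2 * m - 1).choose (m - 1) : ℝ) := by
    obtain ⟨n, rfl⟩ : ∃ n, m = n + 1 := ⟨m - 1, by omega⟩
    have e1 : 2 * (n + 1) - 1 = 2 * n + 1 := by omega
    have e2 : n + 1 - 1 = n := by omega
    have e3 : 2 * (n + 1) = 2 * n + 1 + 1 := by ring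
    rw [e1, e2, e3, Nat.choose_succ_succ]
    have h8 : (2 * n + 1).choose (n + 1) = (2 * n + 1).choose n := by
      apply Nat.choose_symm_of_eq_add
      omega
    rw [Nat.succ_eq_add_one, h8]
    push_cast
    ring
  have h10 : ((t - 1).choose (m - 1) : ℝ) ≤ ((t + 2 * m).choose m : ℝ) * ((m : ℝ) / t) := by
    rw [mul_div_assoc', le_div_iff₀ htr]
    exact h4
  push_cast
  rw [h7]
  calc (m : ℝ) * W * (2 * ((2 * m - 1).choose (m - 1) : ℝ))
      = 2 * (m : ℝ) * (W * ((2 * m - 1).choose (m - 1) : ℝ)) := by ring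
    _ ≤ 2 * (m : ℝ) * (L * ((t - 1).choose (m - 1) : ℝ)) :=
        mul_le_mul_of_nonneg_left h3 (by positivity)
    _ ≤ 2 * (m : ℝ) * (L * (((t + 2 * m).choose m : ℝ) * ((m : ℝ) / t))) :=
        mul_le_mul_of_nonneg_left (mul_le_mul_of_nonneg_left h10 hL0) (by positivity)
    _ = _ := by ring

lemma geom_le {y : ℝ} (hy1 : y < 1) (hy0 : 0 ≤ y) (n : ℕ) :
    ∑ j ∈ range n, y ^ j ≤ 1 / (1 - y) := by
  rw [le_div_iff₀ (by linarith)]
  have h1 := mul_geom_sum y n
  have h2 : (0 : ℝ) ≤ y ^ n := pow_nonneg hy0 n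
  nlinarith

/-- the numerical facts for `m ≥ 5`, `t ≥ 9 m ^ 4` -/
lemma numerics {t m : ℕ} (hm : 5 ≤ m) (ht : 9 * m ^ 4 ≤ t) :
    0 ≤ 2 * (m : ℝ) ^ 2 / t ∧ 2 * (m : ℝ) ^ 2 / t ≤ 1 ∧
    0 ≤ 4 * (m : ℝ) ^ 3 / t ∧ 4 * (m : ℝ) ^ 3 / t ≤ 4 / 45 ∧
    (2 + (m : ℝ) * (1.3864 : ℝ)) * (2 * (m : ℝ) ^ 2 / t) ≤ 0.08 ∧
    (2 + (m : ℝ) * (1.3864 : ℝ)) * (4 * (m : ℝ) ^ 3 / t) ≤ 0.8 := by
  have hmr : (5 : ℝ) ≤ (m : ℝ) := by exact_mod_cast hm
  have htr : 9 * (m : ℝ) ^ 4 ≤ (t : ℝ) := by exact_mod_cast ht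
  have hm0 : (0 : ℝ) < (m : ℝ) := by linarith
  have hm4 : (0 : ℝ) < (m : ℝ) ^ 4 := pow_pos hm0 4
  have ht0 : (0 : ℝ) < (t : ℝ) := by linarith
  have hm2 : (0 : ℝ) < (m : ℝ) ^ 2 := pow_pos hm0 2
  have hm3 : (0 : ℝ) < (m : ℝ) ^ 3 := pow_pos hm0 3
  have hL : 2 + (m : ℝ) * (1.3864 : ℝ) ≤ 1.7864 * (m : ℝ) := by linarith
  have h34 : (m : ℝ) ^ 3 * 5 ≤ (m : ℝ) ^ 4 := by nlinarith
  have h23 : (m : ℝ) ^ 2 * 5 ≤ (m : ℝ) ^ 3 := by nlinarith
  refine ⟨by positivity, ?_, by positivity, ?_, ?_, ?_⟩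
  · rw [div_le_one ht0]; nlinarith
  · rw [div_le_iff₀ ht0]; nlinarith
  · rw [mul_div_assoc', div_le_iff₀ ht0]
    have : (2 + (m : ℝ) * (1.3864 : ℝ)) * (2 * (m : ℝ) ^ 2) ≤
        (1.7864 * (m : ℝ)) * (2 * (m : ℝ) ^ 2) := mul_le_mul_of_nonneg_right hL (by positivity)
    nlinarith
  · rw [mul_div_assoc', div_le_iff₀ ht0]
    have : (2 + (m : ℝ) * (1.3864 : ℝ)) * (4 * (m : ℝ) ^ 3) ≤
        (1.7864 * (m : ℝ)) * (4 * (m : ℝ) ^ 3) := mul_le_mul_of_nonneg_right hL (by positivity)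
    nlinarith

lemma sums_pos {t m s : ℕ} (hm : 5 ≤ m) (ht : 9 * m ^ 4 ≤ t) (hs : 1 ≤ s) (hsm : s < m) :
    ∑ c ∈ range (m - s + 1), (m - s).choose c ^ 2 * coveringNumber (t + s) (s + 2 * c) c ≤
      coveringNumber (t + 2 * m) (2 * m) m := by
  obtain ⟨hx0, hx1, hy0, hy1, hLx, hLy⟩ := numerics hm ht
  have hm4 : m ≤ m ^ 4 := Nat.le_self_pow (by norm_num) m
  have hmt : 2 * m ≤ t := by omega
  have hpos : (0 : ℝ) < ((2 * m).choose m : ℝ) := by
    exact_mod_cast Nat.choose_pos (by omega : m ≤ 2 * m)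
  set x : ℝ := 2 * (m : ℝ) ^ 2 / t with hx
  set y : ℝ := 4 * (m : ℝ) ^ 3 / t with hy
  set L : ℝ := 2 + (m : ℝ) * (1.3864 : ℝ) with hL
  have hL0 : 0 ≤ L := by rw [hL]; positivity
  set A : ℝ := ((t + 2 * m).choose m : ℝ) with hA
  have hA0 : 0 ≤ A := Nat.cast_nonneg _
  have key : ((∑ c ∈ range (m - s + 1),
      (m - s).choose c ^ 2 * coveringNumber (t + s) (s + 2 * c) c : ℕ) : ℝ) *
      ((2 * m).choose m : ℝ) ≤ A := by
    rw [Nat.cast_sum, Finset.sum_mul]
    calc ∑ c ∈ range (m - s + 1),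
          (((m - s).choose c ^ 2 * coveringNumber (t + s) (s + 2 * c) c : ℕ) : ℝ) *
            ((2 * m).choose m : ℝ)
        ≤ ∑ c ∈ range (m - s + 1), L * A * (x ^ s * y ^ (m - s + 1 - 1 - c)) := by
          apply Finset.sum_le_sum
          intro c hc
          rw [Finset.mem_range] at hc
          exact class_term (by omega) hmt (by omega)
      _ = L * A * (x ^ s * ∑ j ∈ range (m - s + 1), y ^ j) := by
          rw [← Finset.mul_sum, ← Finset.mul_sum,
            Finset.sum_range_reflect (fun j => y ^ j) (m - s + 1)]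
      _ ≤ L * A * (x * (1 / (1 - y))) := by
          apply mul_le_mul_of_nonneg_left _ (by positivity)
          apply mul_le_mul
          · exact pow_le_of_le_one hx0 hx1 (by omega)
          · exact geom_le (by linarith) hy0 _
          · exact Finset.sum_nonneg fun j _ => pow_nonneg hy0 j
          · exact hx0
      _ ≤ L * A * (x * 2) := by
          apply mul_le_mul_of_nonneg_left _ (by positivity)
          apply mul_le_mul_of_nonneg_left _ hx0
          rw [div_le_iff₀ (by linarith)]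
          linarith
      _ = (L * x) * 2 * A := by ring
      _ ≤ 1 * A := by
          apply mul_le_mul_of_nonneg_right _ hA0
          linarith
      _ = A := one_mul A
  have h1 : (t + 2 * m).choose m ≤ coveringNumber (t + 2 * m) (2 * m) m * (2 * m).choose m :=
    choose_le_covering (by omega) (by omega)
  have h2 : A ≤ (coveringNumber (t + 2 * m) (2 * m) m : ℝ) * ((2 * m).choose m : ℝ) := by
    rw [hA]; exact_mod_cast h1
  have h3 := key.trans h2
  have h4 := le_of_mul_le_mul_right h3 hpos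
  exact_mod_cast h4

lemma sums_zero {t m : ℕ} (hm : 5 ≤ m) (ht : 9 * m ^ 4 ≤ t) :
    ∑ c ∈ range m, m.choose c ^ 2 * coveringNumber t (2 * c) c +
      m * coveringNumber (t - 1) (2 * m - 1) (m - 1) ≤
      coveringNumber (t + 2 * m) (2 * m) m := by
  obtain ⟨hx0, hx1, hy0, hy1, hLx, hLy⟩ := numerics hm ht
  have hm4 : m ≤ m ^ 4 := Nat.le_self_pow (by norm_num) m
  have hmt : 2 * m ≤ t := by omega
  have hpos : (0 : ℝ) < ((2 * m).choose m : ℝ) := by
    exact_mod_cast Nat.choose_pos (by omega : m ≤ 2 * m)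
  have htop := top_term (t := t) (m := m) (by omega) hmt
  set x : ℝ := 2 * (m : ℝ) ^ 2 / t with hx
  set y : ℝ := 4 * (m : ℝ) ^ 3 / t with hy
  set L : ℝ := 2 + (m : ℝ) * (1.3864 : ℝ) with hL
  have hL0 : 0 ≤ L := by rw [hL]; positivity
  set A : ℝ := ((t + 2 * m).choose m : ℝ) with hA
  have hA0 : 0 ≤ A := Nat.cast_nonneg _
  have key : ((∑ c ∈ range m, m.choose c ^ 2 * coveringNumber t (2 * c) c : ℕ) : ℝ) *
      ((2 * m).choose m : ℝ) ≤ 0.9 * A := by
    rw [Nat.cast_sum, Finset.sum_mul]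
    calc ∑ c ∈ range m,
          ((m.choose c ^ 2 * coveringNumber t (2 * c) c : ℕ) : ℝ) * ((2 * m).choose m : ℝ)
        ≤ ∑ c ∈ range m, L * A * (y * y ^ (m - 1 - c)) := by
          apply Finset.sum_le_sum
          intro c hc
          rw [Finset.mem_range] at hc
          have h1 := class_term (t := t) (m := m) (s := 0) (j := m - c) (c := c) (by omega) hmt
            (by omega)
          rw [Nat.sub_zero, Nat.add_zero, Nat.zero_add, pow_zero, one_mul, ← hy, ← hL, ← hA]
            at h1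
          have e : y ^ (m - c) = y * y ^ (m - 1 - c) := by
            rw [show m - c = (m - 1 - c) + 1 by omega, pow_succ, mul_comm]
          rw [e] at h1
          exact h1
      _ = L * A * (y * ∑ j ∈ range m, y ^ j) := by
          rw [← Finset.mul_sum, ← Finset.mul_sum, Finset.sum_range_reflect (fun j => y ^ j) m]
      _ ≤ L * A * (y * (1 / (1 - y))) := by
          apply mul_le_mul_of_nonneg_left _ (by positivity)
          apply mul_le_mul_of_nonneg_left _ hy0
          exact geom_le (by linarith) hy0 _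
      _ ≤ L * A * (y * 1.1) := by
          apply mul_le_mul_of_nonneg_left _ (by positivity)
          apply mul_le_mul_of_nonneg_left _ hy0
          rw [div_le_iff₀ (by linarith)]
          linarith
      _ = (L * y) * 1.1 * A := by ring
      _ ≤ 0.9 * A := by
          apply mul_le_mul_of_nonneg_right _ hA0
          linarith
  have h1 : (t + 2 * m).choose m ≤ coveringNumber (t + 2 * m) (2 * m) m * (2 * m).choose m :=
    choose_le_covering (by omega) (by omega)
  have h2 : A ≤ (coveringNumber (t + 2 * m) (2 * m) m : ℝ) * ((2 * m).choose m : ℝ) := by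
    rw [hA]; exact_mod_cast h1
  have h3 : ((m * coveringNumber (t - 1) (2 * m - 1) (m - 1) : ℕ) : ℝ) *
      ((2 * m).choose m : ℝ) ≤ 0.08 * A := by
    refine htop.trans ?_
    calc L * A * x = (L * x) * A := by ring
      _ ≤ 0.08 * A := mul_le_mul_of_nonneg_right hLx hA0
  have h4 : ((∑ c ∈ range m, m.choose c ^ 2 * coveringNumber t (2 * c) c +
      m * coveringNumber (t - 1) (2 * m - 1) (m - 1) : ℕ) : ℝ) * ((2 * m).choose m : ℝ) ≤
      (coveringNumber (t + 2 * m) (2 * m) m : ℝ) * ((2 * m).choose m : ℝ) := by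
    rw [Nat.cast_add, add_mul]
    linarith
  have h5 := le_of_mul_le_mul_right h4 hpos
  exact_mod_cast h5

/-- polynomial threshold -/
lemma coverBound_iff_poly {t m x : ℕ} (hm : 5 ≤ m) (ht : 9 * m ^ 4 ≤ t) :
    CoverBound t (t + m) x ↔ coveringNumber (t + 2 * m) (2 * m) m ≤ x := by
  refine ⟨covering_le_of_coverBound, fun hx => ?_⟩
  have hm4 : m ≤ m ^ 4 := Nat.le_self_pow (by norm_num) m
  have hmt : 2 * m ≤ t := by omega
  have h1 : 1 ≤ coveringNumber (t + 2 * m) (2 * m) m := by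
    have h2 := choose_le_covering (v := t + 2 * m) (κ := 2 * m) (s := m) (by omega) (by omega)
    have h3 : 0 < (t + 2 * m).choose m := Nat.choose_pos (by omega)
    by_contra hlt
    have h4 : coveringNumber (t + 2 * m) (2 * m) m = 0 := by omega
    rw [h4, zero_mul] at h2
    omega
  exact coverBound_of_sums (by omega) hmt hx (h1.trans hx)
    (fun s hs hsm => (sums_pos hm ht hs hsm).trans hx) ((sums_zero hm ht).trans hx)

/-- The exponent is the covering number for `t ≥ 9 (ℓ-2)^4`. -/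
theorem isLeast_exponent_poly {t ℓ : ℕ} (ht : 1 ≤ t) (hℓ : 2 ≤ ℓ)
    (h : ℓ ≤ 3 ∨ 9 * (ℓ - 2) ^ 4 ≤ t ∨
      2 * (ℓ - 2) ^ 2 * (2 * ℓ - 4).choose (ℓ - 2) ≤ t + 2 * ℓ - 4) :
    IsLeast {x : ℕ | Exponent t ℓ x} (coveringNumber (t + 2 * ℓ - 4) (2 * ℓ - 4) (ℓ - 2)) := by
  rcases h with h | h | h
  · exact isLeast_exponent ht hℓ (Or.inl h)
  · rcases Nat.lt_or_ge ℓ 7 with hlt | hge
    · -- small `ℓ`
      apply isLeast_exponent ht hℓ
      interval_cases ℓ
      · left; omega
      · left; omega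
      · right
        have e : (2 * 4 - 4).choose (4 - 2) = 6 := by decide
        rw [e]; norm_num at h ⊢; omega
      · right
        have e : (2 * 5 - 4).choose (5 - 2) = 20 := by decide
        rw [e]; norm_num at h ⊢; omega
      · right
        have e : (2 * 6 - 4).choose (6 - 2) = 70 := by decide
        rw [e]; norm_num at h ⊢; omega
    · obtain ⟨m, rfl⟩ : ∃ m, ℓ = m + 2 := ⟨ℓ - 2, by omega⟩
      have e1 : t + 2 * (m + 2) - 4 = t + 2 * m := by omega
      have e2 : 2 * (m + 2) - 4 = 2 * m := by omega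
      have e3 : m + 2 - 2 = m := by omega
      rw [e3] at h
      rw [e1, e2, e3]
      have key : ∀ x, Exponent t (m + 2) x ↔ coveringNumber (t + 2 * m) (2 * m) m ≤ x := by
        intro x
        rw [exponent_iff_coverBound ht (by omega : 1 ≤ m + 2)]
        have e4 : t + (m + 2) - 2 = t + m := by omega
        rw [e4]
        exact coverBound_iff_poly (by omega) h
      exact ⟨(key _).2 le_rfl, fun x hx => (key x).1 hx⟩
  · exact isLeast_exponent ht hℓ (Or.inr h)

end Pool.Agent.Hhelper47.StrongCol
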