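import Pool.Agent.Hhelper47.StrongCol.Defs

/-!
The key combinatorial lemmas for the upper bound:
* `no_ultra`: a family of subsets of a finite type which is partition regular (also after deleting
  a point) cannot be 3-wise intersecting;
* `sep_lemma`: the separated version;
* `reg_lemma`: the general version for cross-intersecting families.
-/

set_option autoImplicit false

namespace Pool.Agent.Hhelper47.StrongCol

open Finset

/-- A family of subsets of a finite type which is partition regular even after deletion of one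
point cannot be 3-wise intersecting. -/
lemma no_ultra {α : Type} [Finite α] (R : Set (Set α))
    (h1 : ∀ Z : Set α, Z.ncard ≤ 1 → ∀ χ : α → Fin 3, ∃ i, {a | a ∉ Z ∧ χ a = i} ∈ R)
    (h2 : ∀ X ∈ R, ∀ Y ∈ R, ∀ W ∈ R, (X ∩ Y ∩ W).Nonempty) : False := by
  classical
  have hcompl : ∀ X : Set α, X ∈ R ∨ Xᶜ ∈ R := by
    intro X
    obtain ⟨i, hi⟩ := h1 ∅ (by simp) (fun a => if a ∈ X then 0 else 1)
    fin_cases i
    · left
      convert hi using 1
      ext a
      by_cases ha : a ∈ X <;> simp [ha]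
    · right
      convert hi using 1
      ext a
      by_cases ha : a ∈ X <;> simp [ha]
    · exfalso
      have hi' : (∅ : Set α) ∈ R := by
        convert hi using 1
        ext a
        by_cases ha : a ∈ X <;> simp [ha]
      obtain ⟨x, hx⟩ := h2 _ hi' _ hi' _ hi'
      simp at hx
  have hinter : ∀ X ∈ R, ∀ Y ∈ R, X ∩ Y ∈ R := by
    intro X hX Y hY
    rcases hcompl (X ∩ Y) with h | h
    · exact h
    · exfalso
      obtain ⟨x, hx⟩ := h2 _ hX _ hY _ h
      simp at hx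
  have hne : R.Nonempty := by
    rcases hcompl Set.univ with h | h
    · exact ⟨_, h⟩
    · exact ⟨_, h⟩
  -- a member of minimal size
  obtain ⟨X, hX, hmin⟩ : ∃ X ∈ R, ∀ Y ∈ R, X.ncard ≤ Y.ncard := by
    obtain ⟨X, hX, hm⟩ := WellFounded.has_min (measure (fun X : Set α => X.ncard)).wf R hne
    exact ⟨X, hX, fun Y hY => not_lt.1 (hm Y hY)⟩
  obtain ⟨u, hu⟩ : X.Nonempty := by
    obtain ⟨x, hx⟩ := h2 _ hX _ hX _ hX
    exact ⟨x, hx.1.1⟩
  have huR : ({u} : Set α) ∈ R := by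
    rcases hcompl {u} with h | h
    · exact h
    · exfalso
      have h3 := hmin _ (hinter _ hX _ h)
      have h4 : (X ∩ {u}ᶜ).ncard < X.ncard := by
        apply Set.ncard_lt_ncard _ (Set.toFinite _)
        refine ⟨Set.inter_subset_left, fun hle => ?_⟩
        have := (hle hu).2
        simp at this
      omega
  obtain ⟨i, hi⟩ := h1 {u} (by simp) (fun _ => 0)
  obtain ⟨x, hx⟩ := h2 _ huR _ hi _ hi
  obtain ⟨⟨hx1, hx2⟩, -⟩ := hx
  exact hx2.1 hx1

/-- Separated regularity: for every small set `Z` and every colouring with few colours there is a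
member avoiding `Z`, contained in the regions with labels in `σ`, and monochromatic on each
region. -/
def SepReg {α : Type} {lab : Type} (𝒜 : Set (Set α)) (π : α → lab) (σ : Set lab) (N b : ℕ) : Prop :=
  ∀ Z : Set α, Z.ncard ≤ b → ∀ (κ : Type) [Fintype κ], Fintype.card κ ≤ N → ∀ χ : α → κ,
    ∃ A ∈ 𝒜, Disjoint A Z ∧ (∀ a ∈ A, π a ∈ σ) ∧ ∀ a ∈ A, ∀ a' ∈ A, π a = π a' → χ a = χ a'

lemma SepReg.mono {α lab : Type} {𝒜 : Set (Set α)} {π : α → lab} {σ : Set lab} {N b N' b' : ℕ}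
    (hN : N' ≤ N) (hb : b' ≤ b) (h : SepReg 𝒜 π σ N b) : SepReg 𝒜 π σ N' b' :=
  fun Z hZ κ _ hκ χ => h Z (hZ.trans hb) κ (hκ.trans hN) χ

/-- One step of the induction for the separated lemma: if `𝒜` is regular for `σ ∪ {s}`, then for
every colouring of the region of `s` some colour class is good. -/
lemma sep_step {α lab : Type} [Finite α] {𝒜 : Set (Set α)} {π : α → lab} {σ : Set lab}
    {s : lab} {N b : ℕ} (h : SepReg 𝒜 π (insert s σ) (3 * N ^ 3) (3 * b + 1))
    (Z₀ : Set α) (hZ₀ : Z₀.ncard ≤ 1) (χ₀ : α → Fin 3) :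
    ∃ i, SepReg {A' | ∃ A ∈ 𝒜, (∀ a ∈ A, π a = s → a ∉ Z₀ ∧ χ₀ a = i) ∧
      A' = {a | a ∈ A ∧ π a ≠ s}} π σ N b := by
  classical
  by_contra hcon
  push Not at hcon
  simp only [SepReg, not_forall] at hcon
  choose Z hZ κ hfin hκ χ hχ using hcon
  have hZc : (Z₀ ∪ (Z 0 ∪ (Z 1 ∪ Z 2))).ncard ≤ 3 * b + 1 := by
    have e1 := Set.ncard_union_le Z₀ (Z 0 ∪ (Z 1 ∪ Z 2))
    have e2 := Set.ncard_union_le (Z 0) (Z 1 ∪ Z 2)
    have e3 := Set.ncard_union_le (Z 1) (Z 2)
    have e4 := hZ 0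
    have e5 := hZ 1
    have e6 := hZ 2
    omega
  have hcard : Fintype.card (Fin 3 × (κ 0 × κ 1 × κ 2)) ≤ 3 * N ^ 3 := by
    simp only [Fintype.card_prod, Fintype.card_fin]
    have e4 := hκ 0
    have e5 := hκ 1
    have e6 := hκ 2
    calc 3 * (Fintype.card (κ 0) * (Fintype.card (κ 1) * Fintype.card (κ 2)))
        ≤ 3 * (N * (N * N)) := by gcongr
      _ = 3 * N ^ 3 := by ring
  obtain ⟨A, hA, hAZ, hAσ, hAχ⟩ := h _ hZc _ hcard
    (fun a => (χ₀ a, (χ 0 a, χ 1 a, χ 2 a)))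
  obtain ⟨i, hi⟩ : ∃ i, ∀ a ∈ A, π a = s → χ₀ a = i := by
    by_cases hex : ∃ a ∈ A, π a = s
    · obtain ⟨a₀, ha₀, ha₀s⟩ := hex
      refine ⟨χ₀ a₀, fun a ha has => ?_⟩
      have := hAχ a ha a₀ ha₀ (has.trans ha₀s.symm)
      exact congrArg Prod.fst this
    · push Not at hex
      exact ⟨0, fun a ha has => absurd has (hex a ha)⟩
  have hdis : ∀ j, Disjoint A (Z j) := by
    intro j
    refine hAZ.mono_right ?_
    fin_cases j
    · exact fun x hx => Or.inr (Or.inl hx)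
    · exact fun x hx => Or.inr (Or.inr (Or.inl hx))
    · exact fun x hx => Or.inr (Or.inr (Or.inr hx))
  have hmono : ∀ j, ∀ a ∈ A, ∀ a' ∈ A, π a = π a' → χ j a = χ j a' := by
    intro j a ha a' ha' hπ
    have h3 := hAχ a ha a' ha' hπ
    simp only [Prod.mk.injEq] at h3
    fin_cases j
    · exact h3.2.1
    · exact h3.2.2.1
    · exact h3.2.2.2
  refine hχ i ⟨{a | a ∈ A ∧ π a ≠ s}, ⟨A, hA, fun a ha has => ⟨?_, hi a ha has⟩, rfl⟩, ?_, ?_, ?_⟩
  · intro haZ
    exact Set.disjoint_left.1 hAZ ha (Or.inl haZ)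
  · exact (hdis i).mono_left fun x hx => hx.1
  · rintro a ⟨ha, has⟩
    rcases hAσ a ha with h3 | h3
    · exact absurd h3 has
    · exact h3
  · rintro a ⟨ha, -⟩ a' ⟨ha', -⟩ hπ
    exact hmono i a ha a' ha' hπ

/-- **Separated lemma.** -/
lemma sep_lemma (k : ℕ) : ∃ N b : ℕ, ∀ (α lab : Type) [Finite α] (π : α → lab) (σ : Set lab),
    σ.Finite → σ.ncard = k → ∀ 𝒜 ℬ : Set (Set α), SepReg 𝒜 π σ N b → SepReg ℬ π σ N b →
      ∃ A ∈ 𝒜, ∃ B ∈ ℬ, Disjoint A B := by
  classical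
  induction k with
  | zero =>
    refine ⟨1, 0, fun α lab _ π σ hσf hσ 𝒜 ℬ hA hB => ?_⟩
    have hσ' : σ = ∅ := by
      rwa [Set.ncard_eq_zero hσf] at hσ
    subst hσ'
    obtain ⟨A, hA1, -, hA2, -⟩ := hA ∅ (by simp) Unit (by simp) (fun _ => ())
    obtain ⟨B, hB1, -, -, -⟩ := hB ∅ (by simp) Unit (by simp) (fun _ => ())
    refine ⟨A, hA1, B, hB1, ?_⟩
    rw [Set.disjoint_left]
    intro a ha
    exact absurd (hA2 a ha) (by simp)
  | succ k ih =>
    obtain ⟨N, b, ih⟩ := ih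
    refine ⟨3 * N ^ 3, 3 * b + 1, fun α lab _ π σ' hσf hσ' 𝒜 ℬ hA hB => ?_⟩
    obtain ⟨s, σ, hsσ, rfl, hσc⟩ : ∃ s σ, s ∉ σ ∧ insert s σ = σ' ∧ σ.ncard = k :=
      (Set.ncard_eq_succ hσf).1 hσ'
    have hσf' : σ.Finite := hσf.subset (Set.subset_insert _ _)
    by_contra hno
    -- the two families attached to a subset `X` of the region of `s`
    let FA : Set α → Set (Set α) := fun X =>
      {A' | ∃ A ∈ 𝒜, (∀ a ∈ A, π a = s → a ∈ X) ∧ A' = {a | a ∈ A ∧ π a ≠ s}}
    let FB : Set α → Set (Set α) := fun X =>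
      {B' | ∃ B ∈ ℬ, (∀ a ∈ B, π a = s → a ∉ X) ∧ B' = {a | a ∈ B ∧ π a ≠ s}}
    have hPQ : ∀ X, ¬ (SepReg (FA X) π σ N b ∧ SepReg (FB X) π σ N b) := by
      rintro X ⟨h1, h2⟩
      obtain ⟨A', ⟨A, hA', hAX, rfl⟩, B', ⟨B, hB', hBX, rfl⟩, hdis⟩ :=
        ih α lab π σ hσf' hσc _ _ h1 h2
      refine hno ⟨A, hA', B, hB', ?_⟩
      rw [Set.disjoint_left]
      intro a ha hb
      by_cases has : π a = s
      · exact hBX a hb has (hAX a ha has)
      · exact Set.disjoint_left.1 hdis ⟨ha, has⟩ ⟨hb, has⟩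
    refine no_ultra {X : Set α | SepReg (FA X) π σ N b} ?_ ?_
    · intro Z hZ χ
      obtain ⟨i, hi⟩ := sep_step hA Z hZ χ
      exact ⟨i, hi⟩
    · intro X hX Y hY W hW
      by_contra hemp
      rw [Set.not_nonempty_iff_eq_empty] at hemp
      obtain ⟨i, hi⟩ := sep_step hB ∅ (by simp)
        (fun a => if a ∉ X then 0 else if a ∉ Y then 1 else 2)
      have hQ : SepReg (FB {a | (if a ∉ X then (0 : Fin 3) else if a ∉ Y then 1 else 2) ≠ i})
          π σ N b := by
        intro Z hZ κ _ hκ χ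
        obtain ⟨B', ⟨B, hB1, hB2, hB3⟩, hB4⟩ := hi Z hZ κ hκ χ
        refine ⟨B', ⟨B, hB1, fun a ha has => ?_, hB3⟩, hB4⟩
        have := (hB2 a ha has).2
        simpa using this
      have hmono : ∀ X' : Set α, SepReg (FA X') π σ N b →
          X' ⊆ {a | (if a ∉ X then (0 : Fin 3) else if a ∉ Y then 1 else 2) ≠ i} → False := by
        intro X' hX' hsub
        refine hPQ _ ⟨?_, hQ⟩
        intro Z hZ κ _ hκ χ
        obtain ⟨A', ⟨A, hA1, hA2, hA3⟩, hA4⟩ := hX' Z hZ κ hκ χ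
        exact ⟨A', ⟨A, hA1, fun a ha has => hsub (hA2 a ha has), hA3⟩, hA4⟩
      fin_cases i
      · refine hmono X hX ?_
        intro a ha
        by_cases haY : a ∈ Y <;> simp [ha, haY]
      · refine hmono Y hY ?_
        intro a ha
        by_cases haX : a ∈ X <;> simp [ha, haX]
      · refine hmono W hW ?_
        intro a ha
        by_cases haX : a ∈ X
        · by_cases haY : a ∈ Y
          · exfalso
            have : a ∈ X ∩ Y ∩ W := ⟨⟨haX, haY⟩, ha⟩
            rw [hemp] at this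
            exact this
          · simp [haX, haY]
        · simp [haX]

end Pool.Agent.Hhelper47.StrongCol
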