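import Pool.Agent.Hhelper47.StrongCol.Upper1

/-!
The general version of the key lemma, for cross-intersecting families.
-/

set_option autoImplicit false

namespace Pool.Agent.Hhelper47.StrongCol

open Finset

/-- Regularity at level `j`: for every small set `Z` and every colouring with few colours there is
a member avoiding `Z` with at most `j` colours. -/
def Reg {α : Type} (𝒜 : Set (Set α)) (j N b : ℕ) : Prop :=
  ∀ Z : Set α, Z.ncard ≤ b → ∀ (κ : Type) [Fintype κ], Fintype.card κ ≤ N → ∀ χ : α → κ,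
    ∃ A ∈ 𝒜, Disjoint A Z ∧ (χ '' A).ncard ≤ j

lemma Reg.mono {α : Type} {𝒜 : Set (Set α)} {j N b N' b' : ℕ}
    (hN : N' ≤ N) (hb : b' ≤ b) (h : Reg 𝒜 j N b) : Reg 𝒜 j N' b' :=
  fun Z hZ κ _ hκ χ => h Z (hZ.trans hb) κ (hκ.trans hN) χ

lemma ncard_iUnion_le' {α ι : Type} [Finite α] [Fintype ι] (s : ι → Set α) (b : ℕ)
    (h : ∀ i, (s i).ncard ≤ b) : (⋃ i, s i).ncard ≤ Fintype.card ι * b := by
  classical
  have key : ∀ t : Finset ι, (⋃ i ∈ t, s i).ncard ≤ t.card * b := by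
    intro t
    induction t using Finset.induction_on with
    | empty => simp
    | insert a t ha ih =>
      rw [Finset.set_biUnion_insert, Finset.card_insert_of_notMem ha]
      refine (Set.ncard_union_le _ _).trans ?_
      have := h a
      calc (s a).ncard + (⋃ i ∈ t, s i).ncard ≤ b + t.card * b := by omega
        _ = (t.card + 1) * b := by ring
  have := key Finset.univ
  simpa using this

/-- From regularity at level `j`, together with a colouring witnessing that level `j - 1` fails, we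
get separated regularity. -/
lemma sep_of_reg {α lab κ₁ : Type} [Finite α] [Fintype lab] {𝒜 : Set (Set α)} {j N b b₁ N' b' : ℕ}
    (π : α → lab) (g : lab → κ₁) (Z₁ : Set α) (hZ₁ : Z₁.ncard ≤ b₁)
    (hN : Fintype.card lab * N' ^ (2 ^ Fintype.card lab) ≤ N)
    (hb : b₁ + 2 ^ Fintype.card lab * b' ≤ b)
    (h : Reg 𝒜 j N b)
    (hj : ∀ A ∈ 𝒜, Disjoint A Z₁ → j ≤ ((fun a => g (π a)) '' A).ncard) :
    ∃ σ : Set lab, SepReg 𝒜 π σ N' b' := by
  classical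
  by_contra hcon
  push Not at hcon
  simp only [SepReg, not_forall] at hcon
  choose Z hZ κ hfin hκ χ hχ using hcon
  have hcardZ : (Z₁ ∪ ⋃ σ, Z σ).ncard ≤ b := by
    refine (Set.ncard_union_le _ _).trans ?_
    have h1 := ncard_iUnion_le' Z b' hZ
    rw [Fintype.card_set] at h1
    omega
  have hcardκ : Fintype.card (lab × (∀ σ : Set lab, κ σ)) ≤ N := by
    rw [Fintype.card_prod, Fintype.card_pi]
    refine le_trans ?_ hN
    gcongr
    calc ∏ σ : Set lab, Fintype.card (κ σ) ≤ ∏ _σ : Set lab, N' :=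
          Finset.prod_le_prod' fun σ _ => hκ σ
      _ = N' ^ (2 ^ Fintype.card lab) := by
          rw [Finset.prod_const, Finset.card_univ, Fintype.card_set]
  obtain ⟨A, hA, hAZ, hAc⟩ := h _ hcardZ _ hcardκ (fun a => (π a, fun σ => χ σ a))
  have hAZ₁ : Disjoint A Z₁ := hAZ.mono_right Set.subset_union_left
  have hjA := hj A hA hAZ₁
  have himg : (fun a => g (π a)) '' A =
      (fun p : lab × (∀ σ : Set lab, κ σ) => g p.1) ''
        ((fun a => (π a, fun σ => χ σ a)) '' A) := by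
    rw [Set.image_image]
  have hinj : Set.InjOn (fun p : lab × (∀ σ : Set lab, κ σ) => g p.1)
      ((fun a => (π a, fun σ => χ σ a)) '' A) := by
    rw [← Set.ncard_image_iff (Set.toFinite _)]
    refine le_antisymm (Set.ncard_image_le (Set.toFinite _)) ?_
    rw [← himg]
    exact hAc.trans hjA
  refine hχ (π '' A) ⟨A, hA, ?_, fun a ha => Set.mem_image_of_mem _ ha, ?_⟩
  · refine hAZ.mono_right ?_
    exact (Set.subset_iUnion Z (π '' A)).trans Set.subset_union_right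
  · intro a ha a' ha' hπ
    have := hinj (Set.mem_image_of_mem _ ha) (Set.mem_image_of_mem _ ha') (by
      simp only [hπ])
    have h2 := congrArg Prod.snd this
    exact congrFun h2 (π '' A)

/-- **Key lemma**: regular families (at any levels) with large parameters are not
cross-intersecting. -/
lemma reg_lemma (n : ℕ) : ∀ j j' : ℕ, j + j' ≤ n → ∃ N b : ℕ, ∀ (α : Type) [Finite α]
    (𝒜 ℬ : Set (Set α)), Reg 𝒜 j N b → Reg ℬ j' N b → ∃ A ∈ 𝒜, ∃ B ∈ ℬ, Disjoint A B := by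
  classical
  have hzero : ∀ (α : Type) [Finite α] (𝒜 : Set (Set α)), Reg 𝒜 0 1 0 → ∃ A ∈ 𝒜, A = ∅ := by
    intro α _ 𝒜 h
    obtain ⟨A, hA, -, hc⟩ := h ∅ (by simp) Unit (by simp) (fun _ => ())
    refine ⟨A, hA, ?_⟩
    have h0 : ((fun _ : α => ()) '' A).ncard = 0 := by omega
    rw [Set.ncard_eq_zero (Set.toFinite _), Set.image_eq_empty] at h0
    exact h0
  have hone : ∀ (α : Type) [Finite α] (𝒜 : Set (Set α)) (j : ℕ), Reg 𝒜 j 1 0 → ∃ A, A ∈ 𝒜 := by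
    intro α _ 𝒜 j h
    obtain ⟨A, hA, -⟩ := h ∅ (by simp) Unit (by simp) (fun _ => ())
    exact ⟨A, hA⟩
  choose SN SB hS using sep_lemma
  induction n with
  | zero =>
    intro j j' hjj
    obtain rfl : j = 0 := by omega
    refine ⟨1, 0, fun α _ 𝒜 ℬ hA hB => ?_⟩
    obtain ⟨A, hA1, rfl⟩ := hzero α 𝒜 hA
    obtain ⟨B, hB1⟩ := hone α ℬ _ hB
    exact ⟨∅, hA1, B, hB1, by simp⟩
  | succ n ih =>
    intro j j' hjj
    rcases Nat.eq_zero_or_pos j with hj0 | hj0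
    · subst hj0
      refine ⟨1, 0, fun α _ 𝒜 ℬ hA hB => ?_⟩
      obtain ⟨A, hA1, rfl⟩ := hzero α 𝒜 hA
      obtain ⟨B, hB1⟩ := hone α ℬ _ hB
      exact ⟨∅, hA1, B, hB1, by simp⟩
    rcases Nat.eq_zero_or_pos j' with hj'0 | hj'0
    · subst hj'0
      refine ⟨1, 0, fun α _ 𝒜 ℬ hA hB => ?_⟩
      obtain ⟨B, hB1, rfl⟩ := hzero α ℬ hB
      obtain ⟨A, hA1⟩ := hone α 𝒜 _ hA
      exact ⟨A, hA1, ∅, hB1, by simp⟩
    obtain ⟨N₁, b₁, h₁⟩ := ih (j - 1) j' (by omega)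
    obtain ⟨N₂, b₂, h₂⟩ := ih j (j' - 1) (by omega)
    -- parameters
    let M := N₁ * N₂
    let N' := 1 + ∑ k ∈ range (M + 1), SN k
    let b' := ∑ k ∈ range (M + 1), SB k
    refine ⟨N₁ + N₂ + M * N' ^ (2 ^ M), b₁ + b₂ + 2 ^ M * b', fun α _ 𝒜 ℬ hA hB => ?_⟩
    by_contra hno
    have hA1 : ¬ Reg 𝒜 (j - 1) N₁ b₁ := by
      intro h
      exact hno (h₁ α 𝒜 ℬ h (hB.mono (by omega) (by omega)))
    have hB1 : ¬ Reg ℬ (j' - 1) N₂ b₂ := by
      intro h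
      exact hno (h₂ α 𝒜 ℬ (hA.mono (by omega) (by omega)) h)
    simp only [Reg, not_forall] at hA1 hB1
    obtain ⟨Z₁, hZ₁, κ₁, hf₁, hκ₁, χ₁, hχ₁⟩ := hA1
    obtain ⟨Z₂, hZ₂, κ₂, hf₂, hκ₂, χ₂, hχ₂⟩ := hB1
    push Not at hχ₁ hχ₂
    have hM : Fintype.card (κ₁ × κ₂) ≤ M := by
      rw [Fintype.card_prod]
      exact Nat.mul_le_mul hκ₁ hκ₂
    have hpow : Fintype.card (κ₁ × κ₂) * N' ^ (2 ^ Fintype.card (κ₁ × κ₂)) ≤
        N₁ + N₂ + M * N' ^ (2 ^ M) := by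
      have h3 : N' ^ (2 ^ Fintype.card (κ₁ × κ₂)) ≤ N' ^ (2 ^ M) := by
        apply Nat.pow_le_pow_right (by simp only [N']; omega)
        exact Nat.pow_le_pow_right (by norm_num) hM
      calc Fintype.card (κ₁ × κ₂) * N' ^ (2 ^ Fintype.card (κ₁ × κ₂))
          ≤ M * N' ^ (2 ^ M) := Nat.mul_le_mul hM h3
        _ ≤ _ := by omega
    have hpow2 : 2 ^ Fintype.card (κ₁ × κ₂) * b' ≤ 2 ^ M * b' :=
      Nat.mul_le_mul_right _ (Nat.pow_le_pow_right (by norm_num) hM)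
    obtain ⟨σ, hσ⟩ := sep_of_reg (N' := N') (b' := b') (fun a => (χ₁ a, χ₂ a)) Prod.fst Z₁ hZ₁
      hpow (by omega) hA (fun A hA2 hA3 => by
        have := hχ₁ A hA2 hA3
        change j ≤ (χ₁ '' A).ncard
        omega)
    obtain ⟨τ, hτ⟩ := sep_of_reg (N' := N') (b' := b') (fun a => (χ₁ a, χ₂ a)) Prod.snd Z₂ hZ₂
      hpow (by omega) hB (fun B hB2 hB3 => by
        have := hχ₂ B hB2 hB3
        change j' ≤ (χ₂ '' B).ncard
        omega)
    -- the common regions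
    have hk : (σ ∩ τ).ncard ≤ M := by
      refine le_trans ?_ hM
      rw [← Nat.card_eq_fintype_card, ← Set.ncard_univ]
      exact Set.ncard_le_ncard (Set.subset_univ _) (Set.toFinite _)
    have hSN : SN (σ ∩ τ).ncard ≤ N' := by
      have : SN (σ ∩ τ).ncard ≤ ∑ k ∈ range (M + 1), SN k :=
        Finset.single_le_sum (f := SN) (fun _ _ => Nat.zero_le _) (Finset.mem_range.2 (by omega))
      simp only [N']
      omega
    have hSB : SB (σ ∩ τ).ncard ≤ b' :=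
      Finset.single_le_sum (f := SB) (fun _ _ => Nat.zero_le _) (Finset.mem_range.2 (by omega))
    obtain ⟨A', ⟨A, hA2, hA3, rfl⟩, B', ⟨B, hB2, hB3, rfl⟩, hdis⟩ :=
      hS (σ ∩ τ).ncard α (κ₁ × κ₂) (fun a => (χ₁ a, χ₂ a)) (σ ∩ τ) (Set.toFinite _) rfl
        {A' | ∃ A ∈ 𝒜, (∀ a ∈ A, (χ₁ a, χ₂ a) ∈ σ) ∧ A' = {a | a ∈ A ∧ (χ₁ a, χ₂ a) ∈ σ ∩ τ}}
        {B' | ∃ B ∈ ℬ, (∀ a ∈ B, (χ₁ a, χ₂ a) ∈ τ) ∧ B' = {a | a ∈ B ∧ (χ₁ a, χ₂ a) ∈ σ ∩ τ}}
        (by
          intro Z hZ κ _ hκ χ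
          obtain ⟨A, hA2, hA3, hA4, hA5⟩ := hσ Z (hZ.trans hSB) κ (hκ.trans hSN) χ
          refine ⟨_, ⟨A, hA2, hA4, rfl⟩, hA3.mono_left fun x hx => hx.1, fun a ha => ha.2, ?_⟩
          intro a ha a' ha' hπ
          exact hA5 a ha.1 a' ha'.1 hπ)
        (by
          intro Z hZ κ _ hκ χ
          obtain ⟨A, hA2, hA3, hA4, hA5⟩ := hτ Z (hZ.trans hSB) κ (hκ.trans hSN) χ
          refine ⟨_, ⟨A, hA2, hA4, rfl⟩, hA3.mono_left fun x hx => hx.1, fun a ha => ha.2, ?_⟩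
          intro a ha a' ha' hπ
          exact hA5 a ha.1 a' ha'.1 hπ)
    refine hno ⟨A, hA2, B, hB2, ?_⟩
    rw [Set.disjoint_left]
    intro a ha hb
    exact Set.disjoint_left.1 hdis ⟨ha, hA3 a ha, hB3 a hb⟩ ⟨hb, hA3 a ha, hB3 a hb⟩

end Pool.Agent.Hhelper47.StrongCol
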