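import Pool.Agent.Hhelper47.StrongCol.Upper2

/-!
Kernels of a `t`-intersecting hypergraph, and the upper bound.
-/

set_option autoImplicit false

namespace Pool.Agent.Hhelper47.StrongCol

open Finset

/-! ### Basic facts on `chi` -/

lemma image_ncard {V κ : Type} [DecidableEq κ] (χ : V → κ) (e : Finset V) :
    (χ '' (e : Set V)).ncard = (e.image χ).card := by
  rw [← Finset.coe_image, Set.ncard_coe_finset]

lemma chi_le_of_coloring {V : Type} [Fintype V] [DecidableEq V] {H : Finset (Finset V)} {c : ℕ}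
    {κ : Type} [Fintype κ] (χ : V → κ)
    (h : ∀ e ∈ H, min c e.card ≤ (χ '' (e : Set V)).ncard) : chi H c ≤ Fintype.card κ := by
  classical
  refine Nat.sInf_le ⟨fun v => Fintype.equivFin κ (χ v), fun e he => ?_⟩
  have h1 := h e he
  rw [image_ncard] at h1
  have : (e.image fun v => Fintype.equivFin κ (χ v)) =
      (e.image χ).image (Fintype.equivFin κ) := by
    rw [Finset.image_image]; rfl
  rw [this, Finset.card_image_of_injective _ (Fintype.equivFin κ).injective]
  exact h1

lemma chi_spec {V : Type} [Fintype V] [DecidableEq V] (H : Finset (Finset V)) (c : ℕ) :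
    ∃ φ : V → Fin (chi H c), IsStrong H c φ := by
  refine Nat.sInf_mem (s := {k : ℕ | ∃ φ : V → Fin k, IsStrong H c φ})
    ⟨Fintype.card V, Fintype.equivFin V, fun e _ => ?_⟩
  rw [Finset.card_image_of_injective _ (Fintype.equivFin V).injective]
  exact min_le_right _ _

lemma chi_pos {V : Type} [Fintype V] [DecidableEq V] [Nonempty V] (H : Finset (Finset V)) (c : ℕ) :
    1 ≤ chi H c := by
  obtain ⟨φ, -⟩ := chi_spec H c
  have := (φ (Classical.arbitrary V)).2
  omega

/-! ### Kernels -/

/-- `P` is a kernel (for parameters `N`, `b`): the edges properly containing `P` cannot be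
controlled by a colouring with `N` colours even after deleting the edges which meet a set of size
`b`. -/
def Bad {V : Type} (H : Finset (Finset V)) (c N b : ℕ) (P : Finset V) : Prop :=
  ∀ Z : Finset V, Z.card ≤ b → Disjoint Z P → ∀ (κ : Type) [Fintype κ], Fintype.card κ ≤ N →
    ∀ χ : V → κ, ∃ e ∈ H, P ⊆ e ∧ e ≠ P ∧ Disjoint e Z ∧
      (χ '' ((e : Set V) \ (P : Set V))).ncard + P.card < c

lemma Bad.card {V : Type} [Finite V] {H : Finset (Finset V)} {c N b : ℕ} {P : Finset V}
    (hN : 1 ≤ N) (h : Bad H c N b P) : P.card + 2 ≤ c := by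
  classical
  obtain ⟨e, -, hPe, hne, -, hc⟩ := h ∅ (by simp) (by simp) Unit (by simpa using hN) (fun _ => ())
  have hnon : ((e : Set V) \ (P : Set V)).Nonempty := by
    rw [Set.sdiff_nonempty]
    intro hle
    exact hne (Finset.Subset.antisymm (by exact_mod_cast hle) hPe)
  have : 0 < ((fun _ : V => ()) '' ((e : Set V) \ (P : Set V))).ncard := by
    rw [Set.ncard_pos (Set.toFinite _)]
    exact hnon.image _
  omega

/-- Regularity of the family of edges containing a kernel. -/
lemma Bad.reg {V : Type} [Finite V] [DecidableEq V] {H : Finset (Finset V)} {c N b N' b' : ℕ}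
    {P P' : Finset V} (h : Bad H c N b P) (hN : N' ≤ N) (hb : b' + c ≤ b) (hP' : P'.card ≤ c) :
    Reg {A : Set V | ∃ e ∈ H, P ⊆ e ∧ Disjoint e (P' \ P) ∧ A = (e : Set V) \ (P : Set V)}
      (c - 1 - P.card) N' b' := by
  classical
  intro Z hZ κ _ hκ χ
  have hZf : Z.Finite := Set.toFinite _
  have hZ' : hZf.toFinset.card ≤ b' := by
    rwa [← Set.ncard_eq_toFinset_card Z hZf]
  have hcard : ((hZf.toFinset ∪ P') \ P).card ≤ b := by
    refine (Finset.card_le_card Finset.sdiff_subset).trans ?_
    refine (Finset.card_union_le _ _).trans ?_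
    omega
  obtain ⟨e, he, hPe, -, hdis, hc⟩ := h ((hZf.toFinset ∪ P') \ P) hcard Finset.sdiff_disjoint κ
    (hκ.trans hN) χ
  refine ⟨(e : Set V) \ (P : Set V), ⟨e, he, hPe, ?_, rfl⟩, ?_, by omega⟩
  · refine hdis.mono_right ?_
    exact Finset.sdiff_subset_sdiff Finset.subset_union_right (Finset.Subset.refl _)
  · rw [Set.disjoint_left]
    rintro a ⟨ha, haP⟩ haZ
    refine Finset.disjoint_left.1 hdis (by exact_mod_cast ha) ?_
    rw [Finset.mem_sdiff, Finset.mem_union, Set.Finite.mem_toFinset]
    exact ⟨Or.inl haZ, by exact_mod_cast haP⟩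

/-- Kernels of a `t`-intersecting hypergraph pairwise share at least `t` vertices. -/
lemma bad_inter (c : ℕ) : ∃ N b : ℕ, 1 ≤ N ∧ ∀ (t : ℕ) (V : Type) [Finite V] [DecidableEq V]
    (H : Finset (Finset V)), TInter t H → ∀ P P' : Finset V, Bad H c N b P → Bad H c N b P' →
      t ≤ (P ∩ P').card := by
  classical
  have hreg : ∀ j j' : ℕ, ∃ N b : ℕ, ∀ (α : Type) [Finite α]
    (𝒜 ℬ : Set (Set α)), Reg 𝒜 j N b → Reg ℬ j' N b → ∃ A ∈ 𝒜, ∃ B ∈ ℬ, Disjoint A B :=
    fun j j' => reg_lemma (j + j') j j' le_rfl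
  choose RN RB hR using hreg
  refine ⟨1 + ∑ j ∈ range (c + 1), ∑ j' ∈ range (c + 1), RN j j',
    (∑ j ∈ range (c + 1), ∑ j' ∈ range (c + 1), RB j j') + c, by omega, ?_⟩
  intro t V _ _ H hH P P' hP hP'
  have h1 := hP.card (by omega)
  have h2 := hP'.card (by omega)
  have hle : ∀ (f : ℕ → ℕ → ℕ), f (c - 1 - P.card) (c - 1 - P'.card) ≤
      ∑ j ∈ range (c + 1), ∑ j' ∈ range (c + 1), f j j' := by
    intro f
    refine le_trans ?_ (Finset.single_le_sum (f := fun j => ∑ j' ∈ range (c + 1), f j j')
      (fun _ _ => Nat.zero_le _) (Finset.mem_range.2 (show c - 1 - P.card < c + 1 by omega)))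
    exact Finset.single_le_sum (f := fun j' => f (c - 1 - P.card) j')
      (fun _ _ => Nat.zero_le _) (Finset.mem_range.2 (show c - 1 - P'.card < c + 1 by omega))
  have hN := hle RN
  have hb := hle RB
  obtain ⟨A, ⟨e, he, hPe, hd, rfl⟩, B, ⟨e', he', hPe', hd', rfl⟩, hdis⟩ :=
    hR (c - 1 - P.card) (c - 1 - P'.card) V _ _
      (hP.reg (P' := P') (N' := RN (c - 1 - P.card) (c - 1 - P'.card))
        (b' := RB (c - 1 - P.card) (c - 1 - P'.card)) (by omega) (by omega) (by omega))
      (hP'.reg (P' := P) (N' := RN (c - 1 - P.card) (c - 1 - P'.card))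
        (b' := RB (c - 1 - P.card) (c - 1 - P'.card)) (by omega) (by omega) (by omega))
  refine (hH e he e' he').trans (Finset.card_le_card ?_)
  intro v hv
  rw [Finset.mem_inter] at hv ⊢
  by_cases hvP : v ∈ P
  · by_cases hvP' : v ∈ P'
    · exact ⟨hvP, hvP'⟩
    · exfalso
      exact Finset.disjoint_left.1 hd' hv.2 (Finset.mem_sdiff.2 ⟨hvP, hvP'⟩)
  · by_cases hvP' : v ∈ P'
    · exfalso
      exact Finset.disjoint_left.1 hd hv.1 (Finset.mem_sdiff.2 ⟨hvP', hvP⟩)
    · exfalso
      exact Set.disjoint_left.1 hdis ⟨by exact_mod_cast hv.1, by exact_mod_cast hvP⟩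
        ⟨by exact_mod_cast hv.2, by exact_mod_cast hvP'⟩

/-! ### Colourings -/

/-- Give the elements of `P` distinct colours, different from the colour of everything else. -/
noncomputable def uniq {V : Type} (P : Finset V) (v : V) : Option P := by
  classical
  exact if h : v ∈ P then some ⟨v, h⟩ else none

lemma uniq_card {V κ : Type} [Finite V] [Finite κ] (P e : Finset V) (χ : V → κ) (hPe : P ⊆ e) :
    P.card + (χ '' ((e : Set V) \ (P : Set V))).ncard ≤
      ((fun v => (uniq P v, χ v)) '' (e : Set V)).ncard := by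
  classical
  have hsplit : (fun v => (uniq P v, χ v)) '' (e : Set V) =
      ((fun v => (uniq P v, χ v)) '' (P : Set V)) ∪
        ((fun v => (uniq P v, χ v)) '' ((e : Set V) \ (P : Set V))) := by
    rw [← Set.image_union, Set.union_sdiff_cancel (by exact_mod_cast hPe)]
  have hdis : Disjoint ((fun v => (uniq P v, χ v)) '' (P : Set V))
      ((fun v => (uniq P v, χ v)) '' ((e : Set V) \ (P : Set V))) := by
    rw [Set.disjoint_left]
    rintro x ⟨v, hv, rfl⟩ ⟨w, ⟨-, hw⟩, hvw⟩
    have h1 := congrArg Prod.fst hvw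
    have hv' : v ∈ P := by exact_mod_cast hv
    have hw' : w ∉ P := by exact_mod_cast hw
    simp [uniq, hv', hw'] at h1
  rw [hsplit, Set.ncard_union_eq hdis (Set.toFinite _) (Set.toFinite _)]
  refine Nat.add_le_add ?_ ?_
  · rw [Set.InjOn.ncard_image, Set.ncard_coe_finset]
    intro v hv w hw hvw
    have h1 := congrArg Prod.fst hvw
    have hv' : v ∈ P := by exact_mod_cast hv
    have hw' : w ∈ P := by exact_mod_cast hw
    simpa [uniq, hv', hw'] using h1
  · have : χ '' ((e : Set V) \ (P : Set V)) =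
        Prod.snd '' ((fun v => (uniq P v, χ v)) '' ((e : Set V) \ (P : Set V))) := by
      rw [Set.image_image]
    rw [this]
    exact Set.ncard_image_le (Set.toFinite _)

/-- refining a colouring does not decrease the number of colours -/
lemma ncard_image_comp_le {V κ κ' : Type} [Finite V] (χ : V → κ) (f : κ → κ') (e : Set V) :
    ((fun v => f (χ v)) '' e).ncard ≤ (χ '' e).ncard := by
  have : (fun v => f (χ v)) '' e = f '' (χ '' e) := by rw [Set.image_image]
  rw [this]
  exact Set.ncard_image_le (Set.toFinite _)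

/-- The tree colouring: the edges containing no set of the cover can be coloured with a bounded
number of colours. -/
lemma tree_coloring (c N b d : ℕ) : ∃ M : ℕ, ∀ (V : Type) [Finite V] [DecidableEq V]
    (H 𝒮 : Finset (Finset V)), (∀ P, Bad H c N b P → ∃ S ∈ 𝒮, S ⊆ P) →
    ∀ P : Finset V, P.card + d + 1 = c → ∃ (κ : Type) (_ : Fintype κ) (χ : V → κ),
      Fintype.card κ ≤ M ∧ ∀ e ∈ H, (∀ S ∈ 𝒮, ¬ S ⊆ e) → P ⊆ e →
        min c e.card ≤ (χ '' (e : Set V)).ncard := by
  classical
  induction d with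
  | zero =>
    refine ⟨c, fun V _ _ H 𝒮 hcov P hP => ?_⟩
    refine ⟨Option P × Unit, inferInstance, fun v => (uniq P v, ()), ?_, ?_⟩
    · simp only [Fintype.card_prod, Fintype.card_option, Fintype.card_coe, Fintype.card_unit]
      omega
    · intro e he _ hPe
      have h1 := uniq_card P e (fun _ : V => ()) hPe
      by_cases heP : e = P
      · subst heP
        have := min_le_right c e.card
        omega
      · have hnon : ((e : Set V) \ (P : Set V)).Nonempty := by
          rw [Set.sdiff_nonempty]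
          intro hle
          exact heP (Finset.Subset.antisymm (by exact_mod_cast hle) hPe)
        have : 0 < ((fun _ : V => ()) '' ((e : Set V) \ (P : Set V))).ncard := by
          rw [Set.ncard_pos (Set.toFinite _)]
          exact hnon.image _
        have h2 := min_le_left c e.card
        omega
  | succ d ih =>
    obtain ⟨M, hM⟩ := ih
    refine ⟨c * (N + 1) * (M + 1) ^ b, fun V _ _ H 𝒮 hcov P hP => ?_⟩
    by_cases hbad : Bad H c N b P
    · -- no edge to colour
      obtain ⟨S, hS, hSP⟩ := hcov P hbad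
      refine ⟨Unit, inferInstance, fun _ => (), ?_, ?_⟩
      · have h1 : 0 < (M + 1) ^ b := by positivity
        have h2 : 0 < c * (N + 1) * (M + 1) ^ b := by
          apply Nat.mul_pos _ h1
          apply Nat.mul_pos <;> omega
        rw [Fintype.card_unit]
        exact h2
      · intro e _ hno hPe
        exact absurd (hSP.trans hPe) (hno S hS)
    · simp only [Bad, not_forall] at hbad
      obtain ⟨Z, hZ, hZP, κ₀, hf₀, hκ₀, χ₀, hχ₀⟩ := hbad
      push Not at hχ₀
      have hIH : ∀ z : Z, ∃ (κ : Type) (_ : Fintype κ) (χ : V → κ),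
          Fintype.card κ ≤ M ∧ ∀ e ∈ H, (∀ S ∈ 𝒮, ¬ S ⊆ e) → insert z.1 P ⊆ e →
            min c e.card ≤ (χ '' (e : Set V)).ncard := by
        intro z
        refine hM V H 𝒮 hcov (insert z.1 P) ?_
        rw [Finset.card_insert_of_notMem (Finset.disjoint_left.1 hZP z.2)]
        omega
      choose κ hf χ hκ hχ using hIH
      refine ⟨Option P × (κ₀ × (∀ z : Z, κ z)), inferInstance,
        fun v => (uniq P v, (χ₀ v, fun z => χ z v)), ?_, ?_⟩
      · simp only [Fintype.card_prod, Fintype.card_option, Fintype.card_coe, Fintype.card_pi]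
        have h1 : ∏ z : Z, Fintype.card (κ z) ≤ (M + 1) ^ b := by
          calc ∏ z : Z, Fintype.card (κ z) ≤ ∏ _z : Z, (M + 1) :=
                Finset.prod_le_prod' fun z _ => (hκ z).trans (by omega)
            _ = (M + 1) ^ Z.card := by
                rw [Finset.prod_const, Finset.card_univ, Fintype.card_coe]
            _ ≤ (M + 1) ^ b := Nat.pow_le_pow_right (by omega) hZ
        calc (P.card + 1) * (Fintype.card κ₀ * ∏ z : Z, Fintype.card (κ z))
            ≤ c * ((N + 1) * (M + 1) ^ b) := by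
              apply Nat.mul_le_mul (by omega)
              exact Nat.mul_le_mul (by omega) h1
          _ = c * (N + 1) * (M + 1) ^ b := by ring
      · intro e he hno hPe
        by_cases heP : e = P
        · subst heP
          have h1 := uniq_card e e (fun v => (χ₀ v, fun z => χ z v)) (Finset.Subset.refl _)
          have h2 := min_le_right c e.card
          omega
        · by_cases hdis : Disjoint e Z
          · have h1 := hχ₀ e he hPe heP hdis
            have h2 := uniq_card P e (fun v => (χ₀ v, fun z => χ z v)) hPe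
            have h3 := ncard_image_comp_le (fun v => (χ₀ v, fun z => χ z v)) Prod.fst
              ((e : Set V) \ (P : Set V))
            have h4 := min_le_left c e.card
            change (χ₀ '' ((e : Set V) \ (P : Set V))).ncard ≤ _ at h3
            omega
          · rw [Finset.not_disjoint_iff] at hdis
            obtain ⟨z, hze, hzZ⟩ := hdis
            have h1 := hχ ⟨z, hzZ⟩ e he hno (Finset.insert_subset hze hPe)
            refine h1.trans ?_
            exact ncard_image_comp_le (fun v => (uniq P v, (χ₀ v, fun z => χ z v)))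
              (fun p => p.2.2 ⟨z, hzZ⟩) (e : Set V)

/-- **Upper bound.** -/
theorem exponent_of_coverBound {t ℓ x : ℕ} (ht : 1 ≤ t) (hℓ : 1 ≤ ℓ)
    (h : CoverBound t (t + ℓ - 2) x) : Exponent t ℓ x := by
  classical
  obtain ⟨N, b, hN1, hNb⟩ := bad_inter (t + ℓ)
  obtain ⟨M, hM⟩ := tree_coloring (t + ℓ) N b (t + ℓ - 1)
  refine ⟨M * (x * t + 1), fun V _ _ H hHne hH => ?_⟩
  -- the vertex set is nonempty
  obtain ⟨e₀, he₀⟩ := hHne
  have he₀t := hH e₀ he₀ e₀ he₀
  rw [Finset.inter_self] at he₀t
  have : Nonempty V := by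
    obtain ⟨v, -⟩ := Finset.card_pos.1 (show 0 < e₀.card by omega)
    exact ⟨v⟩
  -- the kernels
  obtain ⟨𝒮, h𝒮x, h𝒮t, h𝒮cov⟩ := h V (univ.filter (fun P => Bad H (t + ℓ) N b P))
    (by
      intro P hP P' hP'
      rw [Finset.mem_filter] at hP hP'
      exact hNb t V H hH P P' hP.2 hP'.2)
    (by
      intro P hP
      rw [Finset.mem_filter] at hP
      have := hP.2.card hN1
      omega)
  obtain ⟨κ₀, hf₀, χ₀, hκ₀, hχ₀⟩ := hM V H 𝒮
    (fun P hP => h𝒮cov P (by rw [Finset.mem_filter]; exact ⟨Finset.mem_univ _, hP⟩)) ∅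
    (by rw [Finset.card_empty]; omega)
  -- colourings of the links
  set m := chiLink H t ℓ with hm
  have hlink : ∀ S : 𝒮, ∃ φ : V → Fin m, ∀ e ∈ link H S.1,
      min ℓ e.card ≤ (φ '' (e : Set V)).ncard := by
    intro S
    obtain ⟨φ, hφ⟩ := chi_spec (link H S.1) ℓ
    have hle : chi (link H S.1) ℓ ≤ m := by
      rw [hm, chiLink]
      exact Finset.le_sup (f := fun S => chi (link H S) ℓ)
        (Finset.mem_powersetCard.2 ⟨Finset.subset_univ _, h𝒮t S.1 S.2⟩)
    refine ⟨fun v => Fin.castLE hle (φ v), fun e he => ?_⟩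
    have h1 := hφ e he
    have h2 : (fun v => Fin.castLE hle (φ v)) '' (e : Set V) =
        Fin.castLE hle '' (φ '' (e : Set V)) := by rw [Set.image_image]
    rw [h2, Set.ncard_image_of_injective _ (Fin.castLE_injective hle), image_ncard]
    exact h1
  choose φ hφ using hlink
  have hmpos : 1 ≤ m := by
    have h1 : ∃ S : Finset V, S ⊆ e₀ ∧ S.card = t := Finset.exists_subset_card_eq he₀t
    obtain ⟨S, -, hS⟩ := h1
    refine (chi_pos (link H S) ℓ).trans ?_
    rw [hm, chiLink]
    exact Finset.le_sup (f := fun S => chi (link H S) ℓ)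
      (Finset.mem_powersetCard.2 ⟨Finset.subset_univ _, hS⟩)
  -- the product colouring
  have hU : (𝒮.biUnion id).card ≤ x * t := by
    calc (𝒮.biUnion id).card ≤ 𝒮.card * t :=
          Finset.card_biUnion_le_card_mul _ _ _ fun S hS => (h𝒮t S hS).le
      _ ≤ x * t := Nat.mul_le_mul_right _ h𝒮x
  have hcard : Fintype.card (Option (𝒮.biUnion id) × (κ₀ × (𝒮 → Fin m))) ≤
      M * (x * t + 1) * m ^ x := by
    simp only [Fintype.card_prod, Fintype.card_option, Fintype.card_coe, Fintype.card_pi,
      Fintype.card_fin, Finset.prod_const, Finset.card_univ]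
    calc ((𝒮.biUnion id).card + 1) * (Fintype.card κ₀ * m ^ 𝒮.card)
        ≤ (x * t + 1) * (M * m ^ x) := by
          apply Nat.mul_le_mul (by omega)
          exact Nat.mul_le_mul hκ₀ (Nat.pow_le_pow_right hmpos h𝒮x)
      _ = M * (x * t + 1) * m ^ x := by ring
  refine le_trans (chi_le_of_coloring
    (fun v => (uniq (𝒮.biUnion id) v, (χ₀ v, fun S => φ S v))) ?_) hcard
  intro e he
  by_cases hno : ∀ S ∈ 𝒮, ¬ S ⊆ e
  · refine (hχ₀ e he hno (Finset.empty_subset _)).trans ?_
    exact ncard_image_comp_le (fun v => (uniq (𝒮.biUnion id) v, (χ₀ v, fun S => φ S v)))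
      (fun p => p.2.1) (e : Set V)
  · push Not at hno
    obtain ⟨S, hS, hSe⟩ := hno
    have h1 := hφ ⟨S, hS⟩ (e \ S) (by
      rw [link, Finset.mem_image]
      exact ⟨e, Finset.mem_filter.2 ⟨he, hSe⟩, rfl⟩)
    have h2 := uniq_card S e (φ ⟨S, hS⟩) hSe
    rw [Finset.coe_sdiff] at h1
    have hSc := h𝒮t S hS
    have hec : (e \ S).card = e.card - t := by
      rw [Finset.card_sdiff_of_subset hSe, hSc]
    have hcomp : ((fun v => (uniq S v, φ ⟨S, hS⟩ v)) '' (e : Set V)).ncard ≤
        ((fun v => (uniq (𝒮.biUnion id) v, (χ₀ v, fun S => φ S v))) '' (e : Set V)).ncard := by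
      have hSU : ∀ v, v ∈ S → v ∈ 𝒮.biUnion id := fun v hv =>
        Finset.mem_biUnion.2 ⟨S, hS, hv⟩
      have := ncard_image_comp_le (fun v => (uniq (𝒮.biUnion id) v, (χ₀ v, fun S => φ S v)))
        (fun p => ((match p.1 with
          | some v => uniq S v.1
          | none => none), p.2.2 ⟨S, hS⟩)) (e : Set V)
      refine le_trans (le_of_eq ?_) this
      congr 2
      funext v
      by_cases hv : v ∈ 𝒮.biUnion id
      · have : uniq (𝒮.biUnion id) v = some ⟨v, hv⟩ := by simp only [uniq, dif_pos hv]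
        simp only [this]
      · have h3 : uniq (𝒮.biUnion id) v = none := by simp only [uniq, dif_neg hv]
        have h4 : uniq S v = none := by
          have : v ∉ S := fun h => hv (hSU v h)
          simp only [uniq, dif_neg this]
        simp only [h3, h4]
    have het : t ≤ e.card := by rw [← hSc]; exact Finset.card_le_card hSe
    have h5 : min (t + ℓ) e.card ≤ t + min ℓ (e \ S).card := by
      rw [hec]
      omega
    omega

end Pool.Agent.Hhelper47.StrongCol
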