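import Pool.Agent.Hhelper47.StrongCol.Lower

/-!
Evaluation of the covering function in two cases: `t = 1`, and sets of size at most `t + 1`.
-/

set_option autoImplicit false

namespace Pool.Agent.Hhelper47.StrongCol

open Finset

/-! ### The case `t = 1` -/

lemma coverBound_one_of_le {k x : ℕ} (h : k ≤ x) : CoverBound 1 k x := by
  classical
  intro V _ _ F hF hFc
  rcases F.eq_empty_or_nonempty with rfl | ⟨A, hA⟩
  · exact ⟨∅, by simp, by simp, by simp⟩
  · refine ⟨A.image (fun a => {a}), (Finset.card_image_le.trans (hFc A hA)).trans h, ?_, ?_⟩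
    · intro S hS
      obtain ⟨a, -, rfl⟩ := Finset.mem_image.1 hS
      simp
    · intro B hB
      have h1 := hF A hA B hB
      obtain ⟨a, ha⟩ := Finset.card_pos.1 (show 0 < (A ∩ B).card by omega)
      rw [Finset.mem_inter] at ha
      exact ⟨{a}, Finset.mem_image.2 ⟨a, ha.1, rfl⟩, by simpa using ha.2⟩

lemma le_of_coverBound_one {k x : ℕ} (h : CoverBound 1 k x) : k ≤ x := by
  classical
  by_contra hlt
  push Not at hlt
  obtain ⟨𝒮, h𝒮x, h𝒮t, h𝒮⟩ := h (Fin (2 * k - 1)) ((univ : Finset (Fin (2 * k - 1))).powersetCard k)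
    (by
      intro A hA B hB
      rw [Finset.mem_powersetCard] at hA hB
      have h1 := Finset.card_union_add_card_inter A B
      have h2 := Finset.card_le_univ (A ∪ B)
      rw [Fintype.card_fin] at h2
      omega)
    (by
      intro A hA
      rw [Finset.mem_powersetCard] at hA
      omega)
  have hU : (𝒮.biUnion id).card ≤ x := by
    refine (Finset.card_biUnion_le_card_mul _ _ 1 fun S hS => ?_).trans (by omega)
    exact (h𝒮t S hS).le
  obtain ⟨A, hA, hAc⟩ := Finset.exists_subset_card_eq
    (show k ≤ ((𝒮.biUnion id)ᶜ).card by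
      rw [Finset.card_compl, Fintype.card_fin]; omega)
  obtain ⟨S, hS, hSA⟩ := h𝒮 A (Finset.mem_powersetCard.2 ⟨Finset.subset_univ _, hAc⟩)
  have hS1 := h𝒮t S hS
  obtain ⟨a, ha⟩ := Finset.card_pos.1 (show 0 < S.card by omega)
  have h1 := hA (hSA ha)
  rw [Finset.mem_compl] at h1
  exact h1 (Finset.mem_biUnion.2 ⟨S, hS, ha⟩)

/-! ### Sets of size at most `t + 1` -/

lemma le_of_coverBound_succ {t x : ℕ} (h : CoverBound t (t + 1) x) : (t + 3) / 2 ≤ x := by
  classical
  obtain ⟨𝒮, h𝒮x, h𝒮t, h𝒮⟩ := h (Fin (t + 2)) ((univ : Finset (Fin (t + 2))).powersetCard (t + 1))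
    (by
      intro A hA B hB
      rw [Finset.mem_powersetCard] at hA hB
      have h1 := Finset.card_union_add_card_inter A B
      have h2 := Finset.card_le_univ (A ∪ B)
      rw [Fintype.card_fin] at h2
      omega)
    (by
      intro A hA
      rw [Finset.mem_powersetCard] at hA
      omega)
  -- every member of `𝒮` covers at most two sets
  have hcov : ∀ S ∈ 𝒮, (((univ : Finset (Fin (t + 2))).powersetCard (t + 1)).filter
      (fun A => S ⊆ A)).card ≤ 2 := by
    intro S hS
    have hSc := h𝒮t S hS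
    have hsub : ((univ : Finset (Fin (t + 2))).powersetCard (t + 1)).filter (fun A => S ⊆ A) ⊆
        Sᶜ.image (fun a => insert a S) := by
      intro A hA
      rw [Finset.mem_filter, Finset.mem_powersetCard] at hA
      have h1 : (A \ S).card = 1 := by
        rw [Finset.card_sdiff_of_subset hA.2]; omega
      obtain ⟨a, ha⟩ := Finset.card_eq_one.1 h1
      have haA : a ∈ A \ S := by rw [ha]; simp
      rw [Finset.mem_sdiff] at haA
      refine Finset.mem_image.2 ⟨a, Finset.mem_compl.2 haA.2, ?_⟩
      rw [Finset.insert_eq, ← ha, Finset.sdiff_union_of_subset hA.2]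
    refine (Finset.card_le_card hsub).trans (Finset.card_image_le.trans ?_)
    rw [Finset.card_compl, Fintype.card_fin]
    omega
  have htot : ((univ : Finset (Fin (t + 2))).powersetCard (t + 1)).card ≤ 𝒮.card * 2 := by
    have hsub : (univ : Finset (Fin (t + 2))).powersetCard (t + 1) ⊆ 𝒮.biUnion (fun S =>
        ((univ : Finset (Fin (t + 2))).powersetCard (t + 1)).filter (fun A => S ⊆ A)) := by
      intro A hA
      obtain ⟨S, hS, hSA⟩ := h𝒮 A hA
      exact Finset.mem_biUnion.2 ⟨S, hS, Finset.mem_filter.2 ⟨hA, hSA⟩⟩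
    exact (Finset.card_le_card hsub).trans (Finset.card_biUnion_le_card_mul _ _ _ hcov)
  rw [Finset.card_powersetCard, Finset.card_univ, Fintype.card_fin] at htot
  have hch : (t + 2).choose (t + 1) = t + 2 := Nat.choose_succ_self_right (t + 1)
  rw [hch] at htot
  omega

lemma coverBound_succ_of_le {t x : ℕ} (ht : 1 ≤ t) (h : (t + 3) / 2 ≤ x) :
    CoverBound t (t + 1) x := by
  classical
  intro V _ _ F hF hFc
  have hFt : ∀ A ∈ F, t ≤ A.card := by
    intro A hA
    have := hF A hA A hA
    rwa [Finset.inter_self] at this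
  -- if some `t`-set is contained in all members, we are done
  by_cases hK : ∃ K : Finset V, K.card = t ∧ ∀ A ∈ F, K ⊆ A
  · obtain ⟨K, hKc, hKF⟩ := hK
    exact ⟨{K}, by rw [Finset.card_singleton]; omega, by simpa using hKc,
      fun A hA => ⟨K, by simp, hKF A hA⟩⟩
  push Not at hK
  rcases F.eq_empty_or_nonempty with rfl | ⟨A, hA⟩
  · exact ⟨∅, by simp, by simp, by simp⟩
  -- all members have size `t + 1`
  have hFc' : ∀ B ∈ F, B.card = t + 1 := by
    intro B hB
    by_contra hne
    have hBt : B.card = t := by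
      have h1 := hFc B hB
      have h2 := hFt B hB
      omega
    obtain ⟨C, hC, hBC⟩ := hK B hBt
    apply hBC
    have h3 := hF B hB C hC
    rw [← hBt] at h3
    exact Finset.inter_eq_left.1 (Finset.eq_of_subset_of_card_le Finset.inter_subset_left h3)
  -- two distinct members
  obtain ⟨K₀, hK₀A, hK₀c⟩ := Finset.exists_subset_card_eq (hFt A hA)
  obtain ⟨B, hB, hK₀B⟩ := hK K₀ hK₀c
  have hAB : A ≠ B := by
    rintro rfl
    exact hK₀B hK₀A
  have hABc : (A ∩ B).card = t := by
    have h1 := hF A hA B hB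
    by_contra hne
    have h2 : (A ∩ B).card ≤ A.card := Finset.card_le_card Finset.inter_subset_left
    have h3 : (A ∩ B).card = t + 1 := by
      rw [hFc' A hA] at h2; omega
    have h4 : A ∩ B = A := Finset.eq_of_subset_of_card_le Finset.inter_subset_left (by
      rw [h3, hFc' A hA])
    have h5 : A ∩ B = B := Finset.eq_of_subset_of_card_le Finset.inter_subset_right (by
      rw [h3, hFc' B hB])
    exact hAB (h4.symm.trans h5)
  set Y := A ∪ B with hY
  have hYc : Y.card = t + 2 := by
    have h1 := Finset.card_union_add_card_inter A B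
    rw [hFc' A hA, hFc' B hB, hABc] at h1
    rw [hY]
    omega
  -- a member not containing `A ∩ B`
  obtain ⟨C, hC, hKC⟩ := hK (A ∩ B) hABc
  -- any member not containing `A ∩ B` lies inside `Y`
  have hin : ∀ D ∈ F, ¬ A ∩ B ⊆ D → D ⊆ Y := by
    intro D hD hKD
    by_contra hDY
    obtain ⟨d, hd, hdY⟩ := Finset.not_subset.1 hDY
    obtain ⟨w, hw, hwD⟩ := Finset.not_subset.1 hKD
    rw [Finset.mem_inter] at hw
    have hdA : d ∉ A := fun h => hdY (Finset.mem_union_left _ h)
    have hdB : d ∉ B := fun h => hdY (Finset.mem_union_right _ h)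
    have h1 := hF D hD A hA
    have h2 := hF D hD B hB
    have h3 : D ∩ A ⊆ A.erase w := by
      intro v hv
      rw [Finset.mem_inter] at hv
      exact Finset.mem_erase.2 ⟨fun h => hwD (h ▸ hv.1), hv.2⟩
    have h4 : D ∩ B ⊆ B.erase w := by
      intro v hv
      rw [Finset.mem_inter] at hv
      exact Finset.mem_erase.2 ⟨fun h => hwD (h ▸ hv.1), hv.2⟩
    have h5 : (A.erase w).card = t := by
      rw [Finset.card_erase_of_mem hw.1, hFc' A hA]; omega
    have h6 : (B.erase w).card = t := by
      rw [Finset.card_erase_of_mem hw.2, hFc' B hB]; omega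
    have h7 : D ∩ A = A.erase w := Finset.eq_of_subset_of_card_le h3 (by rw [h5]; exact h1)
    have h8 : D ∩ B = B.erase w := Finset.eq_of_subset_of_card_le h4 (by rw [h6]; exact h2)
    -- `D` contains `Y \ {w}` and `d`
    have h9 : insert d (Y.erase w) ⊆ D := by
      intro v hv
      rw [Finset.mem_insert, Finset.mem_erase, hY, Finset.mem_union] at hv
      rcases hv with rfl | ⟨hvw, hv | hv⟩
      · exact hd
      · have : v ∈ D ∩ A := by rw [h7]; exact Finset.mem_erase.2 ⟨hvw, hv⟩
        exact (Finset.mem_inter.1 this).1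
      · have : v ∈ D ∩ B := by rw [h8]; exact Finset.mem_erase.2 ⟨hvw, hv⟩
        exact (Finset.mem_inter.1 this).1
    have h10 := Finset.card_le_card h9
    rw [Finset.card_insert_of_notMem (fun h => hdY (Finset.mem_of_mem_erase h)),
      Finset.card_erase_of_mem (Finset.mem_union_left _ hw.1), hYc, hFc' D hD] at h10
    omega
  have hCY := hin C hC hKC
  have hall : ∀ D ∈ F, D ⊆ Y := by
    intro D hD
    by_cases hKD : A ∩ B ⊆ D
    · -- `D = (A ∩ B) ∪ {d}`, and `C` misses an element of `A ∩ B`
      by_contra hDY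
      obtain ⟨d, hd, hdY⟩ := Finset.not_subset.1 hDY
      obtain ⟨w, hw, hwC⟩ := Finset.not_subset.1 hKC
      have h1 := hF D hD C hC
      have h2 : insert d (A ∩ B) ⊆ D := Finset.insert_subset hd hKD
      have hdK : d ∉ A ∩ B := fun h => hdY (Finset.mem_union_left _ (Finset.mem_inter.1 h).1)
      have h3 : insert d (A ∩ B) = D := Finset.eq_of_subset_of_card_le h2 (by
        rw [Finset.card_insert_of_notMem hdK, hABc, hFc' D hD])
      have h4 : D ∩ C ⊆ (A ∩ B).erase w := by
        intro v hv
        rw [Finset.mem_inter, ← h3, Finset.mem_insert] at hv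
        rcases hv with ⟨rfl | hv, hvC⟩
        · exact absurd (hCY hvC) hdY
        · exact Finset.mem_erase.2 ⟨fun h => hwC (h ▸ hvC), hv⟩
      have h5 := Finset.card_le_card h4
      rw [Finset.card_erase_of_mem hw, hABc] at h5
      omega
    · exact hin D hD hKD
  -- enumerate `Y` and pair its elements
  let e := Y.equivFinOfCardEq hYc
  let y : ℕ → V := fun i => if h : i < t + 2 then (e.symm ⟨i, h⟩).1 else (e.symm ⟨0, by omega⟩).1
  have hymem : ∀ i, y i ∈ Y := by
    intro i
    simp only [y]
    split_ifs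
    · exact (e.symm _).2
    · exact (e.symm _).2
  have hyinj : ∀ i j, i < t + 2 → j < t + 2 → y i = y j → i = j := by
    intro i j hi hj hij
    simp only [y, dif_pos hi, dif_pos hj] at hij
    have := e.symm.injective (Subtype.ext hij)
    exact congrArg Fin.val this
  have hy0 : ∀ i, ¬ i < t + 2 → y i = y 0 := by
    intro i hi
    simp only [y, dif_neg hi, dif_pos (show 0 < t + 2 by omega)]
  refine ⟨(range ((t + 3) / 2)).image (fun j => (Y.erase (y (2 * j))).erase (y (2 * j + 1))),
    ?_, ?_, ?_⟩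
  · refine Finset.card_image_le.trans ?_
    rw [Finset.card_range]
    exact h
  · intro S hS
    obtain ⟨j, hj, rfl⟩ := Finset.mem_image.1 hS
    rw [Finset.mem_range] at hj
    have hne : y (2 * j + 1) ≠ y (2 * j) := by
      intro heq
      by_cases h1 : 2 * j + 1 < t + 2
      · have := hyinj _ _ h1 (by omega) heq
        omega
      · rw [hy0 _ h1] at heq
        have := hyinj _ _ (by omega) (by omega) heq
        omega
    rw [Finset.card_erase_of_mem (Finset.mem_erase.2 ⟨hne, hymem _⟩),
      Finset.card_erase_of_mem (hymem _), hYc]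
    omega
  · intro D hD
    have h1 : (Y \ D).card = 1 := by
      rw [Finset.card_sdiff_of_subset (hall D hD), hYc, hFc' D hD]; omega
    obtain ⟨w, hw⟩ := Finset.card_eq_one.1 h1
    have hwY : w ∈ Y \ D := by rw [hw]; simp
    rw [Finset.mem_sdiff] at hwY
    have hDw : ∀ v ∈ Y, v ≠ w → v ∈ D := by
      intro v hv hvw
      by_contra hvD
      have : v ∈ Y \ D := Finset.mem_sdiff.2 ⟨hv, hvD⟩
      rw [hw, Finset.mem_singleton] at this
      exact hvw this
    have hyw : ∃ i, i < t + 2 ∧ y i = w := by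
      refine ⟨(e ⟨w, hwY.1⟩).1, (e ⟨w, hwY.1⟩).2, ?_⟩
      simp only [y, dif_pos (e ⟨w, hwY.1⟩).2]
      simp
    obtain ⟨i, hi, hyi⟩ := hyw
    refine ⟨_, Finset.mem_image.2 ⟨i / 2, Finset.mem_range.2 (by omega), rfl⟩, ?_⟩
    intro v hv
    rw [Finset.mem_erase, Finset.mem_erase] at hv
    refine hDw v hv.2.2 ?_
    rintro rfl
    rcases Nat.even_or_odd' i with ⟨c, hc | hc⟩
    · apply hv.2.1
      rw [show 2 * (i / 2) = i by omega, hyi]
    · apply hv.1
      rw [show 2 * (i / 2) + 1 = i by omega, hyi]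

end Pool.Agent.Hhelper47.StrongCol
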